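import Pool.Agent.Lib.SE.V.Spec

/-!
# PROJECT SE-V: abelian threefolds, assembly (helper64)
-/

set_option autoImplicit false

open Module

noncomputable section

namespace SEV

open HC HC.E HC.SE SEB SES SEU
open SEH.hTr_aux SEU.uT_aux

/-- The modules. -/
structure ModsV : Prop where
  vS : S_vS
  vM : S_vM
  vE : S_vE
  vF : S_vF
  vG : S_vG
  vC : S_vC
  vP : S_vP
  vN : S_vN
  vB : S_vB
  vD : S_vD
  vH : S_vH
  vT : S_vT

/-! ## The radical -/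

section Lie

variable {V : Type} [AddCommGroup V] [Module ℂ V] [FiniteDimensional ℂ V]

omit [FiniteDimensional ℂ V] in
theorem rad_zero {g : Submodule ℂ (Module.End ℂ V)} (hl : Clo g) : Rad hl 0 := by
  refine ⟨g.zero_mem, fun Y => ?_⟩
  have h1 : (⟨0, g.zero_mem⟩ : g) = 0 := rfl
  rw [h1]
  unfold Kil Tr2
  rw [map_zero, zero_mul, zero_mul, map_zero, map_zero, mul_zero]

omit [FiniteDimensional ℂ V] in
theorem rad_add {g : Submodule ℂ (Module.End ℂ V)} (hl : Clo g) {X X' : Module.End ℂ V}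
    (h : Rad hl X) (h' : Rad hl X') : Rad hl (X + X') := by
  obtain ⟨h1, h2⟩ := h
  obtain ⟨h1', h2'⟩ := h'
  refine ⟨g.add_mem h1 h1', fun Y => ?_⟩
  have h3 : (⟨X + X', g.add_mem h1 h1'⟩ : g) = ⟨X, h1⟩ + ⟨X', h1'⟩ := rfl
  have h4 := h2 Y
  have h5 := h2' Y
  unfold Kil Tr2 at *
  rw [h3, map_add, add_mul, add_mul, map_add, map_add, h4, h5]
  ring

omit [FiniteDimensional ℂ V] in
theorem rad_smul {g : Submodule ℂ (Module.End ℂ V)} (hl : Clo g) {X : Module.End ℂ V} (c : ℂ)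
    (h : Rad hl X) : Rad hl (c • X) := by
  obtain ⟨h1, h2⟩ := h
  refine ⟨g.smul_mem c h1, fun Y => ?_⟩
  have h3 : (⟨c • X, g.smul_mem c h1⟩ : g) = c • ⟨X, h1⟩ := rfl
  have h4 := h2 Y
  unfold Kil Tr2 at *
  rw [h3, map_smul, smul_mul_assoc, smul_mul_assoc, map_smul, map_smul, h4, smul_eq_mul,
    smul_eq_mul]
  ring

omit [FiniteDimensional ℂ V] in
/-- `W⁻` is not `0`. -/
theorem ex_minus {g : Submodule ℂ (Module.End ℂ V)} {ω : V →ₗ[ℂ] V →ₗ[ℂ] ℂ} {J : Module.End ℂ V}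
    {σ : V →ₛₗ[starRingEnd ℂ] V} (h6 : finrank ℂ V = 6) (H : Cfg g ω J σ) :
    ∃ w, w ≠ 0 ∧ J w = -(Complex.I • w) := by
  have : Nontrivial V := Module.nontrivial_of_finrank_pos (R := ℂ) (by omega)
  obtain ⟨v, hv⟩ := exists_ne (0 : V)
  have hJJ : ∀ v, J (J v) = -v := fun v => LinearMap.congr_fun H.JJ v
  by_cases h : v + Complex.I • J v = 0
  · -- `J v = i v`
    have h1 : J v = Complex.I • v := by
      have h2 : Complex.I • (v + Complex.I • J v) = 0 := by rw [h, smul_zero]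
      rw [smul_add, smul_smul, Complex.I_mul_I, neg_smul, one_smul] at h2
      exact (add_neg_eq_zero.1 h2).symm
    refine ⟨σ v, ?_, ?_⟩
    · intro h2
      apply hv
      rw [← H.ss v, h2, map_zero]
    · rw [← H.sJ, h1, map_smulₛₗ]
      simp
  · refine ⟨v + Complex.I • J v, h, ?_⟩
    rw [map_add, map_smul, hJJ, smul_add, smul_smul, Complex.I_mul_I, neg_smul, one_smul, smul_neg]
    abel

end Lie

/-! ## Hodge group `Sp` -/

theorem ex_basis {T : AV} {n : ℕ} (hd : finrank ℂ T.V = n) :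
    ∃ e : Basis (Fin (2 * n)) ℝ T.V, ∀ k, e k ∈ T.L := by
  have h1 : finrank ℝ T.V = 2 * n := by rw [finrank_real_of_complex, hd]
  have h2 : Fintype.card (Free.ChooseBasisIndex ℤ T.L) = 2 * n := by
    rw [← h1, finrank_eq_card_basis (uL_aux.bs T)]
  refine ⟨(uL_aux.bs T).reindex (Fintype.equivFinOfCardEq h2), fun k => ?_⟩
  rw [Basis.reindex_apply]
  exact uL_aux.bs_mem T _

theorem sp3 (M : ModsV) (uC : S_uC) {T : AV} (hd : finrank ℂ T.V = 3)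
    (hEnd : ∀ Y : Module.End ℝ T.V, RatEnd T Y → Cx Y → Scal Y) : ∀ E, IsRf T E → SpB E := by
  intro E hE h hh X hX
  have hcx : ∀ h : Set (Module.End ℝ T.V), SES.HLieS E h → ∀ Y : Module.End ℝ T.V,
      (∀ X ∈ h, X * Y = Y * X) → Cx Y := by
    intro h hh Y hYc v
    have h2 : ∀ J ∈ Submodule.span ℝ h, J * Y = Y * J := by
      intro J hJ
      induction hJ using Submodule.span_induction with
      | mem x hx => exact hYc x hx
      | zero => rw [zero_mul, mul_zero]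
      | add x y _ _ hx hy => rw [add_mul, mul_add, hx, hy]
      | smul a x _ hx => rw [smul_mul_assoc, mul_smul_comm, hx]
    exact (LinearMap.congr_fun (h2 _ hh.J) v).symm
  have hirr : ∀ h : Set (Module.End ℝ T.V), SES.HLieS E h → ∀ U : Submodule ℂ (Frm T),
      (∀ X ∈ h, ∀ u ∈ U, pre X u ∈ U) → U = ⊥ ∨ U = ⊤ := fun h hh =>
    uC T E hE h hh fun Y hY hYc => hEnd Y hY (hcx h hh Y hYc)
  obtain ⟨e, he⟩ : ∃ e : Basis (Fin 6) ℝ T.V, ∀ k, e k ∈ T.L := ex_basis hd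
  obtain ⟨ω, hω⟩ := M.vT T E hE 6 e
  obtain ⟨hC, hfull⟩ := hω h hh (hirr h hh)
  have h6 : finrank ℂ (Fin 6 → ℂ) = 6 := by simp
  rcases M.vP _ _ ω _ _ h6 hC with h1 | ⟨Q, hQ⟩
  · exact hfull h1 X hX
  have h2 := M.vN _ _ ω _ _ h6 hC Q hQ
  have h3 := M.vH T E h hh 6 e he hC.lie h2
  set h₁ : Set (Module.End ℝ T.V) := {X | X ∈ h ∧ Rad hC.lie (hat e X)} with hh₁
  obtain ⟨hC₁, hfull₁⟩ := hω h₁ h3 (hirr h₁ h3)
  rcases M.vP _ _ ω _ _ h6 hC₁ with h4 | ⟨Q₁, hQ₁⟩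
  · refine Submodule.span_mono ?_ (hfull₁ h4 X hX)
    rintro _ ⟨A, hA, B, hB, rfl⟩
    exact ⟨A, hA.1, B, hB.1, rfl⟩
  exfalso
  obtain ⟨B, hB, hBJ, hBQ, hBC, hB0⟩ := M.vB _ _ ω _ _ h6 hC₁ Q₁ hQ₁
  have hle : gh e h₁ ≤ gh e h := Submodule.span_mono (Set.image_mono fun X hX => hX.1)
  obtain ⟨c, hc⟩ := hQ.one Q₁ (hle hQ₁.mem) hQ₁.deg
  have hc0 : c ≠ 0 := by
    rintro rfl
    obtain ⟨w, hw0, hw⟩ := ex_minus h6 hC₁
    apply hw0
    apply hQ₁.inj w hw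
    rw [hc, zero_smul, LinearMap.zero_apply]
  have hQ' : Q = c⁻¹ • Q₁ := by rw [hc, smul_smul, inv_mul_cancel₀ hc0, one_smul]
  have hBQ' : B * Q = Q * B := by rw [hQ', mul_smul_comm, smul_mul_assoc, hBQ]
  have hBC' : ∀ C ∈ gh e h, hat e (mulI T) * C - C * hat e (mulI T) =
      -((2 * Complex.I) • C) → B * C = C * B := by
    intro C hCm hCd
    obtain ⟨C', hC'm, hC's⟩ := hC.sg C hCm
    have hd' : hat e (mulI T) * C' - C' * hat e (mulI T) = (2 * Complex.I) • C' := by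
      refine LinearMap.ext fun v => ?_
      obtain ⟨u, rfl⟩ : ∃ u, v = cj 6 u := ⟨cj 6 v, (hC.ss v).symm⟩
      have h5 := congrArg (cj 6) (LinearMap.congr_fun hCd u)
      rw [LinearMap.sub_apply, map_sub, Module.End.mul_apply, Module.End.mul_apply, hC.sJ,
        ← hC's, ← hC's, hC.sJ, LinearMap.neg_apply, LinearMap.smul_apply, map_neg, map_smulₛₗ,
        ← hC's] at h5
      rw [LinearMap.sub_apply, Module.End.mul_apply, Module.End.mul_apply, h5,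
        LinearMap.smul_apply, ← neg_smul]
      congr 1
      rw [map_mul, Complex.conj_I, map_ofNat]
      ring
    obtain ⟨c', hc'⟩ := hQ.one C' hC'm hd'
    have hC'₁ : C' ∈ gh e h₁ := by
      rw [hc', hQ']
      exact Submodule.smul_mem _ _ (Submodule.smul_mem _ _ hQ₁.mem)
    obtain ⟨C'', hC''m, hC''s⟩ := hC₁.sg C' hC'₁
    have hCC : C'' = C := by
      refine LinearMap.ext fun v => ?_
      have h5 := hC''s (cj 6 v)
      rw [hC.ss, hC's, hC.ss] at h5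
      exact h5
    rw [hCC] at hC''m
    exact hBC C hC''m hCd
  obtain ⟨k, hk⟩ := M.vD _ _ ω _ _ h6 hC Q hQ B (hle hB) hBJ hBQ' hBC' hB0
  have hR : Rad hC.lie B := by
    have h5 : ∀ A ∈ gh e h₁, Rad hC.lie A := by
      intro A hA
      unfold gh at hA
      induction hA using Submodule.span_induction with
      | mem A hA =>
        obtain ⟨Y, hY, rfl⟩ := hA
        exact hY.2
      | zero => exact rad_zero _
      | add A A' _ _ h h' => exact rad_add _ h h'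
      | smul c A _ h => exact rad_smul _ c h
    exact h5 B hB
  obtain ⟨hB', hK⟩ := hR
  have h7 := hK ⟨B, hle hB⟩
  rw [hk] at h7
  have h8 : (k : ℂ) / 4 = 4 / 3 := mul_right_cancel₀ hB0 h7
  have h9 : (3 * k : ℂ) = 16 := by linear_combination 12 * h8
  have h10 : 3 * k = 16 := by exact_mod_cast h9
  omega

/-! ## Classification -/

/-- `T` is a threefold, and it is not simple, or the only imaginary quadratic fields which act on it are
`ℚ(i)` and `ℚ(√-3)`. -/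
def Low3 (T : AV) : Prop :=
  finrank ℂ T.V = 3 ∧
  ((∃ T₁ T₂ : AV, 0 < finrank ℂ T₁.V ∧ 0 < finrank ℂ T₂.V ∧ IsProd T T₁ T₂) ∨
    ∀ (Z : Module.End ℂ T.V) (c : ℚ), RatEnd T (Z.restrictScalars ℝ) → 0 < c →
      Z * Z = -(c : ℂ) • 1 → ∃ d : ℚ, c = d ^ 2 ∨ c = 3 * d ^ 2)

theorem dim_prod {T A B : AV} (h : IsProd T A B) :
    finrank ℂ T.V = finrank ℂ A.V + finrank ℂ B.V := by
  obtain ⟨ψ, -⟩ := h
  rw [ψ.finrank_eq, finrank_prod]

theorem dc_of_low3 (M : ModsV) (P : AV → Prop) (h1 : ∀ G, IsRM G → P G)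
    (h2 : ∀ G, SES.IsSy G → P G)
    (h3 : ∀ (G : AV) (m : ℕ) (Z : Module.End ℂ G.V), IsPic G m Z → 3 ≤ finrank ℂ G.V → EndQ G Z →
      SES.Dc P G) (T : AV) (hT : Low3 T) : SES.Dc P T := by
  obtain ⟨hD1, hD2, hD3, hD4⟩ := SES.tDcA P
  obtain ⟨hd, hT⟩ := hT
  have hprod : (∃ T₁ T₂ : AV, 0 < finrank ℂ T₁.V ∧ 0 < finrank ℂ T₂.V ∧ IsProd T T₁ T₂) →
      SES.Dc P T := by
    rintro ⟨T₁, T₂, h4, h5, h6⟩
    have h7 := dim_prod h6
    exact hD3 T T₁ T₂ (dc_of_surf P h1 h2 T₁ (by omega)) (dc_of_surf P h1 h2 T₂ (by omega)) h6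
  rcases hT with hT | hT
  · exact hprod hT
  by_cases hP : HasP T
  · obtain ⟨T₁, T₂, h4, h5, -, h6⟩ := M.vS T hP
    exact hprod ⟨T₁, T₂, h4, h5, h6⟩
  obtain ⟨E, hE⟩ : ∃ E, IsRf T E := T.pol
  by_cases hsym : ∃ X : Module.End ℝ T.V, RatEnd T X ∧ Cx X ∧ Sy E X ∧ ¬ Scal X
  · obtain ⟨X, hr, hc, hs, hn⟩ := hsym
    obtain ⟨f, hf, hm⟩ := M.vM T X hr
    obtain ⟨s, hsc, hms⟩ := M.vE T E hE X hc hs
    by_cases hi : Irreducible f
    · exact hD2 T (h1 T (M.vG T hd X hr hc hn s f (by omega) hms hf hm hi))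
    · exact absurd (M.vF T X hr hc hn s f hms hf hm hi) hP
  by_cases hall : ∀ Y : Module.End ℝ T.V, RatEnd T Y → Cx Y → Scal Y
  · exact hD2 T (h2 T ⟨by omega, E, hE, sp3 M tuC hd hall E hE⟩)
  push Not at hall
  obtain ⟨Y, hYr, hYc, hYn⟩ := hall
  rcases tuA T E hE Y hYr hYc hYn with h4 | ⟨Z, c, hZr, hZc, hZs, hc0, hZZ⟩
  · exact absurd h4 hsym
  by_cases ht : ∃ t : ℝ, mulI T = t • Z
  · obtain ⟨t, ht⟩ := ht
    exact hD1 T (tuM T Z c t hZr hc0 hZZ ht)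
  push Not at ht
  obtain ⟨Zc, hZc'⟩ := uS_aux.cx_lin Z hZc
  have hZe : Zc.restrictScalars ℝ = Z := LinearMap.ext hZc'
  have hZZ' : Zc * Zc = -(c : ℂ) • (1 : Module.End ℂ T.V) := by
    refine LinearMap.ext fun v => ?_
    have h5 := LinearMap.congr_fun hZZ v
    change Zc (Zc v) = -(c : ℂ) • v
    rw [hZc', hZc']
    refine h5.trans ?_
    change -(c : ℝ) • v = -(c : ℂ) • v
    rw [← Complex.coe_smul]
    push_cast
    rfl
  obtain ⟨d, hd'⟩ := hT Zc c (by rw [hZe]; exact hZr) hc0 hZZ'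
  have hsc : ∀ X : Module.End ℝ T.V, RatEnd T X → Cx X → Sy E X → Scal X := by
    intro X hr hc hs
    by_contra hn
    exact hsym ⟨X, hr, hc, hs, hn⟩
  obtain ⟨G, m, Z', hG1, hG2, hG3, hG4⟩ := M.vC T E hE hd Z c d hZr hZc hZs hc0 hZZ hd' ht hsc
  exact hD4 T G hG1 (h3 G m Z' hG2 hG3 hG4)

/-- An abelian variety of dimension at most 3, of the kind above. -/
def Low (T : AV) : Prop := finrank ℂ T.V ≤ 2 ∨ Low3 T

theorem dc_of_low (M : ModsV) (P : AV → Prop) (h1 : ∀ G, IsRM G → P G)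
    (h2 : ∀ G, SES.IsSy G → P G)
    (h3 : ∀ (G : AV) (m : ℕ) (Z : Module.End ℂ G.V), IsPic G m Z → 3 ≤ finrank ℂ G.V → EndQ G Z →
      SES.Dc P G) (T : AV) (hT : Low T) : SES.Dc P T := by
  rcases hT with hT | hT
  · exact dc_of_surf P h1 h2 T hT
  · exact dc_of_low3 M P h1 h2 h3 T hT

end SEV
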