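import Pool.Agent.Lib.SE.V.Spec
import Pool.Agent.Lib.SE.U.uQ

/-!
# PROJECT SE-V, module vE: symmetric elements are diagonalisable (helper30)
-/

set_option autoImplicit false

open Module

noncomputable section

namespace SEV

open HC HC.E HC.SE SEB SES SEU

namespace vE_aux

/-- no nilpotent part -/
theorem sq {T : AV} {E : T.V →ₗ[ℝ] T.V →ₗ[ℝ] ℝ} (hE : IsRf T E) {X : Module.End ℝ T.V}
    (hC : Cx X) (hS : Sy E X) {μ : ℂ} {w : T.V} (h : X (X w - μ • w) = μ • (X w - μ • w)) :
    X w = μ • w := by
  by_contra hne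
  have hu : X w - μ • w ≠ 0 := fun h0 => hne (sub_eq_zero.1 h0)
  have him : μ.im = 0 := uQ_aux.real hE hS hu h
  have hr : ∀ z : T.V, μ • z = μ.re • z := fun z => by
    rw [uQ_aux.smul_eq, him, zero_smul, add_zero]
  rw [hr, hr] at h
  rw [hr] at hu
  have h1 := hE.2.2.2 _ hu
  set u := X w - μ.re • w with hud
  have h2 : Complex.I • u = X (Complex.I • w) - μ.re • (Complex.I • w) := by
    rw [hud, smul_sub, hC, smul_comm μ.re Complex.I w]
  have h3 : E (Complex.I • u) u = E (Complex.I • w) (X u - μ.re • u) := by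
    rw [h2]
    exact uQ_aux.sy_sub hS _ _ _
  rw [h3, h, sub_self, map_zero] at h1
  exact lt_irrefl _ h1

/-- generalised eigenvectors are eigenvectors -/
theorem gen {T : AV} {E : T.V →ₗ[ℝ] T.V →ₗ[ℝ] ℝ} (hE : IsRf T E) {X : Module.End ℝ T.V}
    (hC : Cx X) (hS : Sy E X) (μ : ℂ) (k : ℕ) : ∀ v : T.V,
    ((uQ_aux.lin hC - μ • (1 : Module.End ℂ T.V)) ^ k) v = 0 → X v = μ • v := by
  induction k with
  | zero =>
    intro v hv
    rw [pow_zero, Module.End.one_apply] at hv
    rw [hv, map_zero, smul_zero]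
  | succ k ih =>
    intro v hv
    rw [pow_succ, Module.End.mul_apply] at hv
    have h1 := ih _ hv
    rw [LinearMap.sub_apply, LinearMap.smul_apply, Module.End.one_apply, uQ_aux.lin_apply] at h1
    exact sq hE hC hS h1

end vE_aux

open vE_aux in
theorem tvE : S_vE := by
  intro T E hE X hC hS
  classical
  have hfin : Module.Finite ℝ T.V := Module.Finite.trans ℂ T.V
  set f : Module.End ℂ T.V := uQ_aux.lin hC with hf
  set S : Finset ℂ := f.charpoly.roots.toFinset with hSd
  have hfa : ∀ v, f v = X v := fun v => rfl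
  have hmem : ∀ μ : ℂ, μ ∈ S ↔ f.HasEigenvalue μ := by
    intro μ
    rw [hSd, Multiset.mem_toFinset, Polynomial.mem_roots f.charpoly_monic.ne_zero,
      Module.End.hasEigenvalue_iff_isRoot_charpoly]
  have hre : ∀ μ : ℂ, f.HasEigenvalue μ → ∃ v : T.V, v ≠ 0 ∧ X v = μ.re • v := by
    intro μ hμ
    obtain ⟨v, hv⟩ := hμ.exists_hasEigenvector
    have h1 : X v = μ • v := hv.apply_eq_smul
    have him : μ.im = 0 := uQ_aux.real hE hS hv.2 h1
    refine ⟨v, hv.2, ?_⟩
    rw [h1, uQ_aux.smul_eq, him, zero_smul, add_zero]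
  set s : Finset ℝ := S.image Complex.re with hs
  set P : Polynomial ℝ := ∏ a ∈ s, (Polynomial.X - Polynomial.C a) with hP
  have hcard : s.card ≤ finrank ℂ T.V := by
    refine Finset.card_image_le.trans ?_
    rw [hSd]
    refine (Multiset.toFinset_card_le _).trans ?_
    refine (Polynomial.card_roots' _).trans ?_
    rw [LinearMap.charpoly_natDegree]
  have hPm : P.Monic := Polynomial.monic_prod_of_monic _ _ fun a _ => Polynomial.monic_X_sub_C a
  -- the product annihilates X
  have h0 : Polynomial.aeval X P = 0 := by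
    apply LinearMap.ext
    intro v
    rw [LinearMap.zero_apply]
    have hv : v ∈ ⨆ μ : ℂ, f.maxGenEigenspace μ := by
      rw [Module.End.iSup_maxGenEigenspace_eq_top]
      exact Submodule.mem_top
    refine Submodule.iSup_induction _ (motive := fun v => (Polynomial.aeval X P) v = 0) hv ?_
      (map_zero _) ?_
    · intro μ x hx
      rw [Module.End.mem_maxGenEigenspace] at hx
      obtain ⟨k, hk⟩ := hx
      have h1 := gen hE hC hS μ k x hk
      by_cases hx0 : x = 0
      · rw [hx0, map_zero]
      · have h2 : f.HasEigenvalue μ :=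
          Module.End.hasEigenvalue_of_hasEigenvector ⟨Module.End.mem_eigenspace_iff.2 h1, hx0⟩
        have him : μ.im = 0 := uQ_aux.real hE hS hx0 h1
        have h3 : X x = μ.re • x := by
          rw [h1, uQ_aux.smul_eq, him, zero_smul, add_zero]
        have h4 : X.HasEigenvector μ.re x := ⟨Module.End.mem_eigenspace_iff.2 h3, hx0⟩
        rw [Module.End.aeval_apply_of_hasEigenvector h4]
        have h5 : P.eval μ.re = 0 := by
          rw [hP, Polynomial.eval_prod]
          refine Finset.prod_eq_zero (Finset.mem_image_of_mem _ ((hmem μ).2 h2)) ?_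
          simp
        rw [h5, zero_smul]
    · intro x y hx hy
      rw [map_add, hx, hy, add_zero]
  have h1 : minpoly ℝ X ∣ P := minpoly.dvd ℝ X h0
  have h2 : P ∣ minpoly ℝ X := by
    rw [hP]
    refine Finset.prod_dvd_of_coprime ?_ ?_
    · intro a _ b _ hab
      exact Polynomial.pairwise_coprime_X_sub_C (s := fun a : ℝ => a) Function.injective_id hab
    · intro a ha
      rw [hs, Finset.mem_image] at ha
      obtain ⟨μ, hμ, rfl⟩ := ha
      obtain ⟨v, hv0, hv⟩ := hre μ ((hmem μ).1 hμ)
      have h3 : X.HasEigenvalue μ.re :=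
        Module.End.hasEigenvalue_of_hasEigenvector ⟨Module.End.mem_eigenspace_iff.2 hv, hv0⟩
      exact Polynomial.dvd_iff_isRoot.2 (Module.End.isRoot_of_hasEigenvalue h3)
  refine ⟨s, hcard, ?_⟩
  exact Polynomial.eq_of_monic_of_associated (minpoly.monic (Algebra.IsIntegral.isIntegral X)) hPm
    (associated_of_dvd_dvd h1 h2)

end SEV
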