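import Pool.Agent.Lib.SE.V.Spec
import Pool.Agent.Lib.SE.U.uR

/-!
# MP_640417_ag: PROJECT SE-V, module vF: reducible minimal polynomial, a projection (helper92)
-/

set_option autoImplicit false

open Module

noncomputable section

namespace SEV

open HC HC.E HC.SE SEB SES SEU

namespace vF_aux

open Polynomial

variable {T : AV}

theorem rat_pol {X : Module.End ℝ T.V} (hr : RatEnd T X) (g : ℚ[X]) :
    RatEnd T (aeval X (g.map (algebraMap ℚ ℝ))) := by
  induction g using Polynomial.induction_on' with
  | add f g hf hg =>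
    rw [Polynomial.map_add, map_add]
    exact hf.add hg
  | monomial n a =>
    have hp : ∀ n : ℕ, RatEnd T (X ^ n) := by
      intro n
      induction n with
      | zero => exact RatEnd.one
      | succ n ih => rw [pow_succ]; exact ih.mul hr
    have h1 : aeval X ((monomial n a).map (algebraMap ℚ ℝ)) = (a : ℝ) • X ^ n := by
      rw [Polynomial.map_monomial, aeval_monomial, Algebra.smul_def]
      rfl
    rw [h1]
    exact (hp n).qsmul a

theorem cx_pol {X : Module.End ℝ T.V} (hC : Cx X) (g : ℝ[X]) : Cx (aeval X g) := by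
  induction g using Polynomial.induction_on' with
  | add f g hf hg =>
    intro v
    rw [map_add, LinearMap.add_apply, LinearMap.add_apply, hf, hg, smul_add]
  | monomial n a =>
    have hp : ∀ n : ℕ, ∀ v : T.V, (X ^ n) (Complex.I • v) = Complex.I • (X ^ n) v := by
      intro n
      induction n with
      | zero => intro v; rfl
      | succ n ih =>
        intro v
        rw [pow_succ, Module.End.mul_apply, Module.End.mul_apply, hC, ih]
    intro v
    rw [aeval_monomial, Module.End.mul_apply, Module.End.mul_apply, Module.algebraMap_end_apply,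
      Module.algebraMap_end_apply, hp, smul_comm]

end vF_aux

open Polynomial in
theorem tvF : S_vF := by
  intro T X hr hC hS s f hm hmon hf hirr
  have hint : IsIntegral ℝ X := Algebra.IsIntegral.isIntegral X
  have hm0 : aeval X (minpoly ℝ X) = 0 := minpoly.aeval ℝ X
  -- `f` is separable
  have hsep : f.Separable := by
    rw [← Polynomial.separable_map (algebraMap ℚ ℝ), ← hf, hm]
    exact Polynomial.separable_prod_X_sub_C_iff'.mpr (fun x _ y _ h => h)
  have hunit : ¬ IsUnit f := by
    intro hu
    have h1 : f = 1 := hmon.isUnit_iff.mp hu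
    rw [hf, h1, Polynomial.map_one, map_one] at hm0
    refine hS ⟨0, ?_⟩
    rw [zero_smul, ← mul_one X, hm0, mul_zero]
  rw [irreducible_iff] at hirr
  push Not at hirr
  obtain ⟨g, h, hgh, hg, hh⟩ := hirr hunit
  have hcop : IsCoprime g h := by
    rw [hgh] at hsep
    exact hsep.isCoprime
  obtain ⟨a, b, hab⟩ := hcop
  set φ : ℚ[X] →+* Module.End ℝ T.V :=
    (aeval X : ℝ[X] →ₐ[ℝ] Module.End ℝ T.V).toRingHom.comp (mapRingHom (algebraMap ℚ ℝ)) with hφ
  have hφa : ∀ p : ℚ[X], φ p = aeval X (p.map (algebraMap ℚ ℝ)) := fun p => rfl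
  have hφf : φ f = 0 := by rw [hφa, ← hf, hm0]
  -- a polynomial killed by `φ` is divisible by `f`
  have hdvd : ∀ p : ℚ[X], φ p = 0 → f ∣ p := by
    intro p hp
    rw [hφa] at hp
    have h1 : minpoly ℝ X ∣ p.map (algebraMap ℚ ℝ) := minpoly.dvd ℝ X hp
    rw [hf] at h1
    exact (Polynomial.map_dvd_map' (algebraMap ℚ ℝ)).mp h1
  have hf0 : f ≠ 0 := hmon.ne_zero
  have hg0 : g ≠ 0 := fun h0 => hf0 (by rw [hgh, h0, zero_mul])
  have hh0 : h ≠ 0 := fun h0 => hf0 (by rw [hgh, h0, mul_zero])
  have hsum : φ (a * g) + φ (b * h) = 1 := by rw [← map_add, hab, map_one]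
  have hprod : φ (a * g) * φ (b * h) = 0 := by
    rw [← map_mul, show a * g * (b * h) = a * b * f from by rw [hgh]; ring, map_mul, hφf, mul_zero]
  refine ⟨φ (a * g), vF_aux.rat_pol hr _, vF_aux.cx_pol hC _, ?_, ?_, ?_⟩
  · have h1 : φ (b * h) = 1 - φ (a * g) := by rw [← hsum]; abel
    rw [h1, mul_sub, mul_one] at hprod
    exact (sub_eq_zero.mp hprod).symm
  · intro h0
    have h1 : f ∣ a * g := hdvd _ h0
    have h2 : h ∣ a * g := (Dvd.intro_left g hgh.symm).trans h1
    have h3 : h ∣ 1 := by
      rw [← hab]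
      exact dvd_add h2 (Dvd.intro_left b rfl)
    exact hh (isUnit_of_dvd_one h3)
  · intro h0
    have h1 : φ (b * h) = 0 := by
      have h2 : φ (b * h) = 1 - φ (a * g) := by rw [← hsum]; abel
      rw [h2, h0, sub_self]
    have h2 : f ∣ b * h := hdvd _ h1
    have h3 : g ∣ b * h := (Dvd.intro h hgh.symm).trans h2
    have h4 : g ∣ 1 := by
      rw [← hab]
      exact dvd_add (Dvd.intro_left a rfl) h3
    exact hg (isUnit_of_dvd_one h4)

end SEV
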