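import Pool.Agent.Lib.SE.V.Spec
import Pool.Agent.Lib.SE.U.uS

/-!
# PROJECT SE-V, module vS: splitting by a rational projection (helper53)
-/

set_option autoImplicit false

open Module

noncomputable section

namespace SEV

open HC HC.E HC.SE SEB SES SEU

namespace vS_aux

variable {T : AV}

theorem split (P : T.V →ₗ[ℂ] T.V) (hPP : ∀ v, P (P v) = P v) (h0 : ∃ v, P v ≠ 0)
    (h1 : ∃ v, P v ≠ v) (hr : ∀ v ∈ T.L, ∃ N : ℕ, N ≠ 0 ∧ N • P v ∈ T.L) :
    ∃ T₁ T₂ : AV, 0 < finrank ℂ T₁.V ∧ 0 < finrank ℂ T₂.V ∧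
      finrank ℂ T₁.V + finrank ℂ T₂.V = finrank ℂ T.V ∧ IsProd T T₁ T₂ := by
  have hP : ∀ v, P v ∈ LinearMap.range P := fun v => ⟨v, rfl⟩
  have hPr : ∀ v ∈ LinearMap.range P, P v = v := by
    rintro _ ⟨v, rfl⟩
    exact hPP v
  have hk : ∀ v, v - P v ∈ LinearMap.ker P := by
    intro v
    rw [LinearMap.mem_ker, map_sub, hPP, sub_self]
  have hf1 : 0 < finrank ℂ (LinearMap.range P) := by
    obtain ⟨v, hv⟩ := h0
    rw [finrank_pos_iff_exists_ne_zero]
    exact ⟨⟨P v, v, rfl⟩, fun h => hv (congrArg Subtype.val h)⟩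
  have hf2 : 0 < finrank ℂ (LinearMap.ker P) := by
    obtain ⟨v, hv⟩ := h1
    rw [finrank_pos_iff_exists_ne_zero]
    exact ⟨⟨v - P v, hk v⟩, fun h => hv (sub_eq_zero.1 (congrArg Subtype.val h)).symm⟩
  have hf3 := LinearMap.finrank_range_add_finrank_ker P
  have hc : IsCompl (LinearMap.range P) (LinearMap.ker P) := by
    refine IsCompl.of_eq ?_ ?_
    · rw [eq_bot_iff]
      rintro v ⟨hv1, hv2⟩
      have h3 := hPr v hv1
      have h4 : P v = 0 := hv2
      rw [Submodule.mem_bot, ← h3, h4]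
    · rw [eq_top_iff]
      rintro v -
      have h3 : v = P v + (v - P v) := by abel
      rw [h3]
      exact Submodule.add_mem_sup (hP v) (hk v)
  obtain ⟨A, eA, hA⟩ := uS_aux.ex_sub (LinearMap.range P)
    (uS_aux.span_lat P _ hP hPr hr)
  have hr2 : ∀ v ∈ T.L, ∃ N : ℕ, N ≠ 0 ∧ N • ((LinearMap.id : T.V →ₗ[ℂ] T.V) - P) v ∈ T.L := by
    intro v hv
    obtain ⟨N, hN, h⟩ := hr v hv
    refine ⟨N, hN, ?_⟩
    rw [LinearMap.sub_apply, LinearMap.id_apply, smul_sub]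
    exact T.L.sub_mem (T.L.toAddSubgroup.nsmul_mem hv N) h
  obtain ⟨B, eB, hB⟩ := uS_aux.ex_sub (LinearMap.ker P)
    (uS_aux.span_lat ((LinearMap.id : T.V →ₗ[ℂ] T.V) - P) _ hk (by
      intro v hv
      have h4 : P v = 0 := hv
      rw [LinearMap.sub_apply, LinearMap.id_apply, h4, sub_zero]) hr2)
  refine ⟨A, B, by rw [eA.finrank_eq]; exact hf1, by rw [eB.finrank_eq]; exact hf2,
    by rw [eA.finrank_eq, eB.finrank_eq]; exact hf3,
    (Submodule.prodEquivOfIsCompl _ _ hc).symm.trans (LinearEquiv.prodCongr eA.symm eB.symm), ?_⟩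
  intro v hv
  obtain ⟨N, hN, h⟩ := hr v hv
  have hdec : (Submodule.prodEquivOfIsCompl _ _ hc).symm v = (⟨P v, hP v⟩, ⟨v - P v, hk v⟩) := by
    rw [LinearEquiv.symm_apply_eq, Submodule.coe_prodEquivOfIsCompl']
    exact (add_sub_cancel _ _).symm
  refine ⟨N, hN, ?_, ?_⟩
  · rw [hA, map_nsmul]
    change ((N • eA (eA.symm ((Submodule.prodEquivOfIsCompl _ _ hc).symm v).1) :
      LinearMap.range P) : T.V) ∈ T.L
    rw [hdec, LinearEquiv.apply_symm_apply]
    exact h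
  · rw [hB, map_nsmul]
    change ((N • eB (eB.symm ((Submodule.prodEquivOfIsCompl _ _ hc).symm v).2) :
      LinearMap.ker P) : T.V) ∈ T.L
    rw [hdec, LinearEquiv.apply_symm_apply]
    change N • (v - P v) ∈ T.L
    rw [smul_sub]
    exact T.L.sub_mem (T.L.toAddSubgroup.nsmul_mem hv N) h

end vS_aux

/-- **S_vS**: splitting. -/
theorem tvS : S_vS := by
  rintro T ⟨P, hPr, hPc, hPP, hP0, hP1⟩
  obtain ⟨Q, hQ⟩ := uS_aux.cx_lin P hPc
  refine vS_aux.split Q ?_ ?_ ?_ ?_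
  · intro v
    rw [hQ, hQ]
    exact congrArg (fun f : Module.End ℝ T.V => f v) hPP
  · by_contra hcon
    push Not at hcon
    refine hP0 (LinearMap.ext fun v => ?_)
    rw [← hQ, hcon]
    rfl
  · by_contra hcon
    push Not at hcon
    refine hP1 (LinearMap.ext fun v => ?_)
    rw [← hQ, hcon]
    rfl
  · intro v hv
    obtain ⟨N, hN, h⟩ := hPr v hv
    exact ⟨N, hN, by rw [hQ]; exact h⟩

end SEV
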