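import Pool.Agent.Lib.SE.V.vP

/-!
# PROJECT SE-V, module vA: dimension 6, a degenerate element gives an element of rank one
-/

set_option autoImplicit false

open Module

noncomputable section

namespace SEV

open HC HC.E HC.SE SEB SES SEU

namespace vA_aux

open SEU.uP_aux vP_aux

variable {V : Type} [AddCommGroup V] [Module ℂ V]

/-- degree one -/
def gp (g : Submodule ℂ (Module.End ℂ V)) (J : Module.End ℂ V) :
    Submodule ℂ (Module.End ℂ V) where
  carrier := {A | A ∈ g ∧ (∀ v, A v ∈ Wp J) ∧ ∀ v ∈ Wp J, A v = 0}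
  add_mem' := by
    rintro A B ⟨h1, h2, h3⟩ ⟨h1', h2', h3'⟩
    refine ⟨g.add_mem h1 h1', fun v => (Wp J).add_mem (h2 v) (h2' v), fun v hv => ?_⟩
    rw [LinearMap.add_apply, h3 v hv, h3' v hv, add_zero]
  zero_mem' := ⟨g.zero_mem, fun v => (Wp J).zero_mem, fun v _ => rfl⟩
  smul_mem' := by
    rintro c A ⟨h1, h2, h3⟩
    refine ⟨g.smul_mem _ h1, fun v => (Wp J).smul_mem _ (h2 v), fun v hv => ?_⟩
    rw [LinearMap.smul_apply, h3 v hv, smul_zero]

/-- degree minus one -/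
def gm (g : Submodule ℂ (Module.End ℂ V)) (J : Module.End ℂ V) :
    Submodule ℂ (Module.End ℂ V) where
  carrier := {A | A ∈ g ∧ (∀ v, A v ∈ Wm J) ∧ ∀ v ∈ Wm J, A v = 0}
  add_mem' := by
    rintro A B ⟨h1, h2, h3⟩ ⟨h1', h2', h3'⟩
    refine ⟨g.add_mem h1 h1', fun v => (Wm J).add_mem (h2 v) (h2' v), fun v hv => ?_⟩
    rw [LinearMap.add_apply, h3 v hv, h3' v hv, add_zero]
  zero_mem' := ⟨g.zero_mem, fun v => (Wm J).zero_mem, fun v _ => rfl⟩
  smul_mem' := by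
    rintro c A ⟨h1, h2, h3⟩
    refine ⟨g.smul_mem _ h1, fun v => (Wm J).smul_mem _ (h2 v), fun v hv => ?_⟩
    rw [LinearMap.smul_apply, h3 v hv, smul_zero]

variable {g : Submodule ℂ (Module.End ℂ V)} {ω : V →ₗ[ℂ] V →ₗ[ℂ] ℂ} {J : Module.End ℂ V}
  {σ : V →ₛₗ[starRingEnd ℂ] V}

theorem trip (hl : Clo g) {X Y Z : Module.End ℂ V} (hX : X ∈ gp g J) (hY : Y ∈ gp g J)
    (hZ : Z ∈ g) : X * Z * Y + Y * Z * X ∈ gp g J := by
  have hXY : X * Y = 0 := LinearMap.ext fun v => hX.2.2 _ (hY.2.1 v)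
  have hYX : Y * X = 0 := LinearMap.ext fun v => hY.2.2 _ (hX.2.1 v)
  refine ⟨?_, ?_, ?_⟩
  · have h : X * Z * Y + Y * Z * X =
        ((X * Z - Z * X) * Y - Y * (X * Z - Z * X)) + Z * (X * Y) + (Y * X) * Z := by
      noncomm_ring
    rw [h, hXY, hYX, mul_zero, zero_mul, add_zero, add_zero]
    exact hl _ (hl _ hX.1 _ hZ) _ hY.1
  · intro v
    exact (Wp J).add_mem (hX.2.1 _) (hY.2.1 _)
  · intro v hv
    rw [LinearMap.add_apply, Module.End.mul_apply, Module.End.mul_apply, Module.End.mul_apply,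
      Module.End.mul_apply, hX.2.2 v hv, hY.2.2 v hv, map_zero, map_zero, map_zero, add_zero]

theorem zp {X0 : Module.End ℂ V} (h0 : ∀ v, J (X0 v) = X0 (J v)) {v : V} (hv : v ∈ Wp J) :
    X0 v ∈ Wp J := by
  rw [mem_Wp] at hv ⊢
  rw [h0, hv, map_smul]

theorem zm {X0 : Module.End ℂ V} (h0 : ∀ v, J (X0 v) = X0 (J v)) {v : V} (hv : v ∈ Wm J) :
    X0 v ∈ Wm J := by
  rw [mem_Wm] at hv ⊢
  rw [h0, hv, map_neg, map_smul]

theorem br0p (hl : Clo g) {X0 X : Module.End ℂ V} (hX0 : X0 ∈ g)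
    (h0 : ∀ v, J (X0 v) = X0 (J v)) (hX : X ∈ gp g J) : X0 * X - X * X0 ∈ gp g J := by
  refine ⟨hl _ hX0 _ hX.1, ?_, ?_⟩
  · intro v
    exact (Wp J).sub_mem (zp h0 (hX.2.1 v)) (hX.2.1 _)
  · intro v hv
    rw [LinearMap.sub_apply, Module.End.mul_apply, Module.End.mul_apply, hX.2.2 v hv, map_zero,
      hX.2.2 _ (zp h0 hv), sub_zero]

theorem br0m (hl : Clo g) {X0 X : Module.End ℂ V} (hX0 : X0 ∈ g)
    (h0 : ∀ v, J (X0 v) = X0 (J v)) (hX : X ∈ gm g J) : X0 * X - X * X0 ∈ gm g J := by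
  refine ⟨hl _ hX0 _ hX.1, ?_, ?_⟩
  · intro v
    exact (Wm J).sub_mem (zm h0 (hX.2.1 v)) (hX.2.1 _)
  · intro v hv
    rw [LinearMap.sub_apply, Module.End.mul_apply, Module.End.mul_apply, hX.2.2 v hv, map_zero,
      hX.2.2 _ (zm h0 hv), sub_zero]

theorem brpm (hl : Clo g) (hJ : J * J = -1) {X Y : Module.End ℂ V} (hX : X ∈ gp g J)
    (hY : Y ∈ gm g J) : X * Y - Y * X ∈ g ∧ ∀ v, J ((X * Y - Y * X) v) = (X * Y - Y * X) (J v) := by
  refine ⟨hl _ hX.1 _ hY.1, ?_⟩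
  intro v
  obtain ⟨p, hp, m, hm, rfl⟩ := dec hJ v
  have e1 := mem_Wp.mp hp
  have e2 := mem_Wm.mp hm
  have e3 := mem_Wp.mp (hX.2.1 (Y p))
  have e4 := mem_Wm.mp (hY.2.1 (X m))
  simp only [LinearMap.sub_apply, Module.End.mul_apply, map_add, map_sub, e1, e2, map_neg,
    map_smul, hX.2.2 p hp, hY.2.2 m hm, map_zero, e3, e4]
  module

theorem sWp (H : Cfg g ω J σ) {v : V} (hv : v ∈ Wp J) : σ v ∈ Wm J := by
  rw [mem_Wp] at hv
  rw [mem_Wm, ← H.sJ, hv, map_smulₛₗ, Complex.conj_I, neg_smul]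

theorem sWm (H : Cfg g ω J σ) {v : V} (hv : v ∈ Wm J) : σ v ∈ Wp J := by
  rw [mem_Wm] at hv
  rw [mem_Wp, ← H.sJ, hv, map_neg, map_smulₛₗ, Complex.conj_I, neg_smul, neg_neg]

theorem cjp (H : Cfg g ω J σ) {X : Module.End ℂ V} (hX : X ∈ gp g J) :
    ∃ X' ∈ gm g J, ∀ v, X' v = σ (X (σ v)) := by
  obtain ⟨X', hX', h⟩ := H.sg X hX.1
  have h' : ∀ v, X' v = σ (X (σ v)) := by
    intro v
    have := h (σ v)
    rwa [H.ss] at this
  refine ⟨X', ⟨hX', ?_, ?_⟩, h'⟩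
  · intro v
    rw [h']
    exact sWp H (hX.2.1 _)
  · intro v hv
    rw [h', hX.2.2 _ (sWm H hv), map_zero]

theorem cjm (H : Cfg g ω J σ) {X : Module.End ℂ V} (hX : X ∈ gm g J) :
    ∃ X' ∈ gp g J, ∀ v, X' v = σ (X (σ v)) := by
  obtain ⟨X', hX', h⟩ := H.sg X hX.1
  have h' : ∀ v, X' v = σ (X (σ v)) := by
    intro v
    have := h (σ v)
    rwa [H.ss] at this
  refine ⟨X', ⟨hX', ?_, ?_⟩, h'⟩
  · intro v
    rw [h']
    exact sWm H (hX.2.1 _)
  · intro v hv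
    rw [h', hX.2.2 _ (sWp H hv), map_zero]

theorem comp' (H : Cfg g ω J σ) {X : Module.End ℂ V} (hX : X ∈ g) :
    ∃ X0 ∈ g, ∃ XP ∈ gp g J, ∃ XM ∈ gm g J, X = X0 + XP + XM ∧ ∀ v, J (X0 v) = X0 (J v) := by
  obtain ⟨X0, hX0, XP, hXP, XM, hXM, hsum, h0, hp1, hp2, hm1, hm2⟩ :=
    comp g J H.lie H.mJ H.JJ X hX
  exact ⟨X0, hX0, XP, ⟨hXP, hp1, hp2⟩, XM, ⟨hXM, hm1, hm2⟩, hsum, h0⟩

/-- kernel of dimension two on `W⁻` -/
theorem rkle [FiniteDimensional ℂ V] (hJ : J * J = -1) (hfr : finrank ℂ (Wm J) = 3)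
    {A : Module.End ℂ V} (hA : ∀ v ∈ Wp J, A v = 0) {a b : V} (ha : a ∈ Wm J) (hb : b ∈ Wm J)
    (hAa : A a = 0) (hAb : A b = 0) (ha0 : a ≠ 0) (hab : ∀ c : ℂ, b ≠ c • a) :
    ∃ x, ∀ v, ∃ c : ℂ, A v = c • x := by
  let f : Wm J →ₗ[ℂ] V := A.domRestrict (Wm J)
  have h1 := LinearMap.finrank_range_add_finrank_ker f
  rw [hfr] at h1
  have h2 : 2 ≤ finrank ℂ (LinearMap.ker f) := by
    let a' : LinearMap.ker f := ⟨⟨a, ha⟩, hAa⟩
    let b' : LinearMap.ker f := ⟨⟨b, hb⟩, hAb⟩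
    have hli : LinearIndependent ℂ ![a', b'] := by
      rw [LinearIndependent.pair_iff' (by
        intro h
        exact ha0 (congrArg (fun z : LinearMap.ker f => ((z : Wm J) : V)) h))]
      intro c hc
      exact hab c (congrArg (fun z : LinearMap.ker f => ((z : Wm J) : V)) hc).symm
    have := hli.fintype_card_le_finrank
    rwa [Fintype.card_fin] at this
  have h3 : finrank ℂ (LinearMap.range f) ≤ 1 := by omega
  obtain ⟨x, hx⟩ := finrank_le_one_iff.mp h3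
  refine ⟨x, ?_⟩
  intro v
  obtain ⟨p, hp, m, hm, rfl⟩ := dec hJ v
  obtain ⟨c, hc⟩ := hx ⟨A m, ⟨⟨m, hm⟩, rfl⟩⟩
  refine ⟨c, ?_⟩
  rw [map_add, hA p hp, zero_add]
  exact (congrArg Subtype.val hc).symm

/-- the data of the proof -/
structure Ctx (g : Submodule ℂ (Module.End ℂ V)) (ω : V →ₗ[ℂ] V →ₗ[ℂ] ℂ) (J : Module.End ℂ V)
    (σ : V →ₛₗ[starRingEnd ℂ] V) (e eb : Module.End ℂ V) (k : V) (a : ℂ) : Prop where
  H : Cfg g ω J σ
  N1 : ∀ A ∈ gp g J, (∃ x, ∀ v, ∃ c : ℂ, A v = c • x) → A = 0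
  N2 : ∀ A ∈ gp g J, ∀ p ∈ Wm J, ∀ q ∈ Wm J, A p = 0 → A q = 0 → p ≠ 0 → (∀ c : ℂ, q ≠ c • p) →
    A = 0
  he : e ∈ gp g J
  hb : eb ∈ gm g J
  hc : ∀ v, eb v = σ (e (σ v))
  k0 : k ≠ 0
  km : k ∈ Wm J
  ek : e k = 0
  e0 : e ≠ 0
  a0 : a ≠ 0
  kk : ∀ v ∈ Wm J, e v = 0 → ∃ c : ℂ, v = c • k
  ff : ∀ v ∈ Wp J, eb v = 0 → ∃ c : ℂ, v = c • σ k
  fk : ω (σ k) k ≠ 0
  ek' : ∀ v, ω (e v) k = 0
  inj : ∀ u, e (eb u) = 0 → eb u = 0
  ee : ∀ v, e (eb (e v)) = a • e v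
  bb : ∀ v, eb (e (eb v)) = a • eb v

theorem mkCtx [FiniteDimensional ℂ V] (H : Cfg g ω J σ)
    (N1 : ∀ A ∈ gp g J, (∃ x, ∀ v, ∃ c : ℂ, A v = c • x) → A = 0)
    (N2 : ∀ A ∈ gp g J, ∀ p ∈ Wm J, ∀ q ∈ Wm J, A p = 0 → A q = 0 → p ≠ 0 →
      (∀ c : ℂ, q ≠ c • p) → A = 0)
    {e : Module.End ℂ V} (he : e ∈ gp g J) (e0 : e ≠ 0) {k : V} (k0 : k ≠ 0) (km : k ∈ Wm J)
    (ek : e k = 0) : ∃ eb a, Ctx g ω J σ e eb k a := by
  obtain ⟨eb, hb, hc⟩ := cjp H he
  have kk : ∀ v ∈ Wm J, e v = 0 → ∃ c : ℂ, v = c • k := by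
    intro v hv hev
    by_contra hcon
    push Not at hcon
    exact e0 (N2 e he k km v hv ek hev k0 hcon)
  have sinj : ∀ v, σ v = 0 → v = 0 := by
    intro v hv
    rw [← H.ss v, hv, map_zero]
  have ff : ∀ v ∈ Wp J, eb v = 0 → ∃ c : ℂ, v = c • σ k := by
    intro v hv hev
    rw [hc] at hev
    obtain ⟨c, hcv⟩ := kk (σ v) (sWp H hv) (sinj _ hev)
    refine ⟨(starRingEnd ℂ) c, ?_⟩
    rw [← H.ss v, hcv, map_smulₛₗ]
  have fk : ω (σ k) k ≠ 0 := by
    have h := H.pos (σ k) (fun h => k0 (sinj _ h)) (mem_Wp.mp (sWm H km))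
    rwa [H.ss] at h
  have ek' : ∀ v, ω (e v) k = 0 := by
    intro v
    have h := H.skw e he.1 v k
    rwa [ek, map_zero, add_zero] at h
  have bf : ∀ v, ω (eb v) (σ k) = 0 := by
    intro v
    have h := H.skw eb hb.1 v (σ k)
    rwa [hc (σ k), H.ss, ek, map_zero, map_zero, add_zero] at h
  have inj : ∀ u, e (eb u) = 0 → eb u = 0 := by
    intro u hu
    obtain ⟨c, hcu⟩ := kk (eb u) (hb.2.1 u) hu
    have h := bf u
    rw [hcu, map_smul, LinearMap.smul_apply, smul_eq_mul, om_swap H.smp] at h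
    rcases mul_eq_zero.mp h with h | h
    · rw [hcu, h, zero_smul]
    · exact absurd (neg_eq_zero.mp h) fk
  obtain ⟨u, a, hu0, hu⟩ : ∃ u, ∃ a : ℂ, e u ≠ 0 ∧ e (eb (e u)) = a • e u := by
    let R := LinearMap.range e
    let T : Module.End ℂ R := LinearMap.restrict (e * eb) (fun x _ => ⟨eb x, rfl⟩)
    have : Nontrivial R := by
      obtain ⟨v, hv⟩ : ∃ v, e v ≠ 0 := by
        by_contra hcon
        push Not at hcon
        exact e0 (LinearMap.ext hcon)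
      exact ⟨⟨⟨e v, v, rfl⟩, 0, fun h => hv (congrArg Subtype.val h)⟩⟩
    obtain ⟨a, ht⟩ := Module.End.exists_eigenvalue T
    obtain ⟨r, hr⟩ := ht.exists_hasEigenvector
    obtain ⟨u, hu⟩ := r.2
    refine ⟨u, a, ?_, ?_⟩
    · rw [hu]
      exact fun h => hr.2 (Subtype.ext h)
    · have h1 : T r = a • r := hr.apply_eq_smul
      have h2 : e (eb (r : V)) = a • (r : V) := congrArg Subtype.val h1
      rw [hu]
      exact h2
  have a0 : a ≠ 0 := by
    intro ha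
    rw [ha, zero_smul] at hu
    obtain ⟨c, hcu⟩ := ff (e u) (he.2.1 u) (inj _ hu)
    have h := ek' u
    rw [hcu, map_smul, LinearMap.smul_apply, smul_eq_mul] at h
    rcases mul_eq_zero.mp h with h | h
    · exact hu0 (by rw [hcu, h, zero_smul])
    · exact fk h
  have ee : ∀ v, e (eb (e v)) = a • e v := by
    have hA : (1 / 2 : ℂ) • (e * eb * e + e * eb * e) - a • e ∈ gp g J :=
      (gp g J).sub_mem ((gp g J).smul_mem _ (trip H.lie he he hb.1)) ((gp g J).smul_mem _ he)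
    have hAv : ∀ v, ((1 / 2 : ℂ) • (e * eb * e + e * eb * e) - a • e) v =
        e (eb (e v)) - a • e v := by
      intro v
      simp only [LinearMap.sub_apply, LinearMap.smul_apply, LinearMap.add_apply,
        Module.End.mul_apply]
      module
    obtain ⟨p, hp, m, hm, hpm⟩ := dec H.JJ u
    have heu : e u = e m := by rw [hpm, map_add, he.2.2 p hp, zero_add]
    rw [heu] at hu hu0
    have h0 := N2 _ hA m hm k km (by rw [hAv, hu, sub_self])
      (by rw [hAv, ek, map_zero, map_zero, smul_zero, sub_zero])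
      (fun h => hu0 (by rw [h, map_zero])) (by
        intro c hkc
        rw [hkc, map_smul] at ek
        rcases smul_eq_zero.mp ek with h | h
        · exact k0 (by rw [hkc, h, zero_smul])
        · exact hu0 h)
    intro v
    rw [← sub_eq_zero, ← hAv, h0, LinearMap.zero_apply]
  have bb : ∀ v, eb (e (eb v)) = a • eb v := by
    intro v
    have h := inj (e (eb v) - a • v) (by
      rw [map_sub, map_sub, map_smul, map_smul, ee, sub_self])
    rw [map_sub, map_smul, sub_eq_zero] at h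
    exact h
  exact ⟨eb, a, H, N1, N2, he, hb, hc, k0, km, ek, e0, a0, kk, ff, fk, ek', inj, ee, bb⟩

variable {e eb : Module.End ℂ V} {k : V} {a : ℂ}

theorem y11 (c : Ctx g ω J σ e eb k a) {X : Module.End ℂ V} (hX : X ∈ gp g J) :
    ∃ T ∈ gp g J, ∃ Y ∈ gp g J, (∀ v, T v = e (eb (X v)) + X (eb (e v))) ∧
      ∀ v, Y v = e (eb (X (eb (e v)))) := by
  have h1 := trip c.H.lie c.he hX c.hb.1
  have h2 := trip c.H.lie c.he h1 c.hb.1
  refine ⟨_, h1, _, (gp g J).smul_mem (1 / 2 : ℂ) ((gp g J).sub_mem h2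
    ((gp g J).smul_mem a h1)), fun v => rfl, ?_⟩
  intro v
  simp only [LinearMap.sub_apply, LinearMap.smul_apply, LinearMap.add_apply,
    Module.End.mul_apply, map_add, c.ee, map_smul]
  module

theorem two (c : Ctx g ω J σ e eb k a) {X : Module.End ℂ V} (hX : X ∈ gp g J) (v : V) :
    X v = a⁻¹ • (e (eb (X v)) + X (eb (e v))) - a⁻¹ ^ 2 • e (eb (X (eb (e v)))) := by
  obtain ⟨T, hT, Y, hY, hTv, hYv⟩ := y11 c hX
  have h0 : X - a⁻¹ • T + a⁻¹ ^ 2 • Y = 0 := by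
    refine c.N1 _ ((gp g J).add_mem ((gp g J).sub_mem hX ((gp g J).smul_mem _ hT))
      ((gp g J).smul_mem _ hY)) ⟨σ k, ?_⟩
    intro u
    refine c.ff _ ?_ ?_
    · exact ((gp g J).add_mem ((gp g J).sub_mem hX ((gp g J).smul_mem _ hT))
        ((gp g J).smul_mem _ hY)).2.1 u
    · simp only [LinearMap.sub_apply, LinearMap.smul_apply, LinearMap.add_apply, hTv, hYv,
        map_add, map_sub, map_smul, c.bb, smul_add, smul_smul]
      have e1 : a⁻¹ * a = 1 := inv_mul_cancel₀ c.a0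
      have e2 : a⁻¹ ^ 2 * a = a⁻¹ := by rw [pow_two, mul_assoc, e1, mul_one]
      rw [e1, e2]
      module
  have h1 := LinearMap.congr_fun h0 v
  rw [LinearMap.add_apply, LinearMap.sub_apply, LinearMap.smul_apply, LinearMap.smul_apply, hTv,
    hYv, LinearMap.zero_apply] at h1
  linear_combination (norm := module) h1

/-- not everything is of the first kind -/
theorem three (c : Ctx g ω J σ e eb k a) : ∃ X ∈ gp g J, ∃ v, X v ∉ LinearMap.range e := by
  by_contra hcon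
  push Not at hcon
  have hm : ∀ Y ∈ gm g J, ∀ v, Y v ∈ LinearMap.range eb := by
    intro Y hY v
    obtain ⟨Y', hY', hv⟩ := cjm c.H hY
    obtain ⟨u, hu⟩ := hcon Y' hY' (σ v)
    refine ⟨σ u, ?_⟩
    rw [c.hc, c.H.ss, hu, hv, c.H.ss, c.H.ss]
  have hR : LinearMap.range e ≤ LinearMap.range e ⊔ LinearMap.range eb := le_sup_left
  have hRb : LinearMap.range eb ≤ LinearMap.range e ⊔ LinearMap.range eb := le_sup_right
  have hst : ∀ X ∈ g, ∀ u ∈ LinearMap.range e ⊔ LinearMap.range eb,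
      X u ∈ LinearMap.range e ⊔ LinearMap.range eb := by
    intro X hX
    obtain ⟨X0, hX0, XP, hXP, XM, hXM, hsum, h0⟩ := comp' c.H hX
    have hle : LinearMap.range e ⊔ LinearMap.range eb ≤
        (LinearMap.range e ⊔ LinearMap.range eb).comap X := by
      rw [sup_le_iff]
      constructor
      · rintro _ ⟨u, rfl⟩
        rw [Submodule.mem_comap, hsum, LinearMap.add_apply, LinearMap.add_apply,
          hXP.2.2 _ (c.he.2.1 u), add_zero]
        refine Submodule.add_mem _ (hR ?_) (hRb (hm XM hXM _))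
        have h1 : X0 (e u) = (X0 * e - e * X0) u + e (X0 u) := by
          rw [LinearMap.sub_apply, Module.End.mul_apply, Module.End.mul_apply]
          abel
        rw [h1]
        exact Submodule.add_mem _ (hcon _ (br0p c.H.lie hX0 h0 c.he) u) ⟨X0 u, rfl⟩
      · rintro _ ⟨u, rfl⟩
        rw [Submodule.mem_comap, hsum, LinearMap.add_apply, LinearMap.add_apply,
          hXM.2.2 _ (c.hb.2.1 u), add_zero]
        refine Submodule.add_mem _ (hRb ?_) (hR (hcon XP hXP _))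
        have h1 : X0 (eb u) = (X0 * eb - eb * X0) u + eb (X0 u) := by
          rw [LinearMap.sub_apply, Module.End.mul_apply, Module.End.mul_apply]
          abel
        rw [h1]
        exact Submodule.add_mem _ (hm _ (br0m c.H.lie hX0 h0 c.hb) u) ⟨X0 u, rfl⟩
    exact fun u hu => hle hu
  rcases c.H.irr _ hst with h | h
  · apply c.e0
    apply LinearMap.ext
    intro v
    have h1 : e v ∈ LinearMap.range e ⊔ LinearMap.range eb := hR ⟨v, rfl⟩
    rw [h, Submodule.mem_bot] at h1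
    rw [h1, LinearMap.zero_apply]
  · have h1 : σ k ∈ LinearMap.range e ⊔ LinearMap.range eb := by
      rw [h]
      trivial
    obtain ⟨_, ⟨u, rfl⟩, _, ⟨v, rfl⟩, huv⟩ := Submodule.mem_sup.mp h1
    apply c.fk
    rw [← huv, map_add, LinearMap.add_apply, c.ek', zero_add]
    exact om_mm (c.H.skw J c.H.mJ) (c.hb.2.1 v) c.km

/-- second kind -/
def S2 (g : Submodule ℂ (Module.End ℂ V)) (J e eb X : Module.End ℂ V) : Prop :=
  X ∈ gp g J ∧ ∀ v, e (eb (X (eb (e v)))) = 0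

theorem f1 (c : Ctx g ω J σ e eb k a) {X : Module.End ℂ V} (hX : S2 g J e eb X) (v : V) :
    X v = a⁻¹ • (e (eb (X v)) + X (eb (e v))) := by
  have h := two c hX.1 v
  rwa [hX.2, smul_zero, sub_zero] at h

theorem f2 (c : Ctx g ω J σ e eb k a) {X : Module.End ℂ V} (hX : S2 g J e eb X) (u : V) :
    eb (X (eb u)) = 0 := by
  apply c.inj
  have h := f1 c hX (eb u)
  rw [c.bb, map_smul, smul_add, smul_smul, inv_mul_cancel₀ c.a0, one_smul] at h
  have h1 : a⁻¹ • e (eb (X (eb u))) = 0 := by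
    linear_combination (norm := module) -h
  exact (smul_eq_zero.mp h1).resolve_left (inv_ne_zero c.a0)

theorem f3 (c : Ctx g ω J σ e eb k a) {X : Module.End ℂ V} (hX : S2 g J e eb X) (u : V) :
    ∃ t : ℂ, X (eb u) = t • σ k := c.ff _ (hX.1.2.1 _) (f2 c hX u)

theorem f4 (c : Ctx g ω J σ e eb k a) {X : Module.End ℂ V} (hX : S2 g J e eb X) (u : V)
    (h : ω (eb u) (X k) = 0) : X (eb u) = 0 := by
  obtain ⟨t, ht⟩ := f3 c hX u
  have h1 := c.H.skw X hX.1.1 (eb u) k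
  rw [h, add_zero, ht, map_smul, LinearMap.smul_apply, smul_eq_mul] at h1
  rw [ht, (mul_eq_zero.mp h1).resolve_right c.fk, zero_smul]

theorem f5 (c : Ctx g ω J σ e eb k a) {X : Module.End ℂ V} (hX : S2 g J e eb X) :
    e (eb (X k)) = a • X k := by
  have h := f1 c hX k
  rw [c.ek, map_zero, map_zero, add_zero] at h
  rw [h, smul_smul, mul_inv_cancel₀ c.a0, one_smul, ← h]

theorem exu (c : Ctx g ω J σ e eb k a) : ∃ u, eb u ≠ 0 := by
  by_contra hcon
  push Not at hcon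
  apply c.e0
  apply LinearMap.ext
  intro v
  have h := c.ee v
  rw [hcon, map_zero] at h
  rw [LinearMap.zero_apply]
  exact (smul_eq_zero.mp h.symm).resolve_left c.a0

theorem kne (c : Ctx g ω J σ e eb k a) {p : V} (hp : e p ≠ 0) (t : ℂ) : k ≠ t • p := by
  intro h
  have h1 := c.ek
  rw [h, map_smul] at h1
  rcases smul_eq_zero.mp h1 with h2 | h2
  · exact c.k0 (by rw [h, h2, zero_smul])
  · exact hp h2

theorem f6 (c : Ctx g ω J σ e eb k a) {X : Module.End ℂ V} (hX : S2 g J e eb X)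
    (h : X k = 0) : X = 0 := by
  obtain ⟨u, hu⟩ := exu c
  exact c.N2 X hX.1 (eb u) (c.hb.2.1 u) k c.km (f4 c hX u (by rw [h, map_zero])) h hu
    (kne c (fun h => hu (c.inj u h)))

theorem f7 (c : Ctx g ω J σ e eb k a) {X Y : Module.End ℂ V} (hX : S2 g J e eb X)
    (hY : S2 g J e eb Y) : ω (eb (Y k)) (X k) = 0 := by
  have h0 : X * eb * Y + Y * eb * X = 0 := by
    refine c.N1 _ (trip c.H.lie hX.1 hY.1 c.hb.1) ⟨σ k, ?_⟩
    intro v
    obtain ⟨s, hs⟩ := f3 c hX (Y v)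
    obtain ⟨t, ht⟩ := f3 c hY (X v)
    refine ⟨s + t, ?_⟩
    rw [LinearMap.add_apply, Module.End.mul_apply, Module.End.mul_apply, Module.End.mul_apply,
      Module.End.mul_apply, hs, ht, add_smul]
  have h1 : X (eb (Y k)) + Y (eb (X k)) = 0 := LinearMap.congr_fun h0 k
  have h2 := congrArg (fun z => ω z k) h1
  simp only [map_add, LinearMap.add_apply, map_zero, LinearMap.zero_apply] at h2
  have h3 := c.H.skw X hX.1.1 (eb (Y k)) k
  have h4 := c.H.skw Y hY.1.1 (eb (X k)) k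
  have h5 := c.H.skw eb c.hb.1 (X k) (Y k)
  rw [om_swap c.H.smp (X k) (eb (Y k))] at h5
  have h6 : (2 : ℂ) * ω (eb (Y k)) (X k) = 0 := by
    linear_combination h3 + h4 - h2 - h5
  exact (mul_eq_zero.mp h6).resolve_left two_ne_zero

theorem f8 (c : Ctx g ω J σ e eb k a) {X Y : Module.End ℂ V} (hX : S2 g J e eb X)
    (hY : S2 g J e eb Y) : X (eb (Y k)) = 0 := f4 c hX _ (f7 c hX hY)

theorem f9 (c : Ctx g ω J σ e eb k a) {X Y : Module.End ℂ V} (hX : S2 g J e eb X)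
    (hX0 : X ≠ 0) (hY : S2 g J e eb Y) : ∃ t : ℂ, Y = t • X := by
  have hB : X k ≠ 0 := fun h => hX0 (f6 c hX h)
  by_contra hcon
  push Not at hcon
  have h1 : ∀ t : ℂ, Y k ≠ t • X k := by
    intro t ht
    apply hcon t
    rw [← sub_eq_zero]
    refine f6 c ⟨(gp g J).sub_mem hY.1 ((gp g J).smul_mem _ hX.1), ?_⟩ ?_
    · intro v
      rw [LinearMap.sub_apply, LinearMap.smul_apply, map_sub, map_sub, map_smul, map_smul, hX.2,
        hY.2, smul_zero, sub_zero]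
    · rw [LinearMap.sub_apply, LinearMap.smul_apply, ht, sub_self]
  apply hX0
  refine c.N2 X hX.1 (eb (X k)) (c.hb.2.1 _) (eb (Y k)) (c.hb.2.1 _) (f8 c hX hX) (f8 c hX hY)
    ?_ ?_
  · intro h
    have h2 := f5 c hX
    rw [h, map_zero] at h2
    exact hB ((smul_eq_zero.mp h2.symm).resolve_left c.a0)
  · intro t ht
    apply h1 t
    have h2 := congrArg e ht
    rw [map_smul, f5 c hX, f5 c hY, smul_comm] at h2
    have h3 := congrArg (fun z => a⁻¹ • z) h2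
    simp only [smul_smul, inv_mul_cancel₀ c.a0, one_smul] at h3
    rw [h3]
    have h4 : a⁻¹ * (a * t) = t := by rw [← mul_assoc, inv_mul_cancel₀ c.a0, one_mul]
    rw [h4]

theorem first [FiniteDimensional ℂ V] (c : Ctx g ω J σ e eb k a) {A : Module.End ℂ V} (hA : A ∈ gp g J)
    (h : ∀ v, A v = a⁻¹ ^ 2 • e (eb (A (eb (e v))))) : ∃ t : ℂ, A = t • e := by
  have hr : ∀ v, A v ∈ LinearMap.range e := by
    intro v
    rw [h v]
    exact Submodule.smul_mem _ _ ⟨_, rfl⟩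
  let T : Module.End ℂ (LinearMap.range e) :=
    LinearMap.restrict (A * eb) (fun x _ => hr (eb x))
  have : Nontrivial (LinearMap.range e) := by
    obtain ⟨v, hv⟩ : ∃ v, e v ≠ 0 := by
      by_contra hcon
      push Not at hcon
      exact c.e0 (LinearMap.ext hcon)
    exact ⟨⟨⟨e v, v, rfl⟩, 0, fun h => hv (congrArg Subtype.val h)⟩⟩
  obtain ⟨m, ht⟩ := Module.End.exists_eigenvalue T
  obtain ⟨r, hr'⟩ := ht.exists_hasEigenvector
  obtain ⟨u, hu⟩ := r.2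
  have h1 : T r = m • r := hr'.apply_eq_smul
  have h2 : A (eb (r : V)) = m • (r : V) := congrArg Subtype.val h1
  rw [← hu] at h2
  have hu0 : e u ≠ 0 := by
    rw [hu]
    exact fun h => hr'.2 (Subtype.ext h)
  have hep : e (eb (e u)) = a • e u := c.ee u
  refine ⟨m * a⁻¹, ?_⟩
  rw [← sub_eq_zero]
  have hAk : A k = 0 := by
    rw [h k, c.ek, map_zero, map_zero, map_zero, map_zero, smul_zero]
  have hne : e (eb (e u)) ≠ 0 := by
    rw [hep]
    exact smul_ne_zero c.a0 hu0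
  refine c.N2 _ ((gp g J).sub_mem hA ((gp g J).smul_mem _ c.he)) (eb (e u)) (c.hb.2.1 _) k c.km
    ?_ ?_ (fun h => hne (by rw [h, map_zero])) (kne c hne)
  · rw [LinearMap.sub_apply, LinearMap.smul_apply, h2, hep, smul_smul, mul_assoc,
      inv_mul_cancel₀ c.a0, mul_one, sub_self]
  · rw [LinearMap.sub_apply, LinearMap.smul_apply, hAk, c.ek, smul_zero, sub_zero]

theorem split [FiniteDimensional ℂ V] (c : Ctx g ω J σ e eb k a) {Y : Module.End ℂ V} (hY : Y ∈ gp g J) :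
    ∃ A ∈ gp g J, (∀ v, A v = a⁻¹ ^ 2 • e (eb (Y (eb (e v))))) ∧ (∃ t : ℂ, A = t • e) ∧
      S2 g J e eb (Y - A) := by
  obtain ⟨-, -, A, hA, -, hAv⟩ := y11 c hY
  have h1 : ∀ v, (a⁻¹ ^ 2 • A) v = a⁻¹ ^ 2 • e (eb (Y (eb (e v)))) := by
    intro v
    rw [LinearMap.smul_apply, hAv]
  have h3 : ∀ v, e (eb ((a⁻¹ ^ 2 • A) (eb (e v)))) = e (eb (Y (eb (e v)))) := by
    intro v
    rw [h1, map_smul, map_smul, c.ee, c.ee, map_smul, map_smul, map_smul, map_smul,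
      smul_smul, smul_smul]
    have h4 : a⁻¹ ^ 2 * a * a = 1 := by
      have := c.a0
      field_simp
    rw [h4, one_smul]
  refine ⟨a⁻¹ ^ 2 • A, (gp g J).smul_mem _ hA, h1, ?_, (gp g J).sub_mem hY
    ((gp g J).smul_mem _ hA), ?_⟩
  · refine first c ((gp g J).smul_mem _ hA) ?_
    intro v
    rw [h3, h1]
  · intro v
    rw [LinearMap.sub_apply, map_sub, map_sub, h3, sub_self]

theorem decm (c : Ctx g ω J σ e eb k a) {v : V} (hv : v ∈ Wm J) :
    ∃ t : ℂ, v = a⁻¹ • eb (e v) + t • k := by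
  obtain ⟨t, ht⟩ := c.kk (v - a⁻¹ • eb (e v))
    ((Wm J).sub_mem hv ((Wm J).smul_mem _ (c.hb.2.1 _))) (by
      rw [map_sub, map_smul, c.ee, smul_smul, inv_mul_cancel₀ c.a0, one_smul, sub_self])
  exact ⟨t, by rw [← ht]; abel⟩

/-- the contradiction -/
theorem fin [FiniteDimensional ℂ V] (hV : finrank ℂ V = 6) (c : Ctx g ω J σ e eb k a) :
    False := by
  obtain ⟨X1, hX1, v1, hv1⟩ := three c
  obtain ⟨A1, hA1, hA1v, -, hX⟩ := split c hX1
  set X := X1 - A1 with hXdef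
  have hX0 : X ≠ 0 := by
    intro h
    apply hv1
    rw [hXdef, sub_eq_zero] at h
    rw [h, hA1v]
    exact Submodule.smul_mem _ _ ⟨_, rfl⟩
  have hsp : ∀ Y ∈ gp g J, ∃ s t : ℂ, Y = s • e + t • X := by
    intro Y hY
    obtain ⟨A, -, -, ⟨s, hs⟩, h2⟩ := split c hY
    obtain ⟨t, ht⟩ := f9 c hX hX0 h2
    exact ⟨s, t, by rw [← hs, ← ht]; abel⟩
  obtain ⟨Xb, hXb, hXbv⟩ := cjp c.H hX.1
  have hsm : ∀ Y ∈ gm g J, ∃ s t : ℂ, ∀ v, Y v = s • eb v + t • Xb v := by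
    intro Y hY
    obtain ⟨Y', hY', hv⟩ := cjm c.H hY
    obtain ⟨s, t, hst⟩ := hsp Y' hY'
    refine ⟨(starRingEnd ℂ) s, (starRingEnd ℂ) t, ?_⟩
    intro v
    have h1 := hv (σ v)
    rw [c.H.ss, hst, LinearMap.add_apply, LinearMap.smul_apply, LinearMap.smul_apply] at h1
    rw [← c.H.ss (Y v), ← h1, map_add, map_smulₛₗ, map_smulₛₗ, c.hc, hXbv]
  set B := X k with hB
  have hB0 : B ≠ 0 := fun h => hX0 (f6 c hX h)
  have hBp : B ∈ Wp J := hX.1.2.1 k
  have hBe : e (a⁻¹ • eb B) = B := by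
    rw [map_smul, f5 c hX, smul_smul, inv_mul_cancel₀ c.a0, one_smul]
  have hBk : ω B k = 0 := by
    rw [← hBe]
    exact c.ek' _
  have h5 : ∀ X0 ∈ g, (∀ v, J (X0 v) = X0 (J v)) → ∃ t : ℂ, X0 B = t • B := by
    intro X0 hX0g h0
    obtain ⟨s, t, hst⟩ := hsp _ (br0p c.H.lie hX0g h0 hX.1)
    have e1 : X0 B - X (X0 k) = t • B := by
      have h1 := LinearMap.congr_fun hst k
      rwa [LinearMap.sub_apply, Module.End.mul_apply, Module.End.mul_apply, LinearMap.add_apply,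
        LinearMap.smul_apply, LinearMap.smul_apply, c.ek, smul_zero, zero_add] at h1
    obtain ⟨u, hu⟩ := decm c (zm h0 c.km)
    obtain ⟨q, hq⟩ := f3 c hX (e (X0 k))
    have e2 : X (X0 k) = (a⁻¹ * q) • σ k + u • B := by
      rw [hu, map_add, map_smul, map_smul, hq, smul_smul]
    obtain ⟨s', t', hst'⟩ := hsp _ (br0p c.H.lie hX0g h0 c.he)
    have e3 : ω (X0 B) k = 0 := by
      have h1 := LinearMap.congr_fun hst' (a⁻¹ • eb B)
      rw [LinearMap.sub_apply, Module.End.mul_apply, Module.End.mul_apply, LinearMap.add_apply,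
        LinearMap.smul_apply, LinearMap.smul_apply, hBe, map_smul X, f8 c hX hX, smul_zero,
        smul_zero, add_zero, sub_eq_iff_eq_add] at h1
      rw [h1, map_add, LinearMap.add_apply, c.ek', add_zero, map_smul, LinearMap.smul_apply, hBk,
        smul_zero]
    have e4 : X0 B = (t + u) • B + (a⁻¹ * q) • σ k := by
      rw [sub_eq_iff_eq_add] at e1
      rw [e1, e2]
      module
    rw [e4, map_add, LinearMap.add_apply, map_smul, map_smul, LinearMap.smul_apply,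
      LinearMap.smul_apply, hBk, smul_zero, zero_add, smul_eq_mul] at e3
    refine ⟨t + u, ?_⟩
    rw [e4, (mul_eq_zero.mp e3).resolve_right c.fk, zero_smul, add_zero]
  let U : Submodule ℂ V := Submodule.span ℂ (Set.range ![B, eb B, Xb B])
  have hU0 : B ∈ U := Submodule.subset_span ⟨0, rfl⟩
  have hU1 : eb B ∈ U := Submodule.subset_span ⟨1, rfl⟩
  have hU2 : Xb B ∈ U := Submodule.subset_span ⟨2, rfl⟩
  have hUm : ∀ Y ∈ gm g J, Y B ∈ U := by
    intro Y hY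
    obtain ⟨s, t, hst⟩ := hsm Y hY
    rw [hst]
    exact U.add_mem (U.smul_mem _ hU1) (U.smul_mem _ hU2)
  have hst : ∀ X' ∈ g, ∀ u ∈ U, X' u ∈ U := by
    intro X' hX'
    obtain ⟨X0, hX0, XP, hXP, XM, hXM, hsum, h0⟩ := comp' c.H hX'
    obtain ⟨t, ht⟩ := h5 X0 hX0 h0
    have hY : ∀ Y ∈ gm g J, X' (Y B) ∈ U := by
      intro Y hY
      rw [hsum, LinearMap.add_apply, LinearMap.add_apply, hXM.2.2 _ (hY.2.1 B), add_zero]
      refine U.add_mem ?_ ?_
      · have h1 : X0 (Y B) = (X0 * Y - Y * X0) B + Y (X0 B) := by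
          rw [LinearMap.sub_apply, Module.End.mul_apply, Module.End.mul_apply]
          abel
        rw [h1, ht, map_smul]
        exact U.add_mem (hUm _ (br0m c.H.lie hX0 h0 hY)) (U.smul_mem _ (hUm Y hY))
      · obtain ⟨h2, h3⟩ := brpm c.H.lie c.H.JJ hXP hY
        obtain ⟨s, hs⟩ := h5 _ h2 h3
        rw [LinearMap.sub_apply, Module.End.mul_apply, Module.End.mul_apply, hXP.2.2 B hBp,
          map_zero, sub_zero] at hs
        rw [hs]
        exact U.smul_mem _ hU0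
    have hle : U ≤ U.comap X' := by
      rw [Submodule.span_le]
      rintro _ ⟨i, rfl⟩
      rw [SetLike.mem_coe, Submodule.mem_comap]
      fin_cases i
      · show X' B ∈ U
        rw [hsum, LinearMap.add_apply, LinearMap.add_apply, hXP.2.2 B hBp, add_zero, ht]
        exact U.add_mem (U.smul_mem _ hU0) (hUm XM hXM)
      · exact hY eb c.hb
      · exact hY Xb hXb
    exact fun u hu => hle hu
  rcases c.H.irr U hst with h | h
  · rw [h, Submodule.mem_bot] at hU0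
    exact hB0 hU0
  · have h1 : finrank ℂ U ≤ Fintype.card (Fin 3) := finrank_range_le_card _
    rw [h, finrank_top, hV, Fintype.card_fin] at h1
    omega

end vA_aux

open SEU.uP_aux vP_aux vA_aux

theorem tvA : S_vA := by
  intro V _ _ _ g ω J σ hV H C hC hd hC0 w hw0 hw hCw
  by_contra hcon
  push Not at hcon
  obtain ⟨hC1, hC2⟩ := (degP H.JJ).mp hd
  have N1 : ∀ A ∈ gp g J, (∃ x, ∀ v, ∃ c : ℂ, A v = c • x) → A = 0 := by
    rintro A hA ⟨x, hx⟩
    by_contra hA0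
    obtain ⟨v, hv⟩ : ∃ v, A v ≠ 0 := by
      by_contra h
      push Not at h
      exact hA0 (LinearMap.ext h)
    have hx0 : A v ≠ 0 := hv
    have hr : ∀ u, ∃ c : ℂ, A u = c • A v := by
      intro u
      obtain ⟨c, hc⟩ := hx u
      obtain ⟨d, hd⟩ := hx v
      have hd0 : d ≠ 0 := by
        intro h
        rw [hd, h, zero_smul] at hv
        exact hv rfl
      refine ⟨c * d⁻¹, ?_⟩
      rw [hc, hd, smul_smul, mul_assoc, inv_mul_cancel₀ hd0, mul_one]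
    obtain ⟨φ, hφ⟩ := rk1 H.smp A hx0 hr
    refine hcon φ (A v) ?_ hx0 (mem_Wp.mp (hA.2.1 v)) ?_ (hφ ▸ hA.1)
    · intro h
      apply hA0
      rw [hφ, h]
      ext u
      simp
    · intro u hu
      have h1 := LinearMap.congr_fun hφ u
      rw [hA.2.2 u (mem_Wp.mpr hu), LinearMap.smulRight_apply] at h1
      exact (smul_eq_zero.mp h1.symm).resolve_right hx0
  have N2 : ∀ A ∈ gp g J, ∀ p ∈ Wm J, ∀ q ∈ Wm J, A p = 0 → A q = 0 → p ≠ 0 →
      (∀ c : ℂ, q ≠ c • p) → A = 0 := by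
    intro A hA p hp q hq hAp hAq hp0 hpq
    exact N1 A hA (rkle H.JJ (frm hV H) hA.2.2 hp hq hAp hAq hp0 hpq)
  obtain ⟨eb, a, c⟩ := mkCtx H N1 N2 ⟨hC, hC1, hC2⟩ hC0 hw0 (mem_Wm.mpr hw) hCw
  exact fin hV c

end SEV
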