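import Pool.Agent.Lib.SE.V.Spec
import Pool.Agent.Lib.SE.U.uP
import Mathlib.Algebra.Lie.Engel

/-!
# PROJECT SE-V, module vB: an element of the other factor
-/

set_option autoImplicit false

open Module

noncomputable section

namespace SEV

open HC HC.E HC.SE SEB SES SEU

namespace vB_aux

open SEU.uP_aux

variable {V : Type} [AddCommGroup V] [Module ℂ V]

theorem degP {J C : Module.End ℂ V} (hJ : J * J = -1)
    (h : J * C - C * J = (2 * Complex.I) • C) :
    (∀ v, C v ∈ Wp J) ∧ ∀ v ∈ Wp J, C v = 0 := by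
  have h1 : ∀ v, J (C v) = C (J v) + (2 * Complex.I) • C v := by
    intro v
    have := LinearMap.congr_fun h v
    rw [LinearMap.sub_apply, Module.End.mul_apply, Module.End.mul_apply,
      LinearMap.smul_apply] at this
    rw [← this]
    abel
  have h2 : ∀ v ∈ Wp J, C v = 0 := by
    intro v hv
    rw [mem_Wp] at hv
    have e1 := h1 v
    rw [hv, map_smul] at e1
    have e2 := JJ hJ (C v)
    rw [e1, map_add, map_smul, map_smul, e1] at e2
    have e3 : (8 : ℂ) • C v = 0 := by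
      linear_combination (norm := module) (9 : ℂ) • (Complex.I_mul_I • C v) - e2
    exact (smul_eq_zero.mp e3).resolve_left (by norm_num)
  refine ⟨fun v => ?_, h2⟩
  obtain ⟨p, hp, m, hm, rfl⟩ := dec hJ v
  rw [map_add, h2 p hp, zero_add, mem_Wp, h1 m, mem_Wm.mp hm, map_neg, map_smul]
  module

theorem degM {J C : Module.End ℂ V} (hJ : J * J = -1)
    (h : J * C - C * J = -((2 * Complex.I) • C)) :
    (∀ v, C v ∈ Wm J) ∧ ∀ v ∈ Wm J, C v = 0 := by
  have h1 : ∀ v, J (C v) = C (J v) - (2 * Complex.I) • C v := by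
    intro v
    have := LinearMap.congr_fun h v
    rw [LinearMap.sub_apply, Module.End.mul_apply, Module.End.mul_apply, LinearMap.neg_apply,
      LinearMap.smul_apply] at this
    rw [sub_eq_iff_eq_add] at this
    rw [this]
    abel
  have h2 : ∀ v ∈ Wm J, C v = 0 := by
    intro v hv
    rw [mem_Wm] at hv
    have e1 := h1 v
    rw [hv, map_neg, map_smul] at e1
    have e2 := JJ hJ (C v)
    rw [e1, map_sub, map_neg, map_smul, map_smul, e1] at e2
    have e3 : (8 : ℂ) • C v = 0 := by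
      linear_combination (norm := module) (9 : ℂ) • (Complex.I_mul_I • C v) - e2
    exact (smul_eq_zero.mp e3).resolve_left (by norm_num)
  refine ⟨fun v => ?_, h2⟩
  obtain ⟨p, hp, m, hm, rfl⟩ := dec hJ v
  rw [map_add, h2 m hm, add_zero, mem_Wm, h1 p, mem_Wp.mp hp, map_smul]
  module

theorem degP' {J C : Module.End ℂ V} (hJ : J * J = -1) (h1 : ∀ v, C v ∈ Wp J)
    (h2 : ∀ v ∈ Wp J, C v = 0) : J * C - C * J = (2 * Complex.I) • C := by
  apply LinearMap.ext
  intro v
  obtain ⟨p, hp, m, hm, rfl⟩ := dec hJ v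
  have e1 := mem_Wp.mp hp
  have e2 := mem_Wm.mp hm
  have e3 := mem_Wp.mp (h1 m)
  simp only [LinearMap.sub_apply, Module.End.mul_apply, LinearMap.smul_apply, map_add, e1, e2,
    map_neg, map_smul, h2 p hp, map_zero, e3]
  module

theorem degM' {J C : Module.End ℂ V} (hJ : J * J = -1) (h1 : ∀ v, C v ∈ Wm J)
    (h2 : ∀ v ∈ Wm J, C v = 0) : J * C - C * J = -((2 * Complex.I) • C) := by
  apply LinearMap.ext
  intro v
  obtain ⟨p, hp, m, hm, rfl⟩ := dec hJ v
  have e1 := mem_Wp.mp hp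
  have e2 := mem_Wm.mp hm
  have e3 := mem_Wm.mp (h1 p)
  simp only [LinearMap.sub_apply, Module.End.mul_apply, LinearMap.smul_apply, LinearMap.neg_apply,
    map_add, e1, e2, map_neg, map_smul, h2 m hm, map_zero, e3]
  module

/-- The conjugate of `Q`. -/
theorem exQ' {g : Submodule ℂ (Module.End ℂ V)} {ω : V →ₗ[ℂ] V →ₗ[ℂ] ℂ} {J : Module.End ℂ V}
    {σ : V →ₛₗ[starRingEnd ℂ] V} (H : Cfg g ω J σ) {Q : Module.End ℂ V} (hB : Bad g J Q) :
    ∃ Q' ∈ g, J * Q' - Q' * J = -((2 * Complex.I) • Q') ∧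
      (∀ w ∈ Wp J, Q' w = 0 → w = 0) ∧
      ∀ C ∈ g, J * C - C * J = -((2 * Complex.I) • C) → ∃ c : ℂ, C = c • Q' := by
  have hσp : ∀ v ∈ Wp J, σ v ∈ Wm J := by
    intro v hv
    rw [mem_Wp] at hv
    rw [mem_Wm, ← H.sJ, hv, map_smulₛₗ, Complex.conj_I, neg_smul]
  have hσm : ∀ v ∈ Wm J, σ v ∈ Wp J := by
    intro v hv
    rw [mem_Wm] at hv
    rw [mem_Wp, ← H.sJ, hv, map_neg, map_smulₛₗ, Complex.conj_I, neg_smul, neg_neg]
  obtain ⟨Q', hQ', hQσ⟩ := H.sg Q hB.mem
  have hQσ' : ∀ v, Q' v = σ (Q (σ v)) := by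
    intro v
    rw [← hQσ, H.ss]
  obtain ⟨hQ1, hQ2⟩ := degP H.JJ hB.deg
  refine ⟨Q', hQ', ?_, ?_, ?_⟩
  · apply degM' H.JJ
    · intro v
      rw [hQσ']
      exact hσp _ (hQ1 _)
    · intro v hv
      rw [hQσ', hQ2 _ (hσm v hv), map_zero]
  · intro w hw h0
    rw [hQσ'] at h0
    have h1 : Q (σ w) = 0 := by
      rw [← H.ss (Q (σ w)), h0, map_zero]
    have h2 := hB.inj (σ w) (mem_Wm.mp (hσp w hw)) h1
    rw [← H.ss w, h2, map_zero]
  · intro C hC hd
    obtain ⟨hC1, hC2⟩ := degM H.JJ hd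
    obtain ⟨C', hC', hCσ⟩ := H.sg C hC
    have hCσ' : ∀ v, C' v = σ (C (σ v)) := by
      intro v
      rw [← hCσ, H.ss]
    obtain ⟨c, hc⟩ := hB.one C' hC' (degP' H.JJ
      (by
        intro v
        rw [hCσ']
        exact hσm _ (hC1 _))
      (by
        intro v hv
        rw [hCσ', hC2 _ (hσp v hv), map_zero]))
    refine ⟨(starRingEnd ℂ) c, ?_⟩
    apply LinearMap.ext
    intro v
    have h1 : C v = σ (C' (σ v)) := by
      rw [hCσ, H.ss]
    rw [h1, hc, LinearMap.smul_apply, map_smulₛₗ, LinearMap.smul_apply, hQσ']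

theorem tr0 [FiniteDimensional ℂ V] [Nontrivial V] {X M : Module.End ℂ V}
    (hM : ∀ v, M v = 0 → v = 0) {c : ℂ} (h : X * M - M * X = c • M) : c = 0 := by
  have hu : IsUnit M := by
    rw [LinearMap.isUnit_iff_ker_eq_bot]
    exact LinearMap.ker_eq_bot'.mpr hM
  obtain ⟨u, rfl⟩ := hu
  set N : Module.End ℂ V := ((u⁻¹ : (Module.End ℂ V)ˣ) : Module.End ℂ V) with hN
  have h1 : X * (u : Module.End ℂ V) * N - (u : Module.End ℂ V) * X * N = c • 1 := by
    rw [← sub_mul, h, smul_mul_assoc, hN, Units.mul_inv]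
  have h2 := congrArg (LinearMap.trace ℂ V) h1
  rw [map_sub, mul_assoc, hN, Units.mul_inv, mul_one, mul_assoc, LinearMap.trace_mul_comm,
    mul_assoc, Units.inv_mul, mul_one, sub_self, map_smul, LinearMap.trace_one, smul_eq_mul] at h2
  rcases mul_eq_zero.mp h2.symm with h3 | h3
  · exact h3
  · exfalso
    rw [Nat.cast_eq_zero] at h3
    have := finrank_pos (R := ℂ) (M := V)
    omega

/-- (1) The part of degree `0`. -/
theorem dec0 [FiniteDimensional ℂ V] [Nontrivial V] {g : Submodule ℂ (Module.End ℂ V)}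
    {ω : V →ₗ[ℂ] V →ₗ[ℂ] ℂ} {J : Module.End ℂ V} {σ : V →ₛₗ[starRingEnd ℂ] V}
    (H : Cfg g ω J σ) {Q : Module.End ℂ V} (hB : Bad g J Q) {Q' : Module.End ℂ V} (hQ' : Q' ∈ g)
    (hd : J * Q' - Q' * J = -((2 * Complex.I) • Q')) (hi : ∀ w ∈ Wp J, Q' w = 0 → w = 0)
    (ho : ∀ C ∈ g, J * C - C * J = -((2 * Complex.I) • C) → ∃ c : ℂ, C = c • Q')
    {X : Module.End ℂ V} (hX : X ∈ g) (hXJ : X * J = J * X) :
    ∃ (t : ℂ) (B : Module.End ℂ V), B ∈ g ∧ B * J = J * B ∧ B * Q = Q * B ∧ B * Q' = Q' * B ∧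
      X = t • J + B := by
  obtain ⟨hQ1, hQ2⟩ := degP H.JJ hB.deg
  obtain ⟨hQ1', hQ2'⟩ := degM H.JJ hd
  obtain ⟨χ, hχ⟩ := hB.one (X * Q - Q * X) (H.lie X hX Q hB.mem) (by
    have e1 : J * (X * Q - Q * X) - (X * Q - Q * X) * J =
        (J * X) * Q - J * Q * X - X * (Q * J) + Q * (X * J) := by noncomm_ring
    have e2 : X * (J * Q - Q * J) - (J * Q - Q * J) * X =
        (X * J) * Q - J * Q * X - X * (Q * J) + Q * (J * X) := by noncomm_ring
    rw [e1, ← hXJ, ← sub_eq_zero]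
    rw [hXJ] at e2
    rw [hB.deg] at e2
    rw [hXJ, ← e2, mul_smul_comm, smul_mul_assoc, ← smul_sub, sub_self])
  obtain ⟨χ', hχ'⟩ := ho (X * Q' - Q' * X) (H.lie X hX Q' hQ') (by
    have e1 : J * (X * Q' - Q' * X) - (X * Q' - Q' * X) * J =
        (J * X) * Q' - J * Q' * X - X * (Q' * J) + Q' * (X * J) := by noncomm_ring
    have e2 : X * (J * Q' - Q' * J) - (J * Q' - Q' * J) * X =
        (X * J) * Q' - J * Q' * X - X * (Q' * J) + Q' * (J * X) := by noncomm_ring
    rw [e1, ← hXJ, ← sub_eq_zero]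
    rw [hXJ] at e2
    rw [hd] at e2
    rw [hXJ, ← e2, mul_neg, neg_mul, mul_smul_comm, smul_mul_assoc, smul_sub]
    abel)
  have hM : ∀ v, (Q * Q' + Q' * Q) v = 0 → v = 0 := by
    intro v hv
    obtain ⟨p, hp, m, hm, rfl⟩ := dec H.JJ v
    simp only [LinearMap.add_apply, Module.End.mul_apply, map_add, hQ2' m hm, hQ2 p hp, map_zero,
      add_zero, zero_add] at hv
    have h1 : Q (Q' p) ∈ Wm J := by
      rw [eq_neg_of_add_eq_zero_left hv]
      exact (Wm J).neg_mem (hQ1' _)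
    have h2 := (Submodule.disjoint_def.mp (isCompl H.JJ).disjoint) _ (hQ1 _) h1
    have h3 := hi p hp (hB.inj _ (mem_Wm.mp (hQ1' p)) h2)
    rw [h2, zero_add] at hv
    have h4 := hB.inj m (mem_Wm.mp hm) (hi _ (hQ1 m) hv)
    rw [h3, h4, add_zero]
  have hs : χ + χ' = 0 := by
    apply tr0 (X := X) hM
    have e1 : X * (Q * Q' + Q' * Q) - (Q * Q' + Q' * Q) * X =
        (X * Q - Q * X) * Q' + Q * (X * Q' - Q' * X) + (X * Q' - Q' * X) * Q +
          Q' * (X * Q - Q * X) := by noncomm_ring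
    rw [e1, hχ, hχ']
    simp only [smul_mul_assoc, mul_smul_comm]
    module
  have hI := two_I
  refine ⟨χ / (2 * Complex.I), X - (χ / (2 * Complex.I)) • J,
    g.sub_mem hX (g.smul_mem _ H.mJ), ?_, ?_, ?_, ?_⟩
  · rw [sub_mul, mul_sub, hXJ, smul_mul_assoc, mul_smul_comm]
  · have e1 : (X - (χ / (2 * Complex.I)) • J) * Q - Q * (X - (χ / (2 * Complex.I)) • J) =
        (X * Q - Q * X) - (χ / (2 * Complex.I)) • (J * Q - Q * J) := by
      rw [sub_mul, mul_sub, smul_mul_assoc, mul_smul_comm, smul_sub]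
      abel
    rw [← sub_eq_zero, e1, hχ, hB.deg, smul_smul, div_mul_cancel₀ _ hI, sub_self]
  · have e1 : (X - (χ / (2 * Complex.I)) • J) * Q' - Q' * (X - (χ / (2 * Complex.I)) • J) =
        (X * Q' - Q' * X) - (χ / (2 * Complex.I)) • (J * Q' - Q' * J) := by
      rw [sub_mul, mul_sub, smul_mul_assoc, mul_smul_comm, smul_sub]
      abel
    rw [← sub_eq_zero, e1, hχ', hd, smul_neg, smul_smul, div_mul_cancel₀ _ hI, sub_neg_eq_add,
      ← add_smul, add_comm χ' χ, hs, zero_smul]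
  · abel

/-- Every element of `g`. -/
theorem gen [FiniteDimensional ℂ V] [Nontrivial V] {g : Submodule ℂ (Module.End ℂ V)}
    {ω : V →ₗ[ℂ] V →ₗ[ℂ] ℂ} {J : Module.End ℂ V} {σ : V →ₛₗ[starRingEnd ℂ] V}
    (H : Cfg g ω J σ) {Q : Module.End ℂ V} (hB : Bad g J Q) {Q' : Module.End ℂ V} (hQ' : Q' ∈ g)
    (hd : J * Q' - Q' * J = -((2 * Complex.I) • Q')) (hi : ∀ w ∈ Wp J, Q' w = 0 → w = 0)
    (ho : ∀ C ∈ g, J * C - C * J = -((2 * Complex.I) • C) → ∃ c : ℂ, C = c • Q')
    {X : Module.End ℂ V} (hX : X ∈ g) :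
    ∃ (t a b : ℂ) (B : Module.End ℂ V), B ∈ g ∧ B * J = J * B ∧ B * Q = Q * B ∧
      B * Q' = Q' * B ∧ X = t • J + B + a • Q + b • Q' := by
  obtain ⟨X0, hX0, XP, hXP, XM, hXM, hsum, h0, hp1, hp2, hm1, hm2⟩ :=
    comp g J H.lie H.mJ H.JJ X hX
  obtain ⟨t, B, hBg, hB1, hB2, hB3, hB4⟩ := dec0 H hB hQ' hd hi ho hX0 (by
    apply LinearMap.ext
    intro v
    exact (h0 v).symm)
  obtain ⟨a, ha⟩ := hB.one XP hXP (degP' H.JJ hp1 hp2)
  obtain ⟨b, hb⟩ := ho XM hXM (degM' H.JJ hm1 hm2)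
  exact ⟨t, a, b, B, hBg, hB1, hB2, hB3, by rw [hsum, hB4, ha, hb]⟩

/-- Schur: an element of `g` which commutes with `g` is `0`. -/
theorem cen [FiniteDimensional ℂ V] [Nontrivial V] {g : Submodule ℂ (Module.End ℂ V)}
    {ω : V →ₗ[ℂ] V →ₗ[ℂ] ℂ} {J : Module.End ℂ V} {σ : V →ₛₗ[starRingEnd ℂ] V}
    (H : Cfg g ω J σ) {β : Module.End ℂ V} (hβ : β ∈ g) (hc : ∀ X ∈ g, X * β = β * X) :
    β = 0 := by
  obtain ⟨t, ht⟩ := Module.End.exists_eigenvalue β
  obtain ⟨v, hv⟩ := ht.exists_hasEigenvector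
  have h1 : β = t • 1 := by
    rcases H.irr (LinearMap.ker (β - t • 1)) (by
      intro X hX u hu
      rw [LinearMap.mem_ker, LinearMap.sub_apply, LinearMap.smul_apply, Module.End.one_apply,
        sub_eq_zero] at hu ⊢
      have := LinearMap.congr_fun (hc X hX) u
      rw [Module.End.mul_apply, Module.End.mul_apply, hu, map_smul] at this
      exact this.symm) with h | h
    · exfalso
      apply hv.2
      have : v ∈ LinearMap.ker (β - t • 1) := by
        rw [LinearMap.mem_ker, LinearMap.sub_apply, LinearMap.smul_apply, Module.End.one_apply,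
          hv.apply_eq_smul, sub_self]
      rwa [h, Submodule.mem_bot] at this
    · rw [LinearMap.ker_eq_top] at h
      exact sub_eq_zero.mp h
  have h2 : t = 0 := by
    by_contra h0
    apply hv.2
    apply H.smp.2
    intro y
    have h3 := H.skw β hβ v y
    rw [h1, LinearMap.smul_apply, LinearMap.smul_apply, Module.End.one_apply,
      Module.End.one_apply, map_smul, map_smul, LinearMap.smul_apply, smul_eq_mul] at h3
    have h4 : (2 * t) * ω v y = 0 := by linear_combination h3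
    exact (mul_eq_zero.mp h4).resolve_left (mul_ne_zero two_ne_zero h0)
  rw [h1, h2, zero_smul]

theorem ch3 (S : Matrix (Fin 3) (Fin 3) ℂ) : S * S * S = S.trace • (S * S) -
    ((1 / 2 : ℂ) * (S.trace ^ 2 - (S * S).trace)) • S + S.det • 1 := by
  ext i j
  fin_cases i <;> fin_cases j <;>
    simp [Matrix.mul_apply, Fin.sum_univ_three, Matrix.trace, Matrix.det_fin_three] <;> ring

theorem cube3 (S G : Matrix (Fin 3) (Fin 3) ℂ) (hG : G.det ≠ 0)
    (h : S.transpose * G + G * S = 0) (ht : (S * S).trace = 0) : S * S * S = 0 := by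
  have h1 : S.transpose * G = -(G * S) := eq_neg_of_add_eq_zero_left h
  have h2 : S.det = 0 := by
    have := congrArg Matrix.det h1
    rw [Matrix.det_mul, Matrix.det_transpose, Matrix.det_neg, Matrix.det_mul, Fintype.card_fin]
      at this
    have h3 : (2 * G.det) * S.det = 0 := by linear_combination this
    exact (mul_eq_zero.mp h3).resolve_left (mul_ne_zero two_ne_zero hG)
  have h4 : S.trace = 0 := by
    have h5 : S.transpose = -(G * S * G⁻¹) := by
      rw [← neg_mul, ← h1, Matrix.mul_assoc, Matrix.mul_nonsing_inv _ (isUnit_iff_ne_zero.mpr hG),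
        Matrix.mul_one]
    have h6 := congrArg Matrix.trace h5
    rw [Matrix.trace_transpose, Matrix.trace_neg, Matrix.trace_mul_comm, ← Matrix.mul_assoc,
      Matrix.nonsing_inv_mul _ (isUnit_iff_ne_zero.mpr hG), Matrix.one_mul] at h6
    have h7 : (2 : ℂ) * S.trace = 0 := by linear_combination h6
    exact (mul_eq_zero.mp h7).resolve_left two_ne_zero
  rw [ch3, h2, h4, ht]
  simp

/-- An element of `g` commuting with `J`, `Q` and of trace form `0` is nilpotent. -/
theorem nil3 [FiniteDimensional ℂ V] {g : Submodule ℂ (Module.End ℂ V)}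
    {ω : V →ₗ[ℂ] V →ₗ[ℂ] ℂ} {J : Module.End ℂ V} {σ : V →ₛₗ[starRingEnd ℂ] V}
    (hV : finrank ℂ V = 6) (H : Cfg g ω J σ) {Q : Module.End ℂ V} (hB : Bad g J Q)
    {B : Module.End ℂ V} (hBg : B ∈ g) (hBJ : B * J = J * B) (hBQ : B * Q = Q * B)
    (ht : Tr2 B B = 0) : B * B * B = 0 := by
  have hsJ := H.skw J H.mJ
  have hfr : finrank ℂ (Wm J) = 3 := by
    have h1 := Submodule.finrank_add_eq_of_isCompl (isCompl H.JJ)
    rw [hV, fr_le H.JJ H.smp hsJ] at h1
    omega
  have hfrp : finrank ℂ (Wp J) = 3 := by rw [fr_le H.JJ H.smp hsJ, hfr]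
  obtain ⟨hQ1, hQ2⟩ := degP H.JJ hB.deg
  have hBJ' : ∀ v, B (J v) = J (B v) := fun v => LinearMap.congr_fun hBJ v
  have hBQ' : ∀ v, B (Q v) = Q (B v) := fun v => LinearMap.congr_fun hBQ v
  have hBp : ∀ v ∈ Wp J, B v ∈ Wp J := by
    intro v hv
    rw [mem_Wp] at hv ⊢
    rw [← hBJ', hv, map_smul]
  have hBm : ∀ v ∈ Wm J, B v ∈ Wm J := by
    intro v hv
    rw [mem_Wm] at hv ⊢
    rw [← hBJ', hv, map_neg, map_smul]
  let q : Wm J →ₗ[ℂ] Wp J := LinearMap.restrict Q (fun v _ => hQ1 v)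
  have hq : Function.Injective q := by
    rw [injective_iff_map_eq_zero]
    intro x hx
    exact Subtype.ext (hB.inj x (mem_Wm.mp x.2) (congrArg Subtype.val hx))
  let E := LinearMap.linearEquivOfInjective q hq (by rw [hfr, hfrp])
  have hE : ∀ x, E x = q x := fun x => rfl
  let b₁ : Module.End ℂ (Wm J) := LinearMap.restrict B hBm
  let b₂ : Module.End ℂ (Wp J) := LinearMap.restrict B hBp
  have hb : b₂ = E.conj b₁ := by
    apply LinearMap.ext
    intro y
    obtain ⟨x, rfl⟩ := E.surjective y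
    rw [LinearEquiv.conj_apply_apply, E.symm_apply_apply]
    exact Subtype.ext (hBQ' x)
  let φ := Submodule.prodEquivOfIsCompl (Wm J) (Wp J) (isCompl H.JJ).symm
  have hφ : B * B = φ.conj (LinearMap.prodMap (b₁ * b₁) (b₂ * b₂)) := by
    apply LinearMap.ext
    intro v
    obtain ⟨⟨x, y⟩, rfl⟩ := φ.surjective v
    rw [LinearEquiv.conj_apply_apply, φ.symm_apply_apply]
    change B (B ((x : V) + y)) = B (B x) + B (B y)
    rw [map_add, map_add]
  have htr : LinearMap.trace ℂ _ (b₁ * b₁) = 0 := by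
    have h1 : Tr2 B B = LinearMap.trace ℂ _ (b₁ * b₁) + LinearMap.trace ℂ _ (b₂ * b₂) := by
      unfold Tr2
      rw [hφ, LinearMap.trace_conj', LinearMap.trace_prodMap']
    have h2 : LinearMap.trace ℂ _ (b₂ * b₂) = LinearMap.trace ℂ _ (b₁ * b₁) := by
      have h3 : b₂ * b₂ = E.conj (b₁ * b₁) := by
        rw [hb]
        exact (LinearEquiv.conj_comp E b₁ b₁).symm
      rw [h3, LinearMap.trace_conj']
    rw [ht, h2] at h1
    have h4 : (2 : ℂ) * LinearMap.trace ℂ _ (b₁ * b₁) = 0 := by linear_combination -h1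
    exact (mul_eq_zero.mp h4).resolve_left two_ne_zero
  let x : Basis (Fin 3) ℂ (Wm J) := finBasisOfFinrankEq ℂ _ hfr
  let S : Matrix (Fin 3) (Fin 3) ℂ := LinearMap.toMatrix x x b₁
  let G : Matrix (Fin 3) (Fin 3) ℂ := Matrix.of fun i j => ω (Q (x i)) (x j)
  have hSx : ∀ j, B (x j) = ∑ i, S i j • (x i : V) := by
    intro j
    have h1 : b₁ (x j) = ∑ i, S i j • x i := by
      rw [← x.sum_repr (b₁ (x j))]
      refine Finset.sum_congr rfl fun i _ => ?_
      exact congrArg (fun c : ℂ => c • x i) (LinearMap.toMatrix_apply x x b₁ i j).symm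
    have h2 := congrArg Subtype.val h1
    rw [AddSubmonoidClass.coe_finsetSum] at h2
    exact h2
  have hG : G.det ≠ 0 := by
    intro h0
    obtain ⟨v, hv0, hv⟩ := Matrix.exists_mulVec_eq_zero_iff.mpr h0
    apply hv0
    have h1 : (∑ j, v j • x j : Wm J) = 0 := by
      apply Subtype.ext
      apply H.smp.2
      intro z
      obtain ⟨p, hp, m, hm, rfl⟩ := dec H.JJ z
      rw [map_add, om_mm hsJ (Subtype.mem _) hm, add_zero, om_swap H.smp, neg_eq_zero]
      obtain ⟨y, hy⟩ := E.surjective ⟨p, hp⟩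
      have hy' : p = Q y := (congrArg Subtype.val hy).symm
      have h2 : ∀ i, ω (Q (x i)) ((∑ j, v j • x j : Wm J) : V) = 0 := by
        intro i
        have h3 := congrFun hv i
        rw [Matrix.mulVec, dotProduct, Pi.zero_apply] at h3
        rw [AddSubmonoidClass.coe_finsetSum, map_sum, ← h3]
        refine Finset.sum_congr rfl fun j _ => ?_
        change ω (Q (x i)) (v j • (x j : V)) = ω (Q (x i)) (x j) * v j
        rw [map_smul, smul_eq_mul, mul_comm]
      rw [hy', ← x.sum_repr y, AddSubmonoidClass.coe_finsetSum, map_sum, map_sum,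
        LinearMap.sum_apply]
      apply Finset.sum_eq_zero
      intro i _
      change ω (Q (x.repr y i • (x i : V))) _ = 0
      rw [map_smul, map_smul, LinearMap.smul_apply, h2, smul_zero]
    funext j
    have h2 := Fintype.linearIndependent_iff.mp x.linearIndependent v h1 j
    exact h2
  have hSG : S.transpose * G + G * S = 0 := by
    ext i j
    rw [Matrix.add_apply, Matrix.mul_apply, Matrix.mul_apply, Matrix.zero_apply]
    have h1 := H.skw B hBg (Q (x i)) (x j)
    rw [hBQ', hSx, hSx, map_sum, map_sum, map_sum, LinearMap.sum_apply] at h1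
    rw [← h1]
    congr 1
    · refine Finset.sum_congr rfl fun k _ => ?_
      rw [Matrix.transpose_apply, map_smul, map_smul, LinearMap.smul_apply]
      rfl
    · refine Finset.sum_congr rfl fun k _ => ?_
      rw [map_smul, smul_eq_mul, mul_comm]
      rfl
  have hS3 : S * S * S = 0 := by
    apply cube3 S G hG hSG
    rw [LinearMap.trace_eq_matrix_trace ℂ x, LinearMap.toMatrix_mul] at htr
    exact htr
  have hb3 : b₁ * b₁ * b₁ = 0 := by
    apply (LinearMap.toMatrix x x).injective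
    rw [LinearMap.toMatrix_mul, LinearMap.toMatrix_mul, map_zero]
    exact hS3
  have hm3 : ∀ v ∈ Wm J, B (B (B v)) = 0 := by
    intro v hv
    exact congrArg Subtype.val (LinearMap.congr_fun hb3 ⟨v, hv⟩)
  apply LinearMap.ext
  intro v
  obtain ⟨p, hp, m, hm, rfl⟩ := dec H.JJ v
  obtain ⟨y, hy⟩ := E.surjective ⟨p, hp⟩
  have hy' : p = Q y := (congrArg Subtype.val hy).symm
  rw [Module.End.mul_apply, Module.End.mul_apply, map_add, map_add, map_add, hm3 m hm, hy', hBQ',
    hBQ', hBQ', hm3 y y.2, map_zero, add_zero, LinearMap.zero_apply]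

attribute [local instance 100] LieRing.ofAssociativeRing

/-- The Lie algebra of the elements commuting with `J`, `Q`, `Q'`. -/
def bL (g : Submodule ℂ (Module.End ℂ V)) (hl : Clo g) (J Q Q' : Module.End ℂ V) :
    LieSubalgebra ℂ (Module.End ℂ V) where
  carrier := {B | B ∈ g ∧ B * J = J * B ∧ B * Q = Q * B ∧ B * Q' = Q' * B}
  add_mem' := by
    rintro A B ⟨h1, h2, h3, h4⟩ ⟨k1, k2, k3, k4⟩
    exact ⟨g.add_mem h1 k1, by rw [add_mul, mul_add, h2, k2], by rw [add_mul, mul_add, h3, k3],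
      by rw [add_mul, mul_add, h4, k4]⟩
  zero_mem' := ⟨g.zero_mem, by simp, by simp, by simp⟩
  smul_mem' := by
    rintro c A ⟨h1, h2, h3, h4⟩
    exact ⟨g.smul_mem c h1, by rw [smul_mul_assoc, mul_smul_comm, h2],
      by rw [smul_mul_assoc, mul_smul_comm, h3], by rw [smul_mul_assoc, mul_smul_comm, h4]⟩
  lie_mem' := by
    rintro A B ⟨h1, h2, h3, h4⟩ ⟨k1, k2, k3, k4⟩
    have key : ∀ Z : Module.End ℂ V, A * Z = Z * A → B * Z = Z * B →
        (A * B - B * A) * Z = Z * (A * B - B * A) := by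
      intro Z hA hB
      rw [sub_mul, mul_sub, mul_assoc, hB, ← mul_assoc, hA, mul_assoc B A Z, hA, ← mul_assoc B Z A,
        hB, mul_assoc, mul_assoc]
    exact ⟨hl A h1 B k1, key J h2 k2, key Q h3 k3, key Q' h4 k4⟩

end vB_aux

open SEU.uP_aux vB_aux

attribute [local instance 100] LieRing.ofAssociativeRing

theorem tvB : S_vB := by
  intro V _ _ _ g ω J σ hV H Q hB
  have : Nontrivial V := Module.nontrivial_of_finrank_pos (R := ℂ) (by omega)
  obtain ⟨Q', hQ', hd, hi, ho⟩ := exQ' H hB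
  obtain ⟨hQ1, hQ2⟩ := degP H.JJ hB.deg
  obtain ⟨hQ1', hQ2'⟩ := degM H.JJ hd
  by_contra hcon
  push Not at hcon
  have hz : ∀ B ∈ g, B * J = J * B → B * Q = Q * B → B * Q' = Q' * B → Tr2 B B = 0 := by
    intro B hBg h1 h2 h3
    apply hcon B hBg h1 h2
    intro C hC hCd
    obtain ⟨c, rfl⟩ := ho C hC hCd
    rw [smul_mul_assoc, mul_smul_comm, h3]
  -- Engel
  let b := bL g H.lie J Q Q'
  have hnil : LieModule.IsNilpotent b V := by
    rw [LieModule.isNilpotent_iff_forall' (R := ℂ) (L := b) (M := V)]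
    intro B
    obtain ⟨h1, h2, h3, h4⟩ := B.2
    refine ⟨3, ?_⟩
    have h5 := nil3 hV H hB h1 h2 h3 (hz B.1 h1 h2 h3 h4)
    have h6 : LieModule.toEnd ℂ b V B = B.1 := rfl
    rw [h6, pow_succ, pow_two]
    exact h5
  have hex : Nontrivial (LieModule.maxTrivSubmodule ℂ b V) :=
    LieModule.nontrivial_max_triv_of_isNilpotent ℂ b V
  obtain ⟨⟨v, hvm⟩, hv0⟩ := exists_ne (0 : LieModule.maxTrivSubmodule ℂ b V)
  have hv0' : v ≠ 0 := fun h => hv0 (Subtype.ext h)
  have hvB : ∀ B : b, B.1 v = 0 := by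
    intro B
    exact (LieModule.mem_maxTrivSubmodule ℂ b V v).mp hvm B
  let U : Submodule ℂ V := ⨅ B : b, LinearMap.ker B.1
  have hmU : ∀ u, u ∈ U ↔ ∀ B ∈ b, B u = 0 := by
    intro u
    rw [Submodule.mem_iInf]
    exact ⟨fun h B hBb => h ⟨B, hBb⟩, fun h B => h B.1 B.2⟩
  have hUt : U = ⊤ := by
    rcases H.irr U (by
      intro X hX u hu
      rw [hmU] at hu ⊢
      obtain ⟨t, a, c, B, hBg, h1, h2, h3, rfl⟩ := gen H hB hQ' hd hi ho hX
      intro A hA
      have hBu : B u = 0 := hu B ⟨hBg, h1, h2, h3⟩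
      have hAu := hu A hA
      obtain ⟨k1, k2, k3, k4⟩ := hA
      have l2 : A (J u) = 0 := by
        have := LinearMap.congr_fun k2 u
        rw [Module.End.mul_apply, Module.End.mul_apply, hAu, map_zero] at this
        exact this
      have l3 : A (Q u) = 0 := by
        have := LinearMap.congr_fun k3 u
        rw [Module.End.mul_apply, Module.End.mul_apply, hAu, map_zero] at this
        exact this
      have l4 : A (Q' u) = 0 := by
        have := LinearMap.congr_fun k4 u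
        rw [Module.End.mul_apply, Module.End.mul_apply, hAu, map_zero] at this
        exact this
      simp only [LinearMap.add_apply, LinearMap.smul_apply, map_add, map_smul, hBu, l2, l3, l4,
        smul_zero, add_zero]) with h | h
    · exfalso
      apply hv0'
      have : v ∈ U := (hmU v).mpr fun B hBb => hvB ⟨B, hBb⟩
      rwa [h, Submodule.mem_bot] at this
    · exact h
  have hb0 : ∀ B ∈ g, B * J = J * B → B * Q = Q * B → B * Q' = Q' * B → B = 0 := by
    intro B hBg h1 h2 h3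
    apply LinearMap.ext
    intro u
    have hu : u ∈ U := by
      rw [hUt]
      trivial
    exact (hmU u).mp hu B ⟨hBg, h1, h2, h3⟩
  -- (2)
  have hXJ : (Q * Q' - Q' * Q) * J = J * (Q * Q' - Q' * Q) := by
    have e1 : J * (Q * Q' - Q' * Q) - (Q * Q' - Q' * Q) * J =
        (J * Q - Q * J) * Q' + Q * (J * Q' - Q' * J) - (J * Q' - Q' * J) * Q -
          Q' * (J * Q - Q * J) := by noncomm_ring
    rw [hB.deg, hd] at e1
    have e2 : J * (Q * Q' - Q' * Q) - (Q * Q' - Q' * Q) * J = 0 := by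
      rw [e1]
      simp only [smul_mul_assoc, mul_smul_comm, mul_neg, neg_mul]
      abel
    exact (sub_eq_zero.mp e2).symm
  obtain ⟨t, B, hBg, h1, h2, h3, h4⟩ := dec0 H hB hQ' hd hi ho (H.lie Q hB.mem Q' hQ') hXJ
  rw [hb0 B hBg h1 h2 h3, add_zero] at h4
  -- (3)
  have hfr : finrank ℂ (Wm J) = 3 := by
    have h1 := Submodule.finrank_add_eq_of_isCompl (isCompl H.JJ)
    rw [hV, fr_le H.JJ H.smp (H.skw J H.mJ)] at h1
    omega
  obtain ⟨⟨w, hw⟩, hw0⟩ : ∃ a : Wm J, a ≠ 0 := by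
    have : Nontrivial (Wm J) := Module.nontrivial_of_finrank_pos (R := ℂ) (by omega)
    exact exists_ne 0
  have hw0' : w ≠ 0 := fun h => hw0 (Subtype.ext h)
  set W : Submodule ℂ V := Submodule.span ℂ (Set.range ![w, Q w]) with hW
  have hwW : w ∈ W := Submodule.subset_span ⟨0, rfl⟩
  have hQW : Q w ∈ W := Submodule.subset_span ⟨1, rfl⟩
  have hst : ∀ X ∈ g, ∀ u ∈ W, X u ∈ W := by
    intro X hX
    obtain ⟨t', a, c, B', hBg', k1, k2, k3, rfl⟩ := gen H hB hQ' hd hi ho hX
    rw [hb0 B' hBg' k1 k2 k3, add_zero]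
    have hle : W ≤ W.comap (t' • J + a • Q + c • Q') := by
      rw [hW, Submodule.span_le]
      rintro _ ⟨i, rfl⟩
      rw [SetLike.mem_coe, Submodule.mem_comap, ← hW]
      fin_cases i
      · change (t' • J + a • Q + c • Q') w ∈ W
        rw [LinearMap.add_apply, LinearMap.add_apply, LinearMap.smul_apply, LinearMap.smul_apply,
          LinearMap.smul_apply, hQ2' w hw, mem_Wm.mp hw, smul_zero, add_zero]
        exact W.add_mem (W.smul_mem _ (W.neg_mem (W.smul_mem _ hwW))) (W.smul_mem _ hQW)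
      · change (t' • J + a • Q + c • Q') (Q w) ∈ W
        have e1 := LinearMap.congr_fun h4 w
        rw [LinearMap.sub_apply, Module.End.mul_apply, Module.End.mul_apply, hQ2' w hw, map_zero,
          zero_sub, LinearMap.smul_apply, mem_Wm.mp hw] at e1
        have e2 : Q' (Q w) = (t * Complex.I) • w := by
          rw [← neg_neg (Q' (Q w)), e1]
          module
        rw [LinearMap.add_apply, LinearMap.add_apply, LinearMap.smul_apply, LinearMap.smul_apply,
          LinearMap.smul_apply, hQ2 _ (hQ1 w), mem_Wp.mp (hQ1 w), smul_zero, add_zero, e2]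
        exact W.add_mem (W.smul_mem _ (W.smul_mem _ hQW)) (W.smul_mem _ (W.smul_mem _ hwW))
    intro u hu
    exact hle hu
  rcases H.irr W hst with h | h
  · rw [h, Submodule.mem_bot] at hwW
    exact hw0' hwW
  · have h5 : finrank ℂ W ≤ 2 := by
      have := finrank_range_le_card (R := ℂ) ![w, Q w]
      rw [Fintype.card_fin] at this
      exact this
    rw [h, finrank_top, hV] at h5
    omega

end SEV
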