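import Pool.Agent.Lib.SE.V.Spec
import Pool.Agent.Lib.SE.U.uA
import Pool.Agent.Lib.SE.U.uR
import Pool.Agent.Lib.SE.P.Ltz

/-!
# PROJECT SE-V, module vC: Picard type (helper1)
-/

set_option autoImplicit false

open Module

noncomputable section

namespace SEV

open HC HC.E HC.SE SEB SES SEU

namespace vC_aux

open SEU.uA_aux SEU.uR_aux

variable {T : AV}

/-- rational multiples of rational endomorphisms -/
theorem rat_smul {X : Module.End ℝ T.V} (hX : RatEnd T X) (q : ℚ) : RatEnd T ((q : ℝ) • X) := by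
  intro v hv
  obtain ⟨N, hN, h1⟩ := hX v hv
  refine ⟨q.den * N, mul_ne_zero q.den_nz hN, ?_⟩
  have h2 : (q.den * N) • ((q : ℝ) • X) v = q.num • (N • X v) := by
    rw [LinearMap.smul_apply, ← Nat.cast_smul_eq_nsmul ℝ, ← Nat.cast_smul_eq_nsmul ℝ N,
      ← Int.cast_smul_eq_zsmul ℝ, smul_smul, smul_smul]
    congr 1
    have h3 : (q : ℝ) * q.den = q.num := by exact_mod_cast Rat.mul_den_eq_num q
    push_cast
    linear_combination (N : ℝ) * h3
  rw [h2]
  exact T.L.smul_mem _ h1

theorem rat_one : RatEnd T (1 : Module.End ℝ T.V) :=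
  fun v hv => ⟨1, one_ne_zero, by rw [one_smul]; exact hv⟩

/-- a rational endomorphism which is a real scalar is a rational scalar -/
theorem rat_scal {E : T.V →ₗ[ℝ] T.V →ₗ[ℝ] ℝ} (hE : IsRf T E) {X : Module.End ℝ T.V}
    (hX : RatEnd T X) {k : ℝ} (hk : X = k • 1) (hne : ∃ u : T.V, u ≠ 0) : ∃ q : ℚ, k = q := by
  obtain ⟨u, hu0⟩ := hne
  obtain ⟨v, hv, y, hy, hvy⟩ : ∃ v ∈ T.L, ∃ y ∈ T.L, E v y ≠ 0 := by
    by_contra hcon
    push Not at hcon
    apply hu0
    refine nondeg hE u fun v => ?_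
    have h1 : ∀ y ∈ T.L, E u y = 0 := by
      intro y hy
      exact zero_of_lat (E.flip y) (fun v hv => hcon v hv y hy) u
    exact zero_of_lat (E u) h1 v
  obtain ⟨N, hN, h1⟩ := hX v hv
  have h2 : X v = k • v := by rw [hk]; rfl
  rw [h2] at h1
  obtain ⟨n, hn⟩ := hE.1 _ h1 y hy
  obtain ⟨m, hm⟩ := hE.1 v hv y hy
  rw [map_nsmul, LinearMap.smul_apply, map_smul, LinearMap.smul_apply, hm, nsmul_eq_mul,
    smul_eq_mul] at hn
  have hm0 : (m : ℝ) ≠ 0 := by rw [← hm]; exact hvy
  have hN0 : (N : ℝ) ≠ 0 := Nat.cast_ne_zero.2 hN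
  refine ⟨n / (N * m), ?_⟩
  push_cast
  rw [eq_div_iff (mul_ne_zero hN0 hm0), ← hn]
  ring

/-- `X` rational, complex linear, commuting with `Z`: `X = p + q Z` -/
theorem comm_eq {E : T.V →ₗ[ℝ] T.V →ₗ[ℝ] ℝ} (hE : IsRf T E) {Z : Module.End ℝ T.V} {c : ℚ}
    (hZr : RatEnd T Z) (hZc : Cx Z) (hZs : IsSk E Z) (hc : 0 < c) (hZZ : Z * Z = -(c : ℝ) • 1)
    (hS : ∀ X : Module.End ℝ T.V, RatEnd T X → Cx X → Sy E X → Scal X)
    (hne : ∃ u : T.V, u ≠ 0) {Y : Module.End ℝ T.V} (hY : RatEnd T Y) (hYc : Cx Y)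
    (hYZ : Y * Z = Z * Y) : ∃ p q : ℚ, Y = (p : ℝ) • 1 + (q : ℝ) • Z := by
  obtain ⟨Y', hY'⟩ := ex_adj hE Y
  have hr : RatEnd T Y' := rat_adj hE hY hY'
  have hE2 := hE.2.1
  have hE3 := hE.2.2.1
  have hI : ∀ u v, E (Complex.I • u) v = -E u (Complex.I • v) := by
    intro u v
    have h3 := hE3 (Complex.I • u) v
    rw [smul_smul, Complex.I_mul_I, neg_one_smul, map_neg, LinearMap.neg_apply] at h3
    linarith
  have hY'' : ∀ u v, E (Y u) v = E u (Y' v) := by
    intro u v
    rw [hE2, ← hY', ← hE2]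
  have hCx' : Cx Y' := by
    intro v
    rw [← sub_eq_zero]
    refine nondeg hE _ fun u => ?_
    rw [map_sub, LinearMap.sub_apply, hY', hI v, hI (Y' v), hY', hYc, sub_neg_eq_add,
      neg_add_cancel]
  have hYZv : ∀ v, Y (Z v) = Z (Y v) := fun v => LinearMap.congr_fun hYZ v
  have hZs' : ∀ u v, E (Z u) v = -E u (Z v) := fun u v => by
    have := hZs u v
    linarith
  have hY'Z : ∀ v, Y' (Z v) = Z (Y' v) := by
    intro v
    rw [← sub_eq_zero]
    refine nondeg hE _ fun u => ?_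
    rw [map_sub, LinearMap.sub_apply, hY', hZs', hZs', hY', hYZv, sub_neg_eq_add,
      neg_add_cancel]
  obtain ⟨s, hs⟩ : Scal (Y + Y') := by
    refine hS _ (rat_add hY hr) (fun v => ?_) (fun u v => ?_)
    · rw [LinearMap.add_apply, LinearMap.add_apply, hYc, hCx', smul_add]
    · rw [LinearMap.add_apply, LinearMap.add_apply, map_add, map_add, LinearMap.add_apply, hY',
        hY'', add_comm]
  obtain ⟨t, ht⟩ : Scal ((Y + -Y') * Z) := by
    refine hS _ (rat_mul (rat_add hY (rat_neg hr)) hZr) (fun v => ?_) (fun u v => ?_)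
    · rw [Module.End.mul_apply, Module.End.mul_apply, LinearMap.add_apply, LinearMap.add_apply,
        LinearMap.neg_apply, LinearMap.neg_apply, hZc, hYc, hCx', smul_add, smul_neg]
    · simp only [Module.End.mul_apply, LinearMap.add_apply, LinearMap.neg_apply, map_add, map_neg,
        LinearMap.add_apply, LinearMap.neg_apply, hY', hY'', hZs', hYZv, hY'Z]
      ring
  obtain ⟨p, hp⟩ := rat_scal hE (rat_add hY hr) hs hne
  obtain ⟨q, hq⟩ := rat_scal hE (rat_mul (rat_add hY (rat_neg hr)) hZr) ht hne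
  refine ⟨p / 2, -(q / (2 * c)), ?_⟩
  have hc0 : (c : ℝ) ≠ 0 := by exact_mod_cast hc.ne'
  have h1 : (Y + -Y') * Z * Z = t • Z := by rw [ht, smul_mul_assoc, one_mul]
  rw [mul_assoc, hZZ, mul_smul_comm, mul_one] at h1
  -- `-c (Y - Y') = t Z`
  have h2 : Y + -Y' = -(t / c) • Z := by
    have h3 : (-(c : ℝ))⁻¹ • (-(c : ℝ) • (Y + -Y')) = (-(c : ℝ))⁻¹ • (t • Z) := by rw [h1]
    rw [smul_smul, inv_mul_cancel₀ (neg_ne_zero.2 hc0), one_smul, smul_smul] at h3
    rw [h3]
    congr 1
    field_simp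
  have h4 : (2 : ℝ) • Y = s • (1 : Module.End ℝ T.V) + -(t / c) • Z := by
    rw [← hs, ← h2]
    module
  have h5 : Y = (1 / 2 : ℝ) • ((2 : ℝ) • Y) := by module
  rw [h5, h4, hp, hq]
  push_cast
  rw [smul_add, smul_smul, smul_smul]
  congr 1
  · congr 1
    ring
  · congr 1
    field_simp

/-- one of the two eigenspaces has dimension one -/
theorem eig1 {V : Type} [AddCommGroup V] [Module ℂ V] [FiniteDimensional ℂ V]
    (h3 : finrank ℂ V = 3) (A : Module.End ℂ V) (S : ℂ) (hS : S ≠ 0) (hA : A * A = (S * S) • 1)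
    (h1 : A ≠ S • 1) (h2 : A ≠ (-S) • 1) :
    ∃ s : ℂ, finrank ℂ (Module.End.eigenspace A s) = 1 := by
  have hAv : ∀ v, A (A v) = (S * S) • v := fun v => by
    have := LinearMap.congr_fun hA v
    rwa [Module.End.mul_apply, LinearMap.smul_apply, Module.End.one_apply] at this
  have hmem : ∀ (s : ℂ) (v : V), v ∈ Module.End.eigenspace A s ↔ A v = s • v := fun s v =>
    Module.End.mem_eigenspace_iff
  have h2S : (2 * S) ≠ 0 := mul_ne_zero two_ne_zero hS
  have hc : IsCompl (Module.End.eigenspace A S) (Module.End.eigenspace A (-S)) := by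
    refine ⟨?_, ?_⟩
    · rw [Submodule.disjoint_def]
      intro x hx hx'
      rw [hmem] at hx hx'
      rw [hx] at hx'
      have h4 : (2 * S) • x = 0 := by
        rw [two_mul, add_smul]
        rw [neg_smul] at hx'
        nth_rewrite 1 [hx']
        exact neg_add_cancel _
      exact (smul_eq_zero.1 h4).resolve_left h2S
    · rw [codisjoint_iff, eq_top_iff]
      intro x _
      rw [Submodule.mem_sup]
      refine ⟨(1 / (2 * S)) • (A x + S • x), ?_, (1 / (2 * S)) • (S • x - A x), ?_, ?_⟩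
      · rw [hmem, map_smul, map_add, map_smul, hAv]
        module
      · rw [hmem, map_smul, map_sub, map_smul, hAv]
        module
      · rw [← smul_add]
        have h4 : A x + S • x + (S • x - A x) = (2 * S) • x := by module
        rw [h4, smul_smul, one_div, inv_mul_cancel₀ h2S, one_smul]
  have hsum := Submodule.finrank_add_eq_of_isCompl hc
  rw [h3] at hsum
  have hp : Module.End.eigenspace A S ≠ ⊥ := by
    intro h0
    apply h2
    rw [h0] at hc
    have htop : Module.End.eigenspace A (-S) = ⊤ := by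
      have := hc.sup_eq_top
      rwa [bot_sup_eq] at this
    refine LinearMap.ext fun v => ?_
    have : v ∈ Module.End.eigenspace A (-S) := by rw [htop]; exact Submodule.mem_top
    exact (hmem _ _).1 this
  have hn : Module.End.eigenspace A (-S) ≠ ⊥ := by
    intro h0
    apply h1
    rw [h0] at hc
    have htop : Module.End.eigenspace A S = ⊤ := by
      have := hc.sup_eq_top
      rwa [sup_bot_eq] at this
    refine LinearMap.ext fun v => ?_
    have : v ∈ Module.End.eigenspace A S := by rw [htop]; exact Submodule.mem_top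
    exact (hmem _ _).1 this
  have hp1 : 0 < finrank ℂ (Module.End.eigenspace A S) := by
    rw [Nat.pos_iff_ne_zero, Ne, Submodule.finrank_eq_zero]
    exact hp
  have hn1 : 0 < finrank ℂ (Module.End.eigenspace A (-S)) := by
    rw [Nat.pos_iff_ne_zero, Ne, Submodule.finrank_eq_zero]
    exact hn
  by_cases h : finrank ℂ (Module.End.eigenspace A S) = 1
  · exact ⟨S, h⟩
  · exact ⟨-S, by omega⟩

/-- the cyclotomic polynomials -/
theorem cyc {V : Type} [AddCommGroup V] [Module ℂ V] (m : ℕ) (e : ℤ)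
    (hm : m = 3 ∧ e = -1 ∨ m = 4 ∧ e = 0) (B : Module.End ℂ V) (hB : B * B = (e : ℂ) • B - 1) :
    Polynomial.aeval B (Polynomial.cyclotomic m ℤ) = 0 := by
  rcases hm with ⟨rfl, rfl⟩ | ⟨rfl, rfl⟩
  · rw [Polynomial.cyclotomic_three, map_add, map_add, map_pow, Polynomial.aeval_X, map_one, sq, hB]
    push_cast
    module
  · have h4 : Polynomial.cyclotomic 4 ℤ = Polynomial.X ^ 2 + 1 := by
      have h := Polynomial.cyclotomic_prime_pow_eq_geom_sum (R := ℤ) (p := 2) (n := 1)
        Nat.prime_two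
      norm_num at h
      exact h
    rw [h4, map_add, map_pow, Polynomial.aeval_X, map_one, sq, hB]
    push_cast
    module

end vC_aux

open vC_aux SEU.uA_aux SEU.uR_aux

theorem vC_main (T : AV) (E : T.V →ₗ[ℝ] T.V →ₗ[ℝ] ℝ) (hE : IsRf T E) (h3 : finrank ℂ T.V = 3)
    (Z : Module.End ℝ T.V) (c : ℚ) (hZr : RatEnd T Z) (hZc : Cx Z) (hZs : IsSk E Z) (hc : 0 < c)
    (hZZ : Z * Z = -(c : ℝ) • 1) (ht : ∀ t : ℝ, mulI T ≠ t • Z)
    (hS : ∀ X : Module.End ℝ T.V, RatEnd T X → Cx X → Sy E X → Scal X)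
    (m : ℕ) (e : ℤ) (a b : ℚ) (hm : m = 3 ∧ e = -1 ∨ m = 4 ∧ e = 0) (hb : b ≠ 0)
    (hab : (2 * a : ℚ) = e ∧ a ^ 2 - c * b ^ 2 = e * a - 1) :
    ∃ (G : AV) (m : ℕ) (Z' : Module.End ℂ G.V), SEQ.Isg T G ∧ IsPic G m Z' ∧
      3 ≤ finrank ℂ G.V ∧ EndQ G Z' := by
  have hbC : (b : ℂ) ≠ 0 := by exact_mod_cast hb
  have hbR : (b : ℝ) ≠ 0 := by exact_mod_cast hb
  have hcR : (0 : ℝ) < c := by exact_mod_cast hc
  have hne : ∃ u : T.V, u ≠ 0 := by
    have : Nontrivial T.V := Module.nontrivial_of_finrank_pos (R := ℂ) (by rw [h3]; norm_num)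
    exact exists_ne 0
  set A : Module.End ℂ T.V := cl Z hZc with hA
  have hAv : ∀ v, A v = Z v := fun v => rfl
  have hAA : A * A = (-(c : ℂ)) • 1 := by
    refine LinearMap.ext fun v => ?_
    have h := LinearMap.congr_fun hZZ v
    rw [Module.End.mul_apply] at h
    rw [Module.End.mul_apply, hAv, hAv, h, LinearMap.smul_apply, LinearMap.smul_apply,
      Module.End.one_apply, Module.End.one_apply]
    have : (-(c : ℂ)) = ((-(c : ℝ) : ℝ) : ℂ) := by push_cast; rfl
    rw [this, Complex.coe_smul]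
  set W : Module.End ℂ T.V := (a : ℂ) • 1 + (b : ℂ) • A with hW
  have haC : (2 * a : ℂ) = e := by exact_mod_cast hab.1
  have hbC2 : (a : ℂ) ^ 2 - c * (b : ℂ) ^ 2 = e * a - 1 := by exact_mod_cast hab.2
  have hWW : W * W = (e : ℂ) • W - 1 := by
    have h1 : W * W = ((a : ℂ) ^ 2) • (1 : Module.End ℂ T.V) + (2 * a * b : ℂ) • A +
        ((b : ℂ) ^ 2) • (A * A) := by
      rw [hW]
      simp only [mul_add, add_mul, mul_smul_comm, smul_mul_assoc, mul_one, one_mul]
      module
    rw [h1, hAA, hW]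
    have h2 : ((a : ℂ) ^ 2) • (1 : Module.End ℂ T.V) + (2 * a * b : ℂ) • A +
        ((b : ℂ) ^ 2) • ((-(c : ℂ)) • (1 : Module.End ℂ T.V)) =
        ((a : ℂ) ^ 2 - c * (b : ℂ) ^ 2) • (1 : Module.End ℂ T.V) + ((2 * a : ℂ) * b) • A := by
      module
    rw [h2, hbC2, haC]
    module
  have hWr : RatEnd T (W.restrictScalars ℝ) := by
    have h1 : W.restrictScalars ℝ = (a : ℝ) • (1 : Module.End ℝ T.V) + (b : ℝ) • Z := by
      refine LinearMap.ext fun v => ?_
      show W v = _
      rw [hW, LinearMap.add_apply, LinearMap.smul_apply, LinearMap.smul_apply,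
        Module.End.one_apply, hAv, LinearMap.add_apply, LinearMap.smul_apply,
        LinearMap.smul_apply, Module.End.one_apply]
      have ha : (a : ℂ) = ((a : ℝ) : ℂ) := by push_cast; rfl
      have hb' : (b : ℂ) = ((b : ℝ) : ℂ) := by push_cast; rfl
      rw [ha, hb', Complex.coe_smul, Complex.coe_smul]
    rw [h1]
    exact rat_add (rat_smul rat_one a) (rat_smul hZr b)
  obtain ⟨G, ψ, hψ1, ⟨k, hk, hψ2⟩, hψ3⟩ := SEP.tLtz T e W hWr hWW
  let Z' : Module.End ℂ G.V := ψ.symm.toLinearMap ∘ₗ W ∘ₗ ψ.toLinearMap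
  have hZ' : ∀ v, Z' v = ψ.symm (W (ψ v)) := fun v => rfl
  have hfr : finrank ℂ G.V = 3 := by rw [ψ.finrank_eq, h3]
  refine ⟨G, m, Z', ⟨ψ.symm, fun v hv => ⟨k, hk, hψ2 v hv⟩⟩, ⟨?_, ?_, ?_, ?_⟩, hfr.ge, ?_⟩
  · rcases hm with ⟨h, -⟩ | ⟨h, -⟩
    · left
      exact ⟨h, by omega⟩
    · right
      exact ⟨h, by omega⟩
  · intro v hv
    exact hψ3 v hv
  · refine cyc m e hm Z' ?_
    refine LinearMap.ext fun v => ?_
    have h1 := LinearMap.congr_fun hWW (ψ v)
    rw [Module.End.mul_apply, LinearMap.sub_apply, LinearMap.smul_apply,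
      Module.End.one_apply] at h1
    rw [Module.End.mul_apply, hZ', hZ', ψ.apply_symm_apply, h1, map_sub, map_smul,
      ψ.symm_apply_apply, LinearMap.sub_apply, LinearMap.smul_apply, Module.End.one_apply, hZ']
  · -- the signature
    set S : ℂ := ((Real.sqrt c : ℝ) : ℂ) * Complex.I with hSd
    have hsq : (Real.sqrt c : ℝ) * Real.sqrt c = c := Real.mul_self_sqrt hcR.le
    have hsq0 : (Real.sqrt c : ℝ) ≠ 0 := (Real.sqrt_pos.2 hcR).ne'
    have hS0 : S ≠ 0 := mul_ne_zero (by exact_mod_cast hsq0) Complex.I_ne_zero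
    have hSS : S * S = -(c : ℂ) := by
      rw [hSd]
      have h1 : ((Real.sqrt c : ℝ) : ℂ) * ((Real.sqrt c : ℝ) : ℂ) = (c : ℂ) := by
        rw [← Complex.ofReal_mul, hsq]
        push_cast
        rfl
      linear_combination (Complex.I * Complex.I) * h1 + (c : ℂ) * Complex.I_mul_I
    have hnot : ∀ s : ℝ, s ≠ 0 → A ≠ ((s : ℂ) * Complex.I) • 1 := by
      intro s hs h
      apply ht s⁻¹
      refine LinearMap.ext fun v => ?_
      have h1 : Z v = ((s : ℂ) * Complex.I) • v := by
        have := LinearMap.congr_fun h v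
        rwa [hAv, LinearMap.smul_apply, Module.End.one_apply] at this
      rw [LinearMap.smul_apply, h1, mul_smul, Complex.coe_smul, smul_smul,
        inv_mul_cancel₀ hs, one_smul]
      rfl
    have h1 : A ≠ S • 1 := hnot _ hsq0
    have h2 : A ≠ (-S) • 1 := by
      have := hnot (-Real.sqrt c) (neg_ne_zero.2 hsq0)
      rw [Complex.ofReal_neg, neg_mul] at this
      exact this
    obtain ⟨s, hs⟩ := eig1 h3 A S hS0 (by rw [hAA, hSS]) h1 h2
    refine ⟨a + b * s, ?_⟩
    have h4 : (Module.End.eigenspace Z' (a + b * s)).map (ψ : G.V →ₗ[ℂ] T.V) =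
        Module.End.eigenspace A s := by
      ext v
      rw [Submodule.mem_map, Module.End.mem_eigenspace_iff]
      have h5 : ∀ v, W v = (a + b * s : ℂ) • v ↔ A v = s • v := by
        intro v
        rw [hW, LinearMap.add_apply, LinearMap.smul_apply, LinearMap.smul_apply,
          Module.End.one_apply, add_smul, add_right_inj, mul_smul]
        exact (smul_right_injective T.V hbC).eq_iff
      constructor
      · rintro ⟨u, hu, rfl⟩
        rw [Module.End.mem_eigenspace_iff, hZ'] at hu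
        have h6 := congrArg ψ hu
        rw [ψ.apply_symm_apply, map_smul] at h6
        exact (h5 _).1 h6
      · intro h6
        refine ⟨ψ.symm v, ?_, ψ.apply_symm_apply v⟩
        rw [Module.End.mem_eigenspace_iff, hZ', ψ.apply_symm_apply, (h5 v).2 h6, map_smul]
    rw [← hs, ← h4]
    exact (LinearEquiv.finrank_map_eq ψ _).symm
  · -- the endomorphisms
    intro X hX hXZ
    let Y : Module.End ℂ T.V := ψ.toLinearMap ∘ₗ X ∘ₗ ψ.symm.toLinearMap
    have hY : ∀ v, Y v = ψ (X (ψ.symm v)) := fun v => rfl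
    have hYr : RatEnd T (Y.restrictScalars ℝ) := by
      intro v hv
      obtain ⟨N, hN, h1⟩ := hX _ (hψ2 v hv)
      refine ⟨N * k, mul_ne_zero hN hk, ?_⟩
      have h2 := hψ1 _ h1
      have h3' : ψ (N • (X.restrictScalars ℝ) (k • ψ.symm v)) = (N * k) • Y v := by
        show ψ (N • X (k • ψ.symm v)) = _
        rw [map_nsmul, map_nsmul, map_nsmul, smul_smul, hY]
      rw [h3'] at h2
      exact h2
    have hYW : ∀ v, Y (W v) = W (Y v) := by
      intro v
      have h1 := LinearMap.congr_fun hXZ (ψ.symm v)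
      rw [Module.End.mul_apply, Module.End.mul_apply, hZ', hZ', ψ.apply_symm_apply] at h1
      have h2 := congrArg ψ h1
      rw [ψ.apply_symm_apply] at h2
      exact h2
    have hYA : ∀ v, Y (A v) = A (Y v) := by
      intro v
      have h1 := hYW v
      rw [hW, LinearMap.add_apply, LinearMap.add_apply, LinearMap.smul_apply,
        LinearMap.smul_apply, LinearMap.smul_apply, LinearMap.smul_apply, Module.End.one_apply,
        Module.End.one_apply, map_add, map_smul, map_smul, add_right_inj] at h1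
      exact smul_right_injective T.V hbC h1
    obtain ⟨p, q, hpq⟩ := comm_eq hE hZr hZc hZs hc hZZ hS hne hYr
      (fun v => by
        show Y (Complex.I • v) = Complex.I • Y v
        exact map_smul Y _ _)
      (LinearMap.ext fun v => hYA v)
    have hYv : ∀ v, Y v = (p : ℂ) • v + (q : ℂ) • A v := by
      intro v
      have h1 := LinearMap.congr_fun hpq v
      rw [LinearMap.add_apply, LinearMap.smul_apply, LinearMap.smul_apply,
        Module.End.one_apply] at h1
      have hp' : (p : ℂ) = ((p : ℝ) : ℂ) := by push_cast; rfl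
      have hq' : (q : ℂ) = ((q : ℝ) : ℂ) := by push_cast; rfl
      rw [hp', hq', Complex.coe_smul, Complex.coe_smul]
      exact h1
    refine ⟨Polynomial.C (p - q * a / b) + Polynomial.C (q / b) * Polynomial.X, ?_⟩
    rw [Polynomial.map_add, Polynomial.map_mul, Polynomial.map_C, Polynomial.map_C,
      Polynomial.map_X, map_add, map_mul, Polynomial.aeval_C, Polynomial.aeval_C,
      Polynomial.aeval_X]
    refine LinearMap.ext fun v => ?_
    apply ψ.injective
    have h1 : ψ (X v) = Y (ψ v) := by rw [hY, ψ.symm_apply_apply]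
    rw [h1, hYv, LinearMap.add_apply, Module.End.mul_apply, Module.algebraMap_end_apply,
      Module.algebraMap_end_apply, map_add, map_smul, map_smul, hZ', ψ.apply_symm_apply, hW,
      LinearMap.add_apply, LinearMap.smul_apply, LinearMap.smul_apply, Module.End.one_apply]
    simp only [eq_ratCast, Rat.cast_sub, Rat.cast_mul, Rat.cast_div]
    rw [smul_add, smul_smul, smul_smul, ← add_assoc, ← add_smul]
    congr 2
    · field_simp
      ring
    · field_simp

theorem tvC : S_vC := by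
  intro T E hE h3 Z c d hZr hZc hZs hc hZZ hcd ht hS
  have hd : d ≠ 0 := by
    rintro rfl
    rcases hcd with h | h
    · rw [h] at hc
      norm_num at hc
    · rw [h] at hc
      norm_num at hc
  rcases hcd with h | h
  · refine vC_main T E hE h3 Z c hZr hZc hZs hc hZZ ht hS 4 0 0 (1 / d) (Or.inr ⟨rfl, rfl⟩)
      (one_div_ne_zero hd) ⟨by norm_num, ?_⟩
    rw [h]
    field_simp
    ring
  · refine vC_main T E hE h3 Z c hZr hZc hZs hc hZZ ht hS 3 (-1) (-1 / 2) (1 / (2 * d))
      (Or.inl ⟨rfl, rfl⟩) (one_div_ne_zero (mul_ne_zero two_ne_zero hd)) ⟨by norm_num, ?_⟩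
    rw [h]
    field_simp
    ring

end SEV
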