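import Pool.Agent.Lib.SE.V.vA

/-!
# PROJECT SE-V, module vD: dimension 6, a Killing form in the exceptional case
-/

set_option autoImplicit false

open Module

noncomputable section

namespace SEV

open HC HC.E HC.SE SEB SES SEU

namespace vD_aux

open SEU.uP_aux vP_aux vA_aux

theorem mat3 (d : Fin 3 → ℂ) (hd : ∀ i, d i ≠ 0) (b y : Matrix (Fin 3) (Fin 3) ℂ)
    (hb : ∀ i j, d i * b i j + d j * b j i = 0) (hy : ∀ i j, d i * y i j + d j * y j i = 0) :
    b * y * b = ((1 / 2) * (b * y).trace) • b := by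
  have key : ∀ c : Matrix (Fin 3) (Fin 3) ℂ, (∀ i j, d i * c i j + d j * c j i = 0) →
      c 0 0 = 0 ∧ c 1 1 = 0 ∧ c 2 2 = 0 ∧ c 1 0 = -(d 0 * c 0 1) / d 1 ∧
      c 2 0 = -(d 0 * c 0 2) / d 2 ∧ c 2 1 = -(d 1 * c 1 2) / d 2 := by
    intro c hc
    have h0 : ∀ i, c i i = 0 := by
      intro i
      have h1 : (2 * d i) * c i i = 0 := by linear_combination hc i i
      exact (mul_eq_zero.mp h1).resolve_left (mul_ne_zero two_ne_zero (hd i))
    refine ⟨h0 0, h0 1, h0 2, ?_, ?_, ?_⟩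
    · rw [eq_div_iff (hd 1)]
      linear_combination hc 0 1
    · rw [eq_div_iff (hd 2)]
      linear_combination hc 0 2
    · rw [eq_div_iff (hd 2)]
      linear_combination hc 1 2
  obtain ⟨b0, b1, b2, b3, b4, b5⟩ := key b hb
  obtain ⟨y0, y1, y2, y3, y4, y5⟩ := key y hy
  have d0 := hd 0
  have d1 := hd 1
  have d2 := hd 2
  ext i j
  fin_cases i <;> fin_cases j <;>
    simp [Matrix.mul_apply, Fin.sum_univ_three, Matrix.trace, b0, b1, b2, b3, b4, b5, y0, y1, y2,
      y3, y4, y5] <;> field_simp <;> ring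

theorem end3 {W : Type} [AddCommGroup W] [Module ℂ W] [FiniteDimensional ℂ W]
    (hW : finrank ℂ W = 3) (γ : W →ₗ[ℂ] W →ₗ[ℂ] ℂ) (hs : ∀ u v, γ u v = γ v u)
    (hn : ∀ u, (∀ v, γ u v = 0) → u = 0) (b y : Module.End ℂ W)
    (hb : ∀ u v, γ (b u) v + γ u (b v) = 0) (hy : ∀ u v, γ (y u) v + γ u (y v) = 0) :
    b * y * b = ((1 / 2) * LinearMap.trace ℂ W (b * y)) • b := by
  have : Invertible (2 : ℂ) := invertibleOfNonzero two_ne_zero
  obtain ⟨v', hv'⟩ := LinearMap.BilinForm.exists_orthogonal_basis (B := γ)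
    (⟨fun u v => hs u v⟩)
  let v := v'.reindex (finCongr hW)
  have hv : ∀ i j, i ≠ j → γ (v i) (v j) = 0 := by
    intro i j hij
    have h := hv' ((finCongr hW).symm.injective.ne hij)
    rw [Basis.reindex_apply, Basis.reindex_apply]
    exact h
  have hrow : ∀ (c : Module.End ℂ W) (i j : Fin 3),
      γ (v i) (c (v j)) = γ (v i) (v i) * LinearMap.toMatrix v v c i j := by
    intro c i j
    conv_lhs => rw [← v.sum_repr (c (v j))]
    rw [map_sum, Finset.sum_eq_single i]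
    · rw [map_smul, smul_eq_mul, LinearMap.toMatrix_apply, mul_comm]
    · intro k _ hk
      rw [map_smul, hv i k (Ne.symm hk), smul_zero]
    · intro h
      exact absurd (Finset.mem_univ i) h
  have hd : ∀ i, γ (v i) (v i) ≠ 0 := by
    intro i h
    apply v.ne_zero i
    apply hn
    intro w
    rw [← v.sum_repr w, map_sum]
    apply Finset.sum_eq_zero
    intro k _
    rw [map_smul]
    by_cases hk : i = k
    · rw [← hk, h, smul_zero]
    · rw [hv i k hk, smul_zero]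
  have hm : ∀ c : Module.End ℂ W, (∀ u v, γ (c u) v + γ u (c v) = 0) → ∀ i j,
      γ (v i) (v i) * LinearMap.toMatrix v v c i j + γ (v j) (v j) * LinearMap.toMatrix v v c j i
        = 0 := by
    intro c hc i j
    rw [← hrow, ← hrow, hs (v j) (c (v i)), add_comm]
    exact hc _ _
  have h := mat3 (fun i => γ (v i) (v i)) hd (LinearMap.toMatrix v v b)
    (LinearMap.toMatrix v v y) (hm b hb) (hm y hy)
  apply (LinearMap.toMatrix v v).injective
  rw [LinearMap.toMatrix_mul, LinearMap.toMatrix_mul, h, map_smul,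
    LinearMap.trace_eq_matrix_trace ℂ v, LinearMap.toMatrix_mul]

/-- `(ad b)³ y = (tr(b²)/2) [b, y]` -/
theorem ad3 {W : Type} [AddCommGroup W] [Module ℂ W] [FiniteDimensional ℂ W]
    (hW : finrank ℂ W = 3) (γ : W →ₗ[ℂ] W →ₗ[ℂ] ℂ) (hs : ∀ u v, γ u v = γ v u)
    (hn : ∀ u, (∀ v, γ u v = 0) → u = 0) (b y : Module.End ℂ W)
    (hb : ∀ u v, γ (b u) v + γ u (b v) = 0) (hy : ∀ u v, γ (y u) v + γ u (y v) = 0) :
    b * (b * (b * y - y * b) - (b * y - y * b) * b) -
      (b * (b * y - y * b) - (b * y - y * b) * b) * b =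
      ((1 / 2) * LinearMap.trace ℂ W (b * b)) • (b * y - y * b) := by
  have e1 := end3 hW γ hs hn b b hb hb
  have e2 := end3 hW γ hs hn b y hb hy
  have h : b * (b * (b * y - y * b) - (b * y - y * b) * b) -
      (b * (b * y - y * b) - (b * y - y * b) * b) * b =
      (b * b * b) * y - (3 : ℂ) • (b * (b * y * b)) + (3 : ℂ) • ((b * y * b) * b) -
        y * (b * b * b) := by
    have h3 : ∀ z : Module.End ℂ W, (3 : ℂ) • z = z + z + z := by
      intro z
      module
    rw [h3, h3]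
    noncomm_ring
  rw [h, e1, e2, smul_mul_assoc, mul_smul_comm, smul_mul_assoc, mul_smul_comm, smul_sub]
  abel

variable {V : Type} [AddCommGroup V] [Module ℂ V]
variable {g : Submodule ℂ (Module.End ℂ V)} {ω : V →ₗ[ℂ] V →ₗ[ℂ] ℂ} {J : Module.End ℂ V}
  {σ : V →ₛₗ[starRingEnd ℂ] V}

/-- the trace of an operator which commutes with `J` and `Q` -/
theorem tr2 [FiniteDimensional ℂ V] (hV : finrank ℂ V = 6) (H : Cfg g ω J σ)
    {Q : Module.End ℂ V} (hQ1 : ∀ v, Q v ∈ Wp J) (hQi : ∀ w ∈ Wm J, Q w = 0 → w = 0)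
    {C : Module.End ℂ V} (hCp : ∀ v ∈ Wp J, C v ∈ Wp J) (hCm : ∀ v ∈ Wm J, C v ∈ Wm J)
    (hCQ : C * Q = Q * C) :
    LinearMap.trace ℂ V C = 2 * LinearMap.trace ℂ (Wm J) (C.restrict hCm) := by
  let e := Submodule.prodEquivOfIsCompl (Wp J) (Wm J) (isCompl H.JJ)
  have h1 : C = e.conj (LinearMap.prodMap (C.restrict hCp) (C.restrict hCm)) := by
    apply LinearMap.ext
    intro v
    obtain ⟨x, rfl⟩ := e.surjective v
    rw [LinearEquiv.conj_apply_apply, e.symm_apply_apply]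
    show C ((x.1 : V) + (x.2 : V)) = C x.1 + C x.2
    rw [map_add]
  let q : Wm J →ₗ[ℂ] Wp J := LinearMap.restrict Q (fun v _ => hQ1 v)
  have hq : Function.Injective q := by
    rw [injective_iff_map_eq_zero]
    intro x hx
    exact Subtype.ext (hQi x x.2 (congrArg Subtype.val hx))
  let f := LinearMap.linearEquivOfInjective q hq (by rw [frm hV H, frp hV H])
  have h2 : C.restrict hCp = f.conj (C.restrict hCm) := by
    apply LinearMap.ext
    intro v
    obtain ⟨x, rfl⟩ := f.surjective v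
    rw [LinearEquiv.conj_apply_apply, f.symm_apply_apply]
    apply Subtype.ext
    show C (Q x) = Q (C x)
    exact LinearMap.congr_fun hCQ (x : V)
  conv_lhs => rw [h1]
  rw [LinearMap.trace_conj', LinearMap.trace_prodMap', h2, LinearMap.trace_conj']
  ring

theorem main [FiniteDimensional ℂ V] (hV : finrank ℂ V = 6) (H : Cfg g ω J σ)
    {Q : Module.End ℂ V} (hQ : Bad g J Q) {B : Module.End ℂ V} (hB : B ∈ g)
    (hBJ : B * J = J * B) (hBQ : B * Q = Q * B)
    (hBm : ∀ C ∈ g, J * C - C * J = -((2 * Complex.I) • C) → B * C = C * B)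
    {Y : Module.End ℂ V} (hY : Y ∈ g) :
    B * (B * (B * Y - Y * B) - (B * Y - Y * B) * B) -
      (B * (B * Y - Y * B) - (B * Y - Y * B) * B) * B =
      (Tr2 B B / 4) • (B * Y - Y * B) := by
  obtain ⟨hQ1, hQ2⟩ := (degP H.JJ).mp hQ.deg
  have hQi : ∀ w ∈ Wm J, Q w = 0 → w = 0 := fun w hw h => hQ.inj w (mem_Wm.mp hw) h
  have hBc : ∀ v, J (B v) = B (J v) := fun v => (LinearMap.congr_fun hBJ v).symm
  obtain ⟨Y0, hY0, YP, hYP, YM, hYM, hsum, h0⟩ := comp' H hY
  have e1 : B * YP = YP * B := by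
    obtain ⟨c, hc⟩ := hQ.one YP hYP.1 ((degP H.JJ).mpr ⟨hYP.2.1, hYP.2.2⟩)
    rw [hc, mul_smul_comm, smul_mul_assoc, hBQ]
  have e2 : B * YM = YM * B := hBm YM hYM.1 ((degM H.JJ).mpr ⟨hYM.2.1, hYM.2.2⟩)
  have e3 : B * Y - Y * B = B * Y0 - Y0 * B := by
    rw [hsum]
    have h : B * (Y0 + YP + YM) - (Y0 + YP + YM) * B = (B * Y0 - Y0 * B) + (B * YP - YP * B) +
        (B * YM - YM * B) := by noncomm_ring
    rw [h, e1, e2, sub_self, sub_self, add_zero, add_zero]
  rw [e3]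
  -- the bracket with `Q`
  have hbr := br0p H.lie hY0 h0 ⟨hQ.mem, hQ1, hQ2⟩
  obtain ⟨χ, hχ⟩ := hQ.one _ hbr.1 ((degP H.JJ).mpr ⟨hbr.2.1, hbr.2.2⟩)
  have hχ' : ∀ v, Y0 (Q v) = Q (Y0 v) + χ • Q v := by
    intro v
    have h := LinearMap.congr_fun hχ v
    rw [LinearMap.sub_apply, Module.End.mul_apply, Module.End.mul_apply,
      LinearMap.smul_apply] at h
    rw [← h]
    abel
  have hBm' : ∀ v ∈ Wm J, B v ∈ Wm J := fun v hv => zm hBc hv
  have hBp' : ∀ v ∈ Wp J, B v ∈ Wp J := fun v hv => zp hBc hv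
  have hYm' : ∀ v ∈ Wm J, (Y0 + (χ / 2) • (1 : Module.End ℂ V)) v ∈ Wm J :=
    fun v hv => (Wm J).add_mem (zm h0 hv) ((Wm J).smul_mem _ hv)
  let b : Module.End ℂ (Wm J) := B.restrict hBm'
  let y : Module.End ℂ (Wm J) := (Y0 + (χ / 2) • (1 : Module.End ℂ V)).restrict hYm'
  let γ : Wm J →ₗ[ℂ] Wm J →ₗ[ℂ] ℂ := LinearMap.domRestrict₁₂ (ω ∘ₗ Q) (Wm J) (Wm J)
  have hγ : ∀ u v : Wm J, γ u v = ω (Q u) v := fun u v => rfl
  have hs : ∀ u v, γ u v = γ v u := by
    intro u v
    rw [hγ, hγ]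
    have h := H.skw Q hQ.mem u v
    rw [om_swap H.smp (u : V) (Q v)] at h
    linear_combination h
  have hn : ∀ u, (∀ v, γ u v = 0) → u = 0 := by
    intro u hu
    apply Subtype.ext
    apply hQi u u.2
    apply H.smp.2
    intro v
    obtain ⟨p, hp, m, hm, rfl⟩ := dec H.JJ v
    rw [map_add, om_pp (H.skw J H.mJ) (hQ1 _) hp, zero_add]
    exact hu ⟨m, hm⟩
  have hb : ∀ u v, γ (b u) v + γ u (b v) = 0 := by
    intro u v
    rw [hγ, hγ]
    show ω (Q (B u)) v + ω (Q u) (B v) = 0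
    have h : Q (B u) = B (Q u) := (LinearMap.congr_fun hBQ (u : V)).symm
    rw [h]
    exact H.skw B hB _ _
  have hy : ∀ u v, γ (y u) v + γ u (y v) = 0 := by
    intro u v
    rw [hγ, hγ]
    show ω (Q ((Y0 + (χ / 2) • (1 : Module.End ℂ V)) u)) v +
      ω (Q u) ((Y0 + (χ / 2) • (1 : Module.End ℂ V)) v) = 0
    have h := H.skw Y0 hY0 (Q u) v
    rw [hχ' u] at h
    simp only [LinearMap.add_apply, LinearMap.smul_apply, Module.End.one_apply, map_add, map_smul,
      smul_eq_mul] at h ⊢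
    linear_combination h
  have h3 := ad3 (frm hV H) γ hs hn b y hb hy
  have htr : Tr2 B B / 4 = (1 / 2) * LinearMap.trace ℂ (Wm J) (b * b) := by
    have h := tr2 hV H hQ1 hQi (C := B * B) (fun v hv => hBp' _ (hBp' v hv))
      (fun v hv => hBm' _ (hBm' v hv)) (by
        rw [mul_assoc, hBQ, ← mul_assoc, hBQ, mul_assoc])
    unfold Tr2
    rw [h]
    have h4 : (B * B).restrict (fun v hv => hBm' _ (hBm' v hv)) = b * b := rfl
    rw [h4]
    ring
  set q := Tr2 B B / 4 with hq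
  rw [← htr] at h3
  -- on `W⁻`
  set D := B * (B * (B * Y0 - Y0 * B) - (B * Y0 - Y0 * B) * B) -
      (B * (B * Y0 - Y0 * B) - (B * Y0 - Y0 * B) * B) * B - q • (B * Y0 - Y0 * B) with hD
  have hDm : ∀ w ∈ Wm J, D w = 0 := by
    intro w hw
    have h := congrArg Subtype.val (LinearMap.congr_fun h3 ⟨w, hw⟩)
    have hby : ∀ w : Wm J, ((b w : Wm J) : V) = B w := fun w => rfl
    have hyy : ∀ w : Wm J, ((y w : Wm J) : V) = Y0 w + (χ / 2) • (w : V) := fun w => rfl
    simp only [LinearMap.sub_apply, Module.End.mul_apply, LinearMap.smul_apply, hby, hyy,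
      AddSubgroupClass.coe_sub, SetLike.val_smul, map_add, map_smul, map_sub] at h
    rw [hD]
    simp only [LinearMap.sub_apply, Module.End.mul_apply, LinearMap.smul_apply, map_sub]
    linear_combination (norm := module) h
  have hDQ : D * Q = Q * D := by
    have hA : (B * Y0 - Y0 * B) * Q = Q * (B * Y0 - Y0 * B) := by
      have hYQ : Y0 * Q = Q * Y0 + χ • Q := by
        rw [← hχ]
        abel
      calc (B * Y0 - Y0 * B) * Q = B * (Y0 * Q) - Y0 * (B * Q) := by noncomm_ring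
        _ = B * (Q * Y0 + χ • Q) - Y0 * (Q * B) := by rw [hYQ, hBQ]
        _ = (B * Q) * Y0 + χ • (B * Q) - (Y0 * Q) * B := by
          rw [mul_add, mul_smul_comm, mul_assoc, mul_assoc]
        _ = (Q * B) * Y0 + χ • (Q * B) - (Q * Y0 + χ • Q) * B := by rw [hYQ, hBQ]
        _ = Q * (B * Y0 - Y0 * B) := by
          rw [add_mul, smul_mul_assoc]
          noncomm_ring
    have cB : Commute B Q := hBQ
    have cA : Commute (B * Y0 - Y0 * B) Q := hA
    have cA2 : Commute (B * (B * Y0 - Y0 * B) - (B * Y0 - Y0 * B) * B) Q :=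
      (cB.mul_left cA).sub_left (cA.mul_left cB)
    exact (((cB.mul_left cA2).sub_left (cA2.mul_left cB)).sub_left (cA.smul_left q)).eq
  have hD0 : D = 0 := by
    apply LinearMap.ext
    intro v
    obtain ⟨p, hp, m, hm, rfl⟩ := dec H.JJ v
    rw [map_add, hDm m hm, add_zero, LinearMap.zero_apply]
    let f : Wm J →ₗ[ℂ] Wp J := LinearMap.restrict Q (fun v _ => hQ1 v)
    have hf : Function.Injective f := by
      rw [injective_iff_map_eq_zero]
      intro x hx
      exact Subtype.ext (hQi x x.2 (congrArg Subtype.val hx))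
    let e := LinearMap.linearEquivOfInjective f hf (by rw [frm hV H, frp hV H])
    obtain ⟨x, hx⟩ := e.surjective ⟨p, hp⟩
    have hxp : Q (x : V) = p := congrArg Subtype.val hx
    have h := LinearMap.congr_fun hDQ (x : V)
    rw [Module.End.mul_apply, Module.End.mul_apply, hxp, hDm x x.2, map_zero] at h
    exact h
  rw [hD, sub_eq_zero] at hD0
  exact hD0

theorem idTr {W : Type} [AddCommGroup W] [Module ℂ W] [FiniteDimensional ℂ W]
    (f : Module.End ℂ W) (hf : IsIdempotentElem f) : ∃ k : ℕ, LinearMap.trace ℂ W f = k := by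
  have h := (LinearMap.isProj_range_iff_isIdempotentElem f).mpr hf
  exact ⟨_, LinearMap.IsProj.trace h⟩

end vD_aux

open SEU.uP_aux vP_aux vA_aux vD_aux

theorem tvD : S_vD := by
  intro V _ _ _ g ω J σ hV H Q hQ B hB hBJ hBQ hBm hT
  set c : ℂ := Tr2 B B / 4 with hc
  have hc0 : c ≠ 0 := div_ne_zero hT (by norm_num)
  set A := adg H.lie ⟨B, hB⟩ with hA
  have h3 : ∀ Y : g, A (A (A Y)) = c • A Y := by
    intro Y
    apply Subtype.ext
    rw [SetLike.val_smul, hA, adg_coe, adg_coe, adg_coe]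
    exact main hV H hQ hB hBJ hBQ hBm Y.2
  have hS : (A * A) * (A * A) = c • (A * A) := by
    apply LinearMap.ext
    intro Y
    rw [Module.End.mul_apply, Module.End.mul_apply, Module.End.mul_apply, h3,
      LinearMap.smul_apply, Module.End.mul_apply]
  have hid : IsIdempotentElem (c⁻¹ • (A * A)) := by
    unfold IsIdempotentElem
    rw [smul_mul_assoc, mul_smul_comm, hS, smul_smul c⁻¹ c, inv_mul_cancel₀ hc0, one_smul]
  obtain ⟨k, htr⟩ := idTr _ hid
  refine ⟨k, ?_⟩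
  rw [map_smul, smul_eq_mul] at htr
  show LinearMap.trace ℂ g (A * A) = _
  have h4 : LinearMap.trace ℂ g (A * A) = c * (c⁻¹ * LinearMap.trace ℂ g (A * A)) := by
    rw [← mul_assoc, mul_inv_cancel₀ hc0, one_mul]
  rw [h4, htr, hc]
  ring

end SEV
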