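import Pool.Agent.Lib.SE.V.Spec
import Pool.Agent.Lib.SE.U.uL
import Pool.Agent.Lib.SE.U.uR

/-!
# PROJECT SE-V, module vG: irreducible minimal polynomial, real multiplication (helper2)
-/

set_option autoImplicit false

open Module

noncomputable section

namespace SEV

open HC HC.E HC.SE SEB SES SEU

namespace vG_aux

/-- A monic rational polynomial all of whose complex roots are roots of the irreducible `f` is a power of `f`. -/
theorem pow_of_roots (f : Polynomial ℚ) (hf : Irreducible f) (hfm : f.Monic) :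
    ∀ (n : ℕ) (c : Polynomial ℚ), c.natDegree = n → c.Monic →
      (∀ z : ℂ, Polynomial.aeval z c = 0 → Polynomial.aeval z f = 0) → ∃ k : ℕ, c = f ^ k := by
  intro n
  induction n using Nat.strong_induction_on with
  | _ n ih =>
    intro c hn hc h
    by_cases h0 : c.natDegree = 0
    · exact ⟨0, by rw [pow_zero]; exact (Polynomial.Monic.natDegree_eq_zero hc).1 h0⟩
    · have hdeg : c.degree ≠ 0 := by
        intro hd
        exact h0 (Polynomial.natDegree_eq_of_degree_eq_some hd)
      obtain ⟨z, hz⟩ := IsAlgClosed.exists_aeval_eq_zero ℂ c hdeg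
      have h1 : f = minpoly ℚ z := minpoly.eq_of_irreducible_of_monic hf (h z hz) hfm
      have h2 : f ∣ c := by
        rw [h1]
        exact minpoly.dvd ℚ z hz
      obtain ⟨c', rfl⟩ := h2
      have hc' : c'.Monic := Polynomial.Monic.of_mul_monic_left hfm hc
      have h3 : (f * c').natDegree = f.natDegree + c'.natDegree := hfm.natDegree_mul hc'
      have h4 : 0 < f.natDegree := hf.natDegree_pos
      obtain ⟨k, hk⟩ := ih c'.natDegree (by omega) c' rfl hc' fun w hw => h w (by
        rw [map_mul, hw, mul_zero])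
      exact ⟨k + 1, by rw [hk, pow_succ, mul_comm]⟩

/-- The matrix of a rational endomorphism. -/
theorem ex_mat {T : AV} {X : Module.End ℝ T.V} (hX : RatEnd T X) :
    ∃ A : Matrix (Free.ChooseBasisIndex ℤ T.L) (Free.ChooseBasisIndex ℤ T.L) ℚ,
      LinearMap.toMatrixAlgEquiv (uL_aux.bs T) X = A.map (algebraMap ℚ ℝ) := by
  choose a ha using uL_aux.ent hX
  refine ⟨Matrix.of a, ?_⟩
  ext i j
  rw [LinearMap.toMatrixAlgEquiv_apply, ha, Matrix.map_apply, Matrix.of_apply]
  rfl

/-- `f(A) = 0`. -/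
theorem aeval_mat {n : Type} [Fintype n] [DecidableEq n] (A : Matrix n n ℚ) (f : Polynomial ℚ)
    (h : Polynomial.aeval (A.map (algebraMap ℚ ℝ)) (f.map (algebraMap ℚ ℝ)) = 0) :
    Polynomial.aeval A f = 0 := by
  have h1 : Polynomial.aeval (A.map (algebraMap ℚ ℝ)) f = 0 := by
    rw [← Polynomial.aeval_map_algebraMap ℝ]
    exact h
  have h2 : A.map (algebraMap ℚ ℝ) = (Algebra.ofId ℚ ℝ).mapMatrix A := rfl
  rw [h2, Polynomial.aeval_algHom_apply] at h1
  have h3 : (Polynomial.aeval A f).map (algebraMap ℚ ℝ) = (0 : Matrix n n ℚ).map (algebraMap ℚ ℝ) := by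
    rw [Matrix.map_zero _ (map_zero _)]
    exact h1
  exact Matrix.map_injective (algebraMap ℚ ℝ).injective h3

/-- The complex roots of the characteristic polynomial are roots of `f`. -/
theorem root_mat {n : Type} [Fintype n] [DecidableEq n] [Nonempty n] (A : Matrix n n ℚ)
    (f : Polynomial ℚ) (h : Polynomial.aeval A f = 0) (z : ℂ)
    (hz : Polynomial.aeval z A.charpoly = 0) : Polynomial.aeval z f = 0 := by
  have h1 : (A.map (algebraMap ℚ ℂ)).charpoly.IsRoot z := by
    have h2 : (A.map (algebraMap ℚ ℂ)).charpoly = A.charpoly.map (algebraMap ℚ ℂ) :=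
      Matrix.charpoly_map A (algebraMap ℚ ℂ)
    rw [h2, Polynomial.IsRoot.def, Polynomial.eval_map_algebraMap]
    exact hz
  have h2 : z ∈ spectrum ℂ (A.map (algebraMap ℚ ℂ)) := Matrix.mem_spectrum_iff_isRoot_charpoly.2 h1
  have h3 := spectrum.subset_polynomial_aeval (𝕜 := ℂ) (A.map (algebraMap ℚ ℂ))
    (f.map (algebraMap ℚ ℂ)) ⟨z, h2, rfl⟩
  have h4 : Polynomial.aeval (A.map (algebraMap ℚ ℂ)) (f.map (algebraMap ℚ ℂ)) = 0 := by
    rw [Polynomial.aeval_map_algebraMap]
    have h5 : A.map (algebraMap ℚ ℂ) = (Algebra.ofId ℚ ℂ).mapMatrix A := rfl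
    rw [h5, Polynomial.aeval_algHom_apply, h, map_zero]
  rw [h4, spectrum.zero_eq, Set.mem_singleton_iff] at h3
  rw [← Polynomial.eval_map_algebraMap]
  exact h3

/-- The characteristic polynomial of a complex linear map, over the reals, is nonnegative. -/
theorem char_nonneg {T : AV} (X : Module.End ℝ T.V) (hX : Cx X) (t : ℝ) :
    0 ≤ (LinearMap.charpoly X).eval t := by
  rw [LinearMap.eval_charpoly]
  have h1 : (algebraMap ℝ (Module.End ℝ T.V) t - X) =
      (algebraMap ℂ (Module.End ℂ T.V) (t : ℂ) - uR_aux.cl X hX).restrictScalars ℝ := by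
    refine LinearMap.ext fun v => ?_
    rw [LinearMap.sub_apply, Module.algebraMap_end_apply]
    change t • v - X v = (algebraMap ℂ (Module.End ℂ T.V) (t : ℂ)) v - X v
    rw [Module.algebraMap_end_apply, Complex.coe_smul]
  rw [h1, LinearMap.det_restrictScalars, Algebra.norm_complex_apply]
  exact Complex.normSq_nonneg _

/-- Evaluation. -/
theorem ev_eq {T : AV} (X : Module.End ℝ T.V) (h : Cx X) (g : Polynomial ℚ) :
    (uR_aux.ev X h g).restrictScalars ℝ = Polynomial.aeval X (g.map (algebraMap ℚ ℝ)) := by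
  induction g using Polynomial.induction_on' with
  | add f g hf hg =>
    rw [Polynomial.map_add, map_add, map_add, ← hf, ← hg]
    rfl
  | monomial n a =>
    refine LinearMap.ext fun v => ?_
    rw [Polynomial.map_monomial, Polynomial.aeval_monomial, ← Polynomial.C_mul_X_pow_eq_monomial,
      map_mul, map_pow, uR_aux.ev_C, uR_aux.ev_X]
    change (algebraMap ℂ (Module.End ℂ T.V) (a : ℂ)) ((uR_aux.cl X h ^ n) v) =
      (algebraMap ℝ (Module.End ℝ T.V) (algebraMap ℚ ℝ a)) ((X ^ n) v)
    rw [Module.algebraMap_end_apply, Module.algebraMap_end_apply, uR_aux.cl_pow,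
      ← Complex.coe_smul]
    norm_num

/-- All complex roots are real. -/
theorem real_root (f : Polynomial ℚ) (s : Finset ℝ)
    (h : f.map (algebraMap ℚ ℝ) = ∏ a ∈ s, (Polynomial.X - Polynomial.C a)) (z : ℂ)
    (hz : Polynomial.aeval z f = 0) : (starRingEnd ℂ) z = z := by
  have h1 : Polynomial.aeval z (f.map (algebraMap ℚ ℝ)) = 0 := by
    rw [Polynomial.aeval_map_algebraMap]
    exact hz
  rw [h, map_prod, Finset.prod_eq_zero_iff] at h1
  obtain ⟨a, _, ha⟩ := h1
  rw [map_sub, Polynomial.aeval_X, Polynomial.aeval_C, sub_eq_zero] at ha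
  rw [ha]
  exact Complex.conj_ofReal a

/-- The field is totally real. -/
theorem tot_real (f : Polynomial ℚ) [hf : Fact (Irreducible f)]
    (hr : ∀ z : ℂ, Polynomial.aeval z f = 0 → (starRingEnd ℂ) z = z) :
    NumberField.IsTotallyReal (AdjoinRoot f) := by
  refine ⟨fun v => ?_⟩
  rw [NumberField.InfinitePlace.isReal_iff, NumberField.ComplexEmbedding.isReal_iff]
  set φ := v.embedding with hφ
  have hC : ∀ (ψ : AdjoinRoot f →+* ℂ) (a : ℚ),
      ψ (AdjoinRoot.mk f (Polynomial.C a)) = (a : ℂ) := fun ψ a =>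
    eq_ratCast ((ψ.comp (AdjoinRoot.mk f)).comp Polynomial.C) a
  have hg : ∀ g : Polynomial ℚ, φ (AdjoinRoot.mk f g) =
      Polynomial.aeval (φ (AdjoinRoot.mk f Polynomial.X)) g := by
    intro g
    have h1 : φ.comp (AdjoinRoot.mk f) =
        (Polynomial.aeval (R := ℚ) (φ (AdjoinRoot.mk f Polynomial.X))).toRingHom := by
      refine Polynomial.ringHom_ext (fun a => ?_) ?_
      · change φ (AdjoinRoot.mk f _) = Polynomial.aeval _ (Polynomial.C a)
        rw [hC, Polynomial.aeval_C]
        exact (eq_ratCast (algebraMap ℚ ℂ) a).symm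
      · change φ (AdjoinRoot.mk f _) = Polynomial.aeval _ Polynomial.X
        rw [Polynomial.aeval_X]
    exact RingHom.congr_fun h1 g
  have hroot : Polynomial.aeval (φ (AdjoinRoot.mk f Polynomial.X)) f = 0 := by
    rw [← hg, AdjoinRoot.mk_self, map_zero]
  refine RingHom.ext fun x => ?_
  obtain ⟨g, rfl⟩ := AdjoinRoot.mk_surjective x
  have h3 : ((NumberField.ComplexEmbedding.conjugate φ).comp (AdjoinRoot.mk f)) =
      φ.comp (AdjoinRoot.mk f) := by
    refine Polynomial.ringHom_ext (fun a => ?_) ?_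
    · change (NumberField.ComplexEmbedding.conjugate φ) (AdjoinRoot.mk f _) =
        φ (AdjoinRoot.mk f _)
      rw [hC, hC]
    · exact hr _ hroot
  exact RingHom.congr_fun h3 g

/-- Real multiplication. -/
theorem rm {T : AV} (X : Module.End ℝ T.V) (hr : RatEnd T X) (hX : Cx X) (s : Finset ℝ)
    (f : Polynomial ℚ) (hm : minpoly ℝ X = ∏ a ∈ s, (Polynomial.X - Polynomial.C a))
    (hf : minpoly ℝ X = f.map (algebraMap ℚ ℝ)) (hi : Irreducible f)
    (hd : f.natDegree = finrank ℂ T.V) : IsRM T := by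
  have : Fact (Irreducible f) := ⟨hi⟩
  have : NumberField.IsTotallyReal (AdjoinRoot f) := tot_real f (real_root f s (hf.symm.trans hm))
  have hev : uR_aux.ev X hX f = 0 := by
    refine LinearMap.ext fun v => ?_
    have h1 := LinearMap.congr_fun (ev_eq X hX f) v
    rw [← hf, minpoly.aeval] at h1
    exact h1
  have hker : ∀ a ∈ Ideal.span {f}, uR_aux.ev X hX a = 0 := by
    intro a ha
    obtain ⟨k, rfl⟩ := Ideal.mem_span_singleton'.1 ha
    rw [map_mul, hev, mul_zero]
  let ι : AdjoinRoot f →+* Module.End ℂ T.V :=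
    Ideal.Quotient.lift (Ideal.span {f}) (uR_aux.ev X hX) hker
  have hι : ∀ g, ι (AdjoinRoot.mk f g) = uR_aux.ev X hX g := fun g => rfl
  refine ⟨AdjoinRoot f, inferInstance, inferInstance, inferInstance, ι, ?_, fun x => ?_⟩
  · have h1 := (AdjoinRoot.powerBasis hi.ne_zero).finrank
    rw [AdjoinRoot.powerBasis_dim, hd] at h1
    exact h1
  · obtain ⟨g, rfl⟩ := AdjoinRoot.mk_surjective x
    rw [hι]
    exact uR_aux.rat_ev X hX hr g

/-- Two eigenvalues are impossible. -/
theorem not_two {T : AV} (hT : finrank ℂ T.V = 3) (X : Module.End ℝ T.V) (hr : RatEnd T X)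
    (hX : Cx X) (a b : ℝ) (hab : a ≠ b) (f : Polynomial ℚ)
    (hm : minpoly ℝ X = (Polynomial.X - Polynomial.C a) * (Polynomial.X - Polynomial.C b))
    (hfm : f.Monic) (hf : minpoly ℝ X = f.map (algebraMap ℚ ℝ)) (hi : Irreducible f) : False := by
  classical
  obtain ⟨A, hA⟩ := ex_mat hr
  have hfin : finrank ℝ T.V = 6 := by
    have h1 := finrank_real_of_complex T.V
    omega
  have hcard : Fintype.card (Free.ChooseBasisIndex ℤ T.L) = 6 := by
    rw [← hfin, finrank_eq_card_basis (uL_aux.bs T)]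
  have : Nonempty (Free.ChooseBasisIndex ℤ T.L) := Fintype.card_pos_iff.1 (by omega)
  have h1 : Polynomial.aeval (A.map (algebraMap ℚ ℝ)) (f.map (algebraMap ℚ ℝ)) = 0 := by
    rw [← hA, ← hf]
    have h2 := Polynomial.aeval_algHom_apply (LinearMap.toMatrixAlgEquiv (uL_aux.bs T)).toAlgHom
      X (minpoly ℝ X)
    rw [minpoly.aeval, map_zero] at h2
    exact h2
  have h2 := aeval_mat A f h1
  obtain ⟨k, hk⟩ := pow_of_roots f hi hfm _ A.charpoly rfl (Matrix.charpoly_monic A)
    (root_mat A f h2)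
  have hdf : f.natDegree = 2 := by
    have h3 : (f.map (algebraMap ℚ ℝ)).natDegree = 2 := by
      rw [← hf, hm, Polynomial.natDegree_mul (Polynomial.X_sub_C_ne_zero a)
        (Polynomial.X_sub_C_ne_zero b), Polynomial.natDegree_X_sub_C, Polynomial.natDegree_X_sub_C]
    rwa [Polynomial.natDegree_map] at h3
  have hk3 : k = 3 := by
    have h3 : A.charpoly.natDegree = 6 := by
      rw [Matrix.charpoly_natDegree_eq_dim, hcard]
    rw [hk, hfm.natDegree_pow, hdf] at h3
    omega
  have h4 : LinearMap.charpoly X = (f.map (algebraMap ℚ ℝ)) ^ 3 := by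
    rw [← LinearMap.charpoly_toMatrix X (uL_aux.bs T)]
    have h5 : LinearMap.toMatrix (uL_aux.bs T) (uL_aux.bs T) X = A.map (algebraMap ℚ ℝ) := hA
    rw [h5]
    have h6 : (A.map (algebraMap ℚ ℝ)).charpoly = A.charpoly.map (algebraMap ℚ ℝ) :=
      Matrix.charpoly_map A (algebraMap ℚ ℝ)
    rw [h6, hk, hk3, Polynomial.map_pow]
  have h5 := char_nonneg X hX ((a + b) / 2)
  rw [h4, ← hf, hm, Polynomial.eval_pow, Polynomial.eval_mul, Polynomial.eval_sub,
    Polynomial.eval_sub, Polynomial.eval_X, Polynomial.eval_C, Polynomial.eval_C] at h5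
  have h6 : ((a + b) / 2 - a) * ((a + b) / 2 - b) = -((a - b) / 2) ^ 2 := by ring
  rw [h6] at h5
  have h7 : 0 < ((a - b) / 2) ^ 2 := by
    have : a - b ≠ 0 := sub_ne_zero.2 hab
    positivity
  have h8 : 0 < (((a - b) / 2) ^ 2) ^ 3 := by positivity
  have h9 : (-((a - b) / 2) ^ 2) ^ 3 = -(((a - b) / 2) ^ 2) ^ 3 := by ring
  rw [h9] at h5
  linarith

end vG_aux

open vG_aux in
/-- IRREDUCIBLE MINIMAL POLYNOMIAL. -/
theorem tvG : S_vG := by
  intro T hT X hr hX hns s f hs hm hfm hf hi
  classical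
  have hcases : s.card = 0 ∨ s.card = 1 ∨ s.card = 2 ∨ s.card = 3 := by omega
  rcases hcases with h | h | h | h
  · exfalso
    rw [Finset.card_eq_zero] at h
    rw [h, Finset.prod_empty] at hm
    rw [hm] at hf
    have h1 : f = 1 := by
      refine Polynomial.map_injective _ (algebraMap ℚ ℝ).injective ?_
      rw [Polynomial.map_one]
      exact hf.symm
    rw [h1] at hi
    exact not_irreducible_one hi
  · exfalso
    obtain ⟨a, rfl⟩ := Finset.card_eq_one.1 h
    rw [Finset.prod_singleton] at hm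
    have h1 := minpoly.aeval ℝ X
    rw [hm, map_sub, Polynomial.aeval_X, Polynomial.aeval_C, sub_eq_zero] at h1
    exact hns ⟨a, h1.trans (Algebra.algebraMap_eq_smul_one a)⟩
  · exfalso
    obtain ⟨a, b, hab, rfl⟩ := Finset.card_eq_two.1 h
    rw [Finset.prod_pair hab] at hm
    exact not_two hT X hr hX a b hab f hm hfm hf hi
  · refine rm X hr hX s f hm hf hi ?_
    rw [hT, ← h]
    have h1 : (f.map (algebraMap ℚ ℝ)).natDegree = s.card := by
      rw [← hf, hm, Polynomial.natDegree_prod_of_monic _ _ fun a _ => Polynomial.monic_X_sub_C a]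
      simp
    rwa [Polynomial.natDegree_map] at h1

end SEV
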