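import Pool.Agent.Lib.SE.V.Spec
import Pool.Agent.Lib.SE.U.uL

/-!
# PROJECT SE-V, module vH: the rational radical
-/

set_option autoImplicit false

open Module

noncomputable section

namespace SEV

open HC HC.E HC.SE SEB SES SEU

namespace vH_aux

/-! ## The invariant form -/

section gen

variable {V : Type} [AddCommGroup V] [Module ℂ V] [FiniteDimensional ℂ V]
  {g : Submodule ℂ (Module.End ℂ V)}

/-- `K - (4/3) tr`. -/
def DL (hl : Clo g) : g →ₗ[ℂ] g →ₗ[ℂ] ℂ :=
  ((LinearMap.mul ℂ (Module.End ℂ g)).compl₁₂ (adg hl) (adg hl)).compr₂ (LinearMap.trace ℂ g) -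
    (4 / 3 : ℂ) • ((LinearMap.mul ℂ (Module.End ℂ V)).compl₁₂ g.subtype g.subtype).compr₂
      (LinearMap.trace ℂ V)

omit [FiniteDimensional ℂ V] in
theorem DL_apply (hl : Clo g) (X Y : g) :
    DL hl X Y = Kil hl X Y - (4 / 3) * Tr2 X.1 Y.1 := rfl

omit [FiniteDimensional ℂ V] in
theorem rad_iff (hl : Clo g) (X : Module.End ℂ V) :
    Rad hl X ↔ ∃ hX : X ∈ g, DL hl ⟨X, hX⟩ = 0 := by
  constructor
  · rintro ⟨hX, h⟩
    refine ⟨hX, LinearMap.ext fun Y => ?_⟩
    rw [DL_apply, h Y, sub_self, LinearMap.zero_apply]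
  · rintro ⟨hX, h⟩
    refine ⟨hX, fun Y => ?_⟩
    have := LinearMap.congr_fun h Y
    rw [DL_apply, LinearMap.zero_apply] at this
    exact sub_eq_zero.mp this

omit [FiniteDimensional ℂ V] in
theorem ad_hom (hl : Clo g) (A B : g) :
    adg hl (adg hl A B) = adg hl A * adg hl B - adg hl B * adg hl A := by
  apply LinearMap.ext
  intro C
  apply Subtype.ext
  rw [LinearMap.sub_apply, Submodule.coe_sub, Module.End.mul_apply, Module.End.mul_apply,
    adg_coe, adg_coe, adg_coe, adg_coe, adg_coe, adg_coe]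
  noncomm_ring

omit [FiniteDimensional ℂ V] in
theorem DL_inv (hl : Clo g) (A B C : g) : DL hl (adg hl A B) C = DL hl A (adg hl B C) := by
  rw [DL_apply, DL_apply]
  congr 1
  · unfold Kil
    have h1 : (adg hl A * adg hl B - adg hl B * adg hl A) * adg hl C =
        adg hl A * (adg hl B * adg hl C) - adg hl B * (adg hl A * adg hl C) :=
      LinearMap.ext fun x => rfl
    have h2 : adg hl A * (adg hl B * adg hl C - adg hl C * adg hl B) =
        adg hl A * (adg hl B * adg hl C) - (adg hl A * adg hl C) * adg hl B :=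
      LinearMap.ext fun x => map_sub (adg hl A) _ _
    have h3 : ∀ P Q : Module.End ℂ g, LinearMap.trace ℂ g (P - Q) =
        LinearMap.trace ℂ g P - LinearMap.trace ℂ g Q :=
      fun P Q => map_sub (LinearMap.trace ℂ g) P Q
    rw [ad_hom, ad_hom, h1, h2, h3, h3, LinearMap.trace_mul_comm ℂ (adg hl B)]
  · congr 1
    unfold Tr2
    rw [adg_coe, adg_coe, sub_mul, mul_sub, map_sub, map_sub, mul_assoc, mul_assoc,
      LinearMap.trace_mul_comm ℂ B.1, mul_assoc]

end gen

/-! ## Rational coefficients -/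

theorem Q1 {K : Type} [Field K] [CharZero K] {ι κ : Type} [Fintype κ] (M : κ → ι → K)
    (hM : LinearIndependent K M) (hr : ∀ i a, ∃ q : ℚ, M i a = q) (c : κ → K)
    (hc : ∀ a, ∃ q : ℚ, ∑ i, c i * M i a = q) : ∀ i, ∃ q : ℚ, c i = q := by
  obtain ⟨p, hp⟩ := LinearMap.exists_leftInverse_of_injective (Algebra.linearMap ℚ K)
    (LinearMap.ker_eq_bot.2 (algebraMap ℚ K).injective)
  have hp' : ∀ q : ℚ, p (q : K) = q := by
    intro q
    have h := LinearMap.congr_fun hp q
    rw [LinearMap.comp_apply, Algebra.linearMap_apply, LinearMap.id_apply,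
      eq_ratCast (algebraMap ℚ K) q] at h
    exact h
  choose m hm using hr
  choose s hs using hc
  have key : ∀ a, ∑ i, m i a * p (c i) = s a := by
    intro a
    rw [← hp' (s a), ← hs a, map_sum]
    refine Finset.sum_congr rfl fun i _ => ?_
    have h1 : c i * M i a = m i a • c i := by
      rw [hm, Algebra.smul_def, eq_ratCast (algebraMap ℚ K), mul_comm]
    rw [h1, map_smul, smul_eq_mul]
  have h2 : ∑ i, (c i - (p (c i) : K)) • M i = 0 := by
    funext a
    rw [Finset.sum_apply, Pi.zero_apply]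
    have h3 : ∀ i, ((c i - (p (c i) : K)) • M i) a = c i * M i a - (m i a : K) * (p (c i) : K) := by
      intro i
      rw [Pi.smul_apply, smul_eq_mul, sub_mul, hm]
      ring
    rw [Finset.sum_congr rfl fun i _ => h3 i, Finset.sum_sub_distrib, hs]
    have h4 := congrArg (fun q : ℚ => (q : K)) (key a)
    push_cast at h4
    rw [h4, sub_self]
  intro i
  have h5 := Fintype.linearIndependent_iff.mp hM _ h2 i
  exact ⟨p (c i), sub_eq_zero.mp h5⟩

/-- Real numbers in a basis over the rational numbers. -/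
theorem Q2 {n : ℕ} (z : Fin n → ℝ) : ∃ (κ : Type) (s : Finset κ) (β : κ → ℝ) (q : κ → Fin n → ℚ),
    (∀ i, z i = ∑ l ∈ s, β l * q l i) ∧
    ∀ m : Fin n → ℚ, ∑ i, z i * m i = 0 → ∀ l, ∑ i, q l i * m i = 0 := by
  classical
  let b := Basis.ofVectorSpace ℚ ℝ
  refine ⟨_, Finset.univ.biUnion fun i => (b.repr (z i)).support, fun l => b l,
    fun l i => b.repr (z i) l, ?_, ?_⟩
  · intro i
    conv_lhs => rw [← b.linearCombination_repr (z i), Finsupp.linearCombination_apply, Finsupp.sum]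
    rw [Finset.sum_subset (Finset.subset_biUnion_of_mem (fun i => (b.repr (z i)).support)
      (Finset.mem_univ i))]
    · refine Finset.sum_congr rfl fun l _ => ?_
      rw [Algebra.smul_def, eq_ratCast (algebraMap ℚ ℝ), mul_comm]
    · intro l _ hl
      rw [Finsupp.notMem_support_iff.mp hl, zero_smul]
  · intro m hm l
    have h1 := congrArg (fun x => b.repr x l) hm
    have h2 : ∀ i, z i * (m i : ℝ) = m i • z i := by
      intro i
      rw [Algebra.smul_def, eq_ratCast (algebraMap ℚ ℝ), mul_comm]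
    simp only [h2, map_sum, map_smul, Finsupp.coe_finsetSum, Finset.sum_apply, Finsupp.smul_apply,
      map_zero, Finsupp.coe_zero, Pi.zero_apply, smul_eq_mul] at h1
    rw [← h1]
    exact Finset.sum_congr rfl fun i _ => mul_comm _ _

/-! ## The matrices of rational endomorphisms -/

open SEH.hTr_aux SEU.uL_aux

variable {T : AV} {r : ℕ}

theorem co_e (e : Basis (Fin r) ℝ T.V) (he : ∀ k, e k ∈ T.L) {v : T.V} (hv : v ∈ T.L) :
    ∀ k, ∃ q : ℚ, e.repr v k = q := by
  apply Q1 (fun k i => (bs T).repr (e k) i)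
  · exact e.linearIndependent.map' (bs T).equivFun.toLinearMap (LinearEquiv.ker _)
  · intro k i
    obtain ⟨n, hn⟩ := bs_int (he k) i
    exact ⟨n, by rw [hn]; norm_cast⟩
  · intro i
    obtain ⟨n, hn⟩ := bs_int hv i
    refine ⟨n, ?_⟩
    have h1 : v = ∑ k, e.repr v k • e k := (e.sum_repr v).symm
    rw [Rat.cast_intCast, ← hn]
    conv_rhs => rw [h1, map_sum, Finsupp.coe_finsetSum, Finset.sum_apply]
    refine Finset.sum_congr rfl fun k _ => ?_
    rw [map_smul, Finsupp.smul_apply, smul_eq_mul]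

theorem mt_rat (e : Basis (Fin r) ℝ T.V) (he : ∀ k, e k ∈ T.L) {X : Module.End ℝ T.V}
    (hX : RatEnd T X) (k j : Fin r) : ∃ q : ℚ, mt e X k j = q := by
  obtain ⟨N, hN, h⟩ := hX _ (he k)
  obtain ⟨q, hq⟩ := co_e e he h j
  have hN' : (N : ℝ) ≠ 0 := Nat.cast_ne_zero.2 hN
  rw [← Nat.cast_smul_eq_nsmul ℝ, map_smul, Finsupp.smul_apply, smul_eq_mul] at hq
  refine ⟨q / N, ?_⟩
  change e.repr (X (e k)) j = _
  push_cast
  rw [← hq, mul_div_cancel_left₀ _ hN']

/-- The entries. -/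
def ent (r : ℕ) : Module.End ℂ (Fin r → ℂ) →ₗ[ℂ] (Fin r × Fin r → ℂ) where
  toFun A := fun a => A (Pi.single a.2 1) a.1
  map_add' _ _ := rfl
  map_smul' _ _ := rfl

theorem ent_ker : LinearMap.ker (ent r) = ⊥ := by
  rw [LinearMap.ker_eq_bot']
  intro A hA
  apply (Pi.basisFun ℂ (Fin r)).ext
  intro j
  funext k
  rw [Pi.basisFun_apply, LinearMap.zero_apply]
  exact congrFun hA (k, j)

theorem ent_hat (e : Basis (Fin r) ℝ T.V) (X : Module.End ℝ T.V) (k j : Fin r) :
    ent r (hat e X) (k, j) = (mt e X k j : ℂ) := by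
  change hat e X (Pi.single j 1) k = _
  rw [hat_apply, Finset.sum_eq_single j, Pi.single_eq_same, mul_one]
  · intro i _ hi
    rw [Pi.single_eq_of_ne hi, mul_zero]
  · intro h
    exact absurd (Finset.mem_univ j) h

theorem hat_mem (e : Basis (Fin r) ℝ T.V) {h : Set (Module.End ℝ T.V)} {X : Module.End ℝ T.V}
    (hX : X ∈ h) : hat e X ∈ gh e h := Submodule.subset_span ⟨X, hX, rfl⟩

theorem rsum {K : Type} [Field K] [CharZero K] {ι : Type} (s : Finset ι) (f : ι → K)
    (h : ∀ i ∈ s, ∃ q : ℚ, f i = q) : ∃ q : ℚ, ∑ i ∈ s, f i = q := by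
  choose q hq using h
  refine ⟨∑ i ∈ s.attach, q i.1 i.2, ?_⟩
  rw [Rat.cast_sum, ← Finset.sum_attach]
  exact Finset.sum_congr rfl fun i _ => hq i.1 i.2

/-- `tr` is rational. -/
theorem tr_rat (e : Basis (Fin r) ℝ T.V) (he : ∀ k, e k ∈ T.L) {X Y : Module.End ℝ T.V}
    (hX : RatEnd T X) (hY : RatEnd T Y) : ∃ q : ℚ, Tr2 (hat e X) (hat e Y) = q := by
  unfold Tr2
  rw [← hat_mul, LinearMap.trace_eq_matrix_trace ℂ (Pi.basisFun ℂ (Fin r)), Matrix.trace]
  apply rsum
  intro k _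
  rw [Matrix.diag_apply, LinearMap.toMatrix_apply, Pi.basisFun_apply, Pi.basisFun_repr]
  have h1 := ent_hat e (Y * X) k k
  change hat e (Y * X) (Pi.single k 1) k = _ at h1
  rw [h1, mt_mul, Matrix.mul_apply, Complex.ofReal_sum]
  apply rsum
  intro j _
  obtain ⟨a, ha⟩ := mt_rat e he hX k j
  obtain ⟨b, hb⟩ := mt_rat e he hY j k
  exact ⟨a * b, by rw [ha, hb]; push_cast; ring⟩

/-- `K` is rational. -/
theorem kil_rat (e : Basis (Fin r) ℝ T.V) (he : ∀ k, e k ∈ T.L) {h : Set (Module.End ℝ T.V)}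
    (hrat : ∀ X ∈ h, RatEnd T X) (hq : IsQLie h) (hl : Clo (gh e h)) {X Y : Module.End ℝ T.V}
    (hX : X ∈ h) (hY : Y ∈ h) :
    ∃ q : ℚ, Kil hl ⟨hat e X, hat_mem e hX⟩ ⟨hat e Y, hat_mem e hY⟩ = q := by
  classical
  obtain ⟨b, hbs, hbsp, hbli⟩ := exists_linearIndependent ℂ (hat e '' h)
  have hbg : ∀ i : b, i.1 ∈ gh e h := fun i => Submodule.subset_span (hbs i.2)
  have hli : LinearIndependent ℂ (fun i : b => (⟨i.1, hbg i⟩ : gh e h)) := by
    apply LinearIndependent.of_comp (gh e h).subtype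
    exact hbli
  have hsp : ⊤ ≤ Submodule.span ℂ (Set.range (fun i : b => (⟨i.1, hbg i⟩ : gh e h))) := by
    rintro ⟨Z, hZ⟩ -
    have h1 : Z ∈ Submodule.span ℂ b := by
      rw [hbsp]
      exact hZ
    have h2 : Submodule.map (gh e h).subtype
        (Submodule.span ℂ (Set.range (fun i : b => (⟨i.1, hbg i⟩ : gh e h)))) =
          Submodule.span ℂ b := by
      rw [Submodule.map_span, ← Set.range_comp]
      congr 1
      exact Subtype.range_coe
    rw [← h2] at h1
    obtain ⟨Z', hZ', h3⟩ := h1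
    have h4 : Z' = ⟨Z, hZ⟩ := Subtype.ext h3
    rw [← h4]
    exact hZ'
  let bb : Basis b ℂ (gh e h) := Basis.mk hli hsp
  have hbb : ∀ i, (bb i : Module.End ℂ (Fin r → ℂ)) = i.1 := fun i => by
    rw [Basis.mk_apply]
  have : Finite b := Module.Finite.finite_basis bb
  have : Fintype b := Fintype.ofFinite b
  -- rational coordinates
  have hco : ∀ Z (hZ : Z ∈ h) (i : b), ∃ q : ℚ, bb.repr ⟨hat e Z, hat_mem e hZ⟩ i = q := by
    intro Z hZ
    apply Q1 (fun i : b => ent r i.1)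
    · exact hbli.map' (ent r) ent_ker
    · rintro i ⟨k, j⟩
      obtain ⟨X', hX', h1⟩ := hbs i.2
      obtain ⟨q, hq⟩ := mt_rat e he (hrat X' hX') k j
      exact ⟨q, by rw [← h1, ent_hat, hq]; norm_cast⟩
    · rintro ⟨k, j⟩
      obtain ⟨q, hq⟩ := mt_rat e he (hrat Z hZ) k j
      refine ⟨q, ?_⟩
      have h1 : hat e Z = ∑ i : b, bb.repr ⟨hat e Z, hat_mem e hZ⟩ i • i.1 := by
        have h2 := congrArg Subtype.val (bb.sum_repr ⟨hat e Z, hat_mem e hZ⟩)
        rw [AddSubmonoidClass.coe_finsetSum] at h2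
        refine h2.symm.trans (Finset.sum_congr rfl fun i _ => ?_)
        rw [Submodule.coe_smul, hbb]
      have h3 := ent_hat e Z k j
      rw [hq] at h3
      rw [← Complex.ofReal_ratCast, ← h3]
      conv_rhs => rw [h1, map_sum, Finset.sum_apply]
      refine Finset.sum_congr rfl fun i _ => ?_
      rw [map_smul, Pi.smul_apply, smul_eq_mul]
  -- brackets
  have hbr : ∀ A (hA : A ∈ h) B (hB : B ∈ h),
      adg hl ⟨hat e A, hat_mem e hA⟩ ⟨hat e B, hat_mem e hB⟩ =
        ⟨hat e (B * A - A * B), hat_mem e (hq.br B hB A hA)⟩ := by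
    intro A hA B hB
    apply Subtype.ext
    rw [adg_coe]
    change hat e A * hat e B - hat e B * hat e A = hat e (B * A - A * B)
    rw [hat_sub, hat_mul, hat_mul]
  unfold Kil
  rw [LinearMap.trace_eq_matrix_trace ℂ bb, Matrix.trace]
  apply rsum
  intro i _
  obtain ⟨H, hH, h1⟩ := hbs i.2
  have h2 : bb i = ⟨hat e H, hat_mem e hH⟩ := Subtype.ext ((hbb i).trans h1.symm)
  rw [Matrix.diag_apply, LinearMap.toMatrix_apply, Module.End.mul_apply, h2, hbr Y hY H hH,
    hbr X hX _ (hq.br H hH Y hY)]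
  exact hco _ (hq.br _ (hq.br H hH Y hY) X hX) i

theorem DL_rat (e : Basis (Fin r) ℝ T.V) (he : ∀ k, e k ∈ T.L) {h : Set (Module.End ℝ T.V)}
    (hrat : ∀ X ∈ h, RatEnd T X) (hq : IsQLie h) (hl : Clo (gh e h)) {X Y : Module.End ℝ T.V}
    (hX : X ∈ h) (hY : Y ∈ h) :
    ∃ q : ℚ, DL hl ⟨hat e X, hat_mem e hX⟩ ⟨hat e Y, hat_mem e hY⟩ = q := by
  obtain ⟨a, ha⟩ := kil_rat e he hrat hq hl hX hY
  obtain ⟨b, hb⟩ := tr_rat e he (hrat X hX) (hrat Y hY)
  exact ⟨a - (4 / 3) * b, by rw [DL_apply, ha, hb]; push_cast; ring⟩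

theorem hat_zero (e : Basis (Fin r) ℝ T.V) : hat e (0 : Module.End ℝ T.V) = 0 := by
  have h2 := hat_smul e 0 0
  rwa [zero_smul, Complex.ofReal_zero, zero_smul] at h2

theorem hat_sum (e : Basis (Fin r) ℝ T.V) {n : ℕ} (c : Fin n → ℚ)
    (X : Fin n → Module.End ℝ T.V) :
    hat e (∑ i, (c i : ℝ) • X i) = ∑ i, (c i : ℂ) • hat e (X i) := by
  have key : ∀ s : Finset (Fin n),
      hat e (∑ i ∈ s, (c i : ℝ) • X i) = ∑ i ∈ s, (c i : ℂ) • hat e (X i) := by
    classical
    intro s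
    induction s using Finset.induction_on with
    | empty => rw [Finset.sum_empty, Finset.sum_empty, hat_zero]
    | insert a s ha ih =>
      rw [Finset.sum_insert ha, Finset.sum_insert ha, hat_add, hat_smul, ih,
        Complex.ofReal_ratCast]
  exact key _

theorem sum_mem_q {h : Set (Module.End ℝ T.V)} (hq : IsQLie h) {n : ℕ} (c : Fin n → ℚ)
    (X : Fin n → Module.End ℝ T.V) (hX : ∀ i, X i ∈ h) : ∑ i, (c i : ℝ) • X i ∈ h := by
  have key : ∀ s : Finset (Fin n), ∑ i ∈ s, (c i : ℝ) • X i ∈ h := by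
    classical
    intro s
    induction s using Finset.induction_on with
    | empty =>
      rw [Finset.sum_empty]
      exact hq.zero
    | insert a s ha ih =>
      rw [Finset.sum_insert ha]
      exact hq.add _ (hq.smul _ _ (hX a)) _ ih
  exact key _

end vH_aux

open vH_aux SEH.hTr_aux

theorem tvH : S_vH := by
  intro T E h hh r e he hl hJ
  refine ⟨fun X hX => hh.rat X hX.1, fun X hX => hh.sk X hX.1, ?_, ?_⟩
  · refine { zero := ?_, add := ?_, smul := ?_, br := ?_ }
    · refine ⟨hh.lie.zero, ?_⟩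
      rw [rad_iff, hat_zero]
      exact ⟨zero_mem _, map_zero (DL hl)⟩
    · rintro X ⟨hX, hXr⟩ Y ⟨hY, hYr⟩
      refine ⟨hh.lie.add X hX Y hY, ?_⟩
      rw [rad_iff] at hXr hYr ⊢
      obtain ⟨h1, h2⟩ := hXr
      obtain ⟨h3, h4⟩ := hYr
      refine ⟨hat_mem e (hh.lie.add X hX Y hY), ?_⟩
      have h5 : (⟨hat e (X + Y), hat_mem e (hh.lie.add X hX Y hY)⟩ : gh e h) =
          ⟨hat e X, h1⟩ + ⟨hat e Y, h3⟩ := Subtype.ext (hat_add e X Y)
      rw [h5, map_add, h2, h4, add_zero]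
    · rintro q X ⟨hX, hXr⟩
      refine ⟨hh.lie.smul q X hX, ?_⟩
      rw [rad_iff] at hXr ⊢
      obtain ⟨h1, h2⟩ := hXr
      refine ⟨hat_mem e (hh.lie.smul q X hX), ?_⟩
      have h5 : (⟨hat e ((q : ℝ) • X), hat_mem e (hh.lie.smul q X hX)⟩ : gh e h) =
          ((q : ℝ) : ℂ) • ⟨hat e X, h1⟩ := Subtype.ext (hat_smul e q X)
      rw [h5, map_smul, h2, smul_zero]
    · rintro X ⟨hX, hXr⟩ Y ⟨hY, hYr⟩
      refine ⟨hh.lie.br X hX Y hY, ?_⟩
      rw [rad_iff] at hYr ⊢
      obtain ⟨h3, h4⟩ := hYr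
      refine ⟨hat_mem e (hh.lie.br X hX Y hY), ?_⟩
      have h5 : (⟨hat e (X * Y - Y * X), hat_mem e (hh.lie.br X hX Y hY)⟩ : gh e h) =
          adg hl ⟨hat e Y, h3⟩ ⟨hat e X, hat_mem e hX⟩ := by
        apply Subtype.ext
        rw [adg_coe]
        change hat e (X * Y - Y * X) = hat e Y * hat e X - hat e X * hat e Y
        rw [hat_sub, hat_mul, hat_mul]
      rw [h5]
      apply LinearMap.ext
      intro C
      rw [DL_inv, h4]
      rfl
  · obtain ⟨n, z, H, hz⟩ := Submodule.mem_span_set'.mp hh.J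
    obtain ⟨κ, s, β, q, hq1, hq2⟩ := Q2 z
    have hdec : mulI T = ∑ l ∈ s, β l • ∑ i, (q l i : ℝ) • (H i : Module.End ℝ T.V) := by
      rw [← hz]
      have h1 : ∀ i, z i • (H i : Module.End ℝ T.V) =
          ∑ l ∈ s, β l • (q l i : ℝ) • (H i : Module.End ℝ T.V) := by
        intro i
        rw [hq1 i, Finset.sum_smul]
        exact Finset.sum_congr rfl fun l _ => mul_smul _ _ _
      rw [Finset.sum_congr rfl fun i _ => h1 i, Finset.sum_comm]
      exact Finset.sum_congr rfl fun l _ => (Finset.smul_sum).symm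
    rw [hdec]
    refine Submodule.sum_mem _ fun l _ => Submodule.smul_mem _ _ (Submodule.subset_span ?_)
    have hmem : ∑ i, (q l i : ℝ) • (H i : Module.End ℝ T.V) ∈ h :=
      sum_mem_q hh.lie (q l) (fun i => (H i : Module.End ℝ T.V)) fun i => (H i).2
    refine ⟨hmem, ?_⟩
    rw [rad_iff]
    refine ⟨hat_mem e hmem, ?_⟩
    rw [rad_iff] at hJ
    obtain ⟨hJg, hJ0⟩ := hJ
    -- on the generators
    have hgen : ∀ Y (hY : Y ∈ h),
        DL hl ⟨_, hat_mem e hmem⟩ ⟨hat e Y, hat_mem e hY⟩ = 0 := by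
      intro Y hY
      choose m hm using fun i => DL_rat e he hh.rat hh.lie hl (H i).2 hY
      have h1 : (⟨_, hat_mem e hmem⟩ : gh e h) =
          ∑ i, (q l i : ℂ) • (⟨hat e (H i), hat_mem e (H i).2⟩ : gh e h) := by
        apply Subtype.ext
        rw [AddSubmonoidClass.coe_finsetSum]
        exact hat_sum e (q l) fun i => (H i : Module.End ℝ T.V)
      have h2 : (⟨hat e (mulI T), hJg⟩ : gh e h) =
          ∑ i, (z i : ℂ) • (⟨hat e (H i), hat_mem e (H i).2⟩ : gh e h) := by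
        apply Subtype.ext
        rw [AddSubmonoidClass.coe_finsetSum]
        change hat e (mulI T) = ∑ i, (z i : ℂ) • hat e (H i)
        rw [← hz]
        have key : ∀ s : Finset (Fin n), hat e (∑ i ∈ s, z i • (H i : Module.End ℝ T.V)) =
            ∑ i ∈ s, (z i : ℂ) • hat e (H i) := by
          classical
          intro s
          induction s using Finset.induction_on with
          | empty => rw [Finset.sum_empty, Finset.sum_empty, hat_zero]
          | insert a s ha ih =>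
            rw [Finset.sum_insert ha, Finset.sum_insert ha, hat_add, hat_smul, ih]
        exact key _
      have h3 : ∑ i, z i * (m i : ℝ) = 0 := by
        have h4 := LinearMap.congr_fun hJ0 ⟨hat e Y, hat_mem e hY⟩
        rw [h2, map_sum, LinearMap.sum_apply, LinearMap.zero_apply] at h4
        have h5 : ∀ i, (DL hl ((z i : ℂ) • (⟨hat e (H i), hat_mem e (H i).2⟩ : gh e h)))
            ⟨hat e Y, hat_mem e hY⟩ = ((z i * (m i : ℝ) : ℝ) : ℂ) := by
          intro i
          rw [map_smul, LinearMap.smul_apply, hm i, smul_eq_mul]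
          push_cast
          rfl
        rw [Finset.sum_congr rfl fun i _ => h5 i, ← Complex.ofReal_sum] at h4
        exact_mod_cast h4
      have h6 := hq2 m h3 l
      rw [h1, map_sum, LinearMap.sum_apply]
      have h7 : ∀ i, (DL hl ((q l i : ℂ) • (⟨hat e (H i), hat_mem e (H i).2⟩ : gh e h)))
          ⟨hat e Y, hat_mem e hY⟩ = ((q l i * m i : ℚ) : ℂ) := by
        intro i
        rw [map_smul, LinearMap.smul_apply, hm i, smul_eq_mul]
        push_cast
        rfl
      rw [Finset.sum_congr rfl fun i _ => h7 i, ← Rat.cast_sum, h6, Rat.cast_zero]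
    apply LinearMap.ext
    rintro ⟨Y, hY⟩
    rw [LinearMap.zero_apply]
    induction hY using Submodule.span_induction with
    | mem Y hY =>
      obtain ⟨Y', hY', rfl⟩ := hY
      exact hgen Y' hY'
    | zero => exact map_zero _
    | add A B hA hB h1 h2 =>
      have h3 : (⟨A + B, (gh e h).add_mem hA hB⟩ : gh e h) = ⟨A, hA⟩ + ⟨B, hB⟩ := rfl
      rw [h3, map_add, h1, h2, add_zero]
    | smul c A hA h1 =>
      have h3 : (⟨c • A, (gh e h).smul_mem c hA⟩ : gh e h) = c • ⟨A, hA⟩ := rfl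
      rw [h3, map_smul, h1, smul_zero]

end SEV
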