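import Pool.Agent.Lib.SE.V.Spec
import Pool.Agent.Lib.SE.U.uL

/-!
# PROJECT SE-V, module vM: the minimal polynomial of a rational endomorphism is rational (helper61)
-/

set_option autoImplicit false

open Module

noncomputable section

namespace SEV

open HC HC.E HC.SE SEB SES SEU

namespace vM_aux

/-- A `ℚ`-linear functional on `ℝ` with value `1` at `1`. -/
theorem ex_fun : ∃ φ : ℝ →ₗ[ℚ] ℚ, φ 1 = 1 := by
  obtain ⟨φ, hφ⟩ := LinearMap.exists_leftInverse_of_injective (Algebra.linearMap ℚ ℝ)
    (LinearMap.ker_eq_bot.2 (algebraMap ℚ ℝ).injective)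
  refine ⟨φ, ?_⟩
  have h := LinearMap.congr_fun hφ 1
  rwa [LinearMap.comp_apply, Algebra.linearMap_apply, map_one, LinearMap.id_apply] at h

/-- The minimal polynomial of a rational matrix does not change over `ℝ`. -/
theorem mx {n : Type} [Fintype n] [DecidableEq n] (A : Matrix n n ℚ) :
    minpoly ℝ (A.map (algebraMap ℚ ℝ)) = (minpoly ℚ A).map (algebraMap ℚ ℝ) := by
  obtain ⟨φ, hφ⟩ := ex_fun
  set B : Matrix n n ℝ := A.map (algebraMap ℚ ℝ) with hB
  have hBr : B = (algebraMap ℚ ℝ).mapMatrix A := rfl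
  have hint : IsIntegral ℝ B := Matrix.isIntegral B
  have hintA : IsIntegral ℚ A := Matrix.isIntegral A
  set p := minpoly ℝ B with hp
  -- the rational polynomial
  set q : Polynomial ℚ := ∑ k ∈ Finset.range (p.natDegree + 1),
    Polynomial.monomial k (φ (p.coeff k)) with hq
  have hqc : ∀ k, k ≤ p.natDegree → q.coeff k = φ (p.coeff k) := by
    intro k hk
    rw [hq, Polynomial.finsetSum_coeff, Finset.sum_eq_single k]
    · rw [Polynomial.coeff_monomial, if_pos rfl]
    · intro j _ hj
      rw [Polynomial.coeff_monomial, if_neg hj]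
    · intro h
      exact (h (Finset.mem_range.2 (Nat.lt_succ_of_le hk))).elim
  have hqd : q.natDegree ≤ p.natDegree := by
    refine Polynomial.natDegree_sum_le_of_forall_le _ _ ?_
    intro k hk
    exact (Polynomial.natDegree_monomial_le _).trans (Nat.lt_succ_iff.1 (Finset.mem_range.1 hk))
  have hpm : p.Monic := minpoly.monic hint
  have hqm : q.Monic := by
    refine Polynomial.monic_of_natDegree_le_of_coeff_eq_one _ hqd ?_
    rw [hqc _ le_rfl, hpm.coeff_natDegree, hφ]
  have hqA : Polynomial.aeval A q = 0 := by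
    ext i j
    have h1 : Polynomial.aeval B p = 0 := minpoly.aeval ℝ B
    have h2 : (Polynomial.aeval B p) i j = 0 := by rw [h1]; rfl
    rw [Polynomial.aeval_eq_sum_range, Matrix.sum_apply] at h2
    rw [hq, map_sum, Matrix.sum_apply]
    have h3 : ∀ k ∈ Finset.range (p.natDegree + 1),
        (Polynomial.aeval A (Polynomial.monomial k (φ (p.coeff k)))) i j =
          φ ((p.coeff k • B ^ k) i j) := by
      intro k _
      have h4 : B ^ k = (A ^ k).map (algebraMap ℚ ℝ) := by
        rw [hBr, ← map_pow]; rfl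
      have h5 : (p.coeff k • B ^ k) i j = (A ^ k) i j • p.coeff k := by
        rw [h4, Matrix.smul_apply, Matrix.map_apply, smul_eq_mul, mul_comm, Algebra.smul_def]
      rw [h5, map_smul, Polynomial.aeval_monomial, ← Algebra.smul_def, Matrix.smul_apply,
        smul_eq_mul, smul_eq_mul, mul_comm]
    rw [Finset.sum_congr rfl h3, ← map_sum, h2, map_zero]
    rfl
  have hle : (minpoly ℚ A).natDegree ≤ p.natDegree :=
    (Polynomial.natDegree_le_natDegree (minpoly.min ℚ A hqm hqA)).trans hqd
  have hdvd : p ∣ (minpoly ℚ A).map (algebraMap ℚ ℝ) := by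
    refine minpoly.dvd ℝ B ?_
    have h1 : Polynomial.aeval A (minpoly ℚ A) = 0 := minpoly.aeval ℚ A
    have h2 := Polynomial.hom_eval₂ (minpoly ℚ A) (algebraMap ℚ (Matrix n n ℚ))
      (algebraMap ℚ ℝ).mapMatrix A
    rw [Polynomial.aeval_map_algebraMap]
    rw [Polynomial.aeval_def] at h1 ⊢
    rw [h1, map_zero] at h2
    rw [h2, ← hBr]
    congr 1
    exact Subsingleton.elim _ _
  refine (Polynomial.eq_of_monic_of_dvd_of_natDegree_le hpm
    ((minpoly.monic hintA).map _) hdvd ?_).symm ▸ rfl
  rw [Polynomial.natDegree_map]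
  exact hle

end vM_aux

open vM_aux SEU.uL_aux in
/-- THE MINIMAL POLYNOMIAL IS RATIONAL. -/
theorem tvM : S_vM := by
  intro T X hX
  classical
  choose a ha using ent hX
  have h1 : LinearMap.toMatrixAlgEquiv (bs T) X = (Matrix.of a).map (algebraMap ℚ ℝ) := by
    ext i j
    rw [LinearMap.toMatrixAlgEquiv_apply, ha, Matrix.map_apply, Matrix.of_apply]
    rfl
  refine ⟨minpoly ℚ (Matrix.of a), minpoly.monic (Matrix.isIntegral _), ?_⟩
  rw [← mx (Matrix.of a), ← h1, minpoly.algEquiv_eq]

end SEV
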