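import Pool.Agent.Lib.SE.V.Spec
import Pool.Agent.Lib.SE.U.uP

/-!
# PROJECT SE-V, module vN: the Killing form of `J` in the exceptional case
-/

set_option autoImplicit false

open Module

noncomputable section

namespace SEV

open HC HC.E HC.SE SEB SES SEU

namespace vN_aux

open SEU.uP_aux

variable {V : Type} [AddCommGroup V] [Module ℂ V]

theorem JJn {J : Module.End ℂ V} (hJ : J * J = -1) : (-J) * (-J) = -1 := by
  rw [neg_mul_neg, hJ]

theorem mem_Wpn {J : Module.End ℂ V} {v : V} : v ∈ Wp (-J) ↔ v ∈ Wm J := by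
  rw [mem_Wp, mem_Wm, LinearMap.neg_apply, neg_eq_iff_eq_neg]

theorem mem_Wmn {J : Module.End ℂ V} {v : V} : v ∈ Wm (-J) ↔ v ∈ Wp J := by
  rw [mem_Wp, mem_Wm, LinearMap.neg_apply, neg_inj]

/-- a map `V → W⁺` which is `0` on `W⁺` and injective on `W⁻` has an inverse -/
theorem inv [FiniteDimensional ℂ V] {J : Module.End ℂ V} (hJ : J * J = -1)
    (hfr : finrank ℂ (Wp J) = finrank ℂ (Wm J)) (A : Module.End ℂ V) (hA1 : ∀ v, A v ∈ Wp J)
    (hA2 : ∀ v ∈ Wp J, A v = 0) (hA3 : ∀ v ∈ Wm J, A v = 0 → v = 0) :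
    ∃ R : Module.End ℂ V, (∀ v, R v ∈ Wm J) ∧ (∀ v ∈ Wm J, R v = 0) ∧
      A * R = (1 / 2 : ℂ) • (1 - Complex.I • J) ∧ R * A = (1 / 2 : ℂ) • (1 + Complex.I • J) := by
  let q : Wm J →ₗ[ℂ] Wp J := LinearMap.restrict A (fun v _ => hA1 v)
  have hq : Function.Injective q := by
    rw [injective_iff_map_eq_zero]
    intro x hx
    exact Subtype.ext (hA3 x x.2 (congrArg Subtype.val hx))
  let e := LinearMap.linearEquivOfInjective q hq hfr.symm
  have he : ∀ x : Wm J, ((e x : Wp J) : V) = A x := fun x => rfl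
  -- projections
  let pp : V →ₗ[ℂ] Wp J := LinearMap.codRestrict (Wp J) ((1 / 2 : ℂ) • (1 - Complex.I • J)) (by
    intro v
    rw [mem_Wp]
    simp only [LinearMap.smul_apply, LinearMap.sub_apply, Module.End.one_apply, map_smul, map_sub,
      JJ hJ]
    linear_combination (norm := module) (1 / 2 : ℂ) • (Complex.I_mul_I • J v))
  have hpp : ∀ v, ((pp v : Wp J) : V) = (1 / 2 : ℂ) • (v - Complex.I • J v) := fun v => rfl
  have hp1 : ∀ v (hv : v ∈ Wp J), pp v = ⟨v, hv⟩ := by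
    intro v hv
    apply Subtype.ext
    rw [hpp, mem_Wp.mp hv]
    linear_combination (norm := module) -(1 / 2 : ℂ) • (Complex.I_mul_I • v)
  have hp2 : ∀ v ∈ Wm J, pp v = 0 := by
    intro v hv
    apply Subtype.ext
    rw [hpp, mem_Wm.mp hv]
    show _ = (0 : V)
    linear_combination (norm := module) (1 / 2 : ℂ) • (Complex.I_mul_I • v)
  let R : Module.End ℂ V := (Wm J).subtype ∘ₗ e.symm.toLinearMap ∘ₗ pp
  have hR : ∀ v, R v = ((e.symm (pp v) : Wm J) : V) := fun v => rfl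
  refine ⟨R, fun v => ?_, fun v hv => ?_, ?_, ?_⟩
  · rw [hR]; exact (e.symm (pp v)).2
  · rw [hR, hp2 v hv, map_zero]; rfl
  · apply LinearMap.ext
    intro v
    rw [Module.End.mul_apply, hR, ← he, e.apply_symm_apply, hpp]
    rfl
  · apply LinearMap.ext
    intro v
    rw [Module.End.mul_apply, hR]
    obtain ⟨a, ha, b, hb, rfl⟩ := dec hJ v
    have h1 : pp (A (a + b)) = e ⟨b, hb⟩ := by
      apply Subtype.ext
      rw [he, hp1 _ (hA1 _)]
      show A (a + b) = A b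
      rw [map_add, hA2 a ha, zero_add]
    rw [h1, e.symm_apply_apply]
    simp only [LinearMap.smul_apply, LinearMap.add_apply, Module.End.one_apply, map_add]
    rw [mem_Wp.mp ha, mem_Wm.mp hb]
    linear_combination (norm := module) (1 / 2 : ℂ) • (Complex.I_mul_I • b) -
      (1 / 2 : ℂ) • (Complex.I_mul_I • a)

theorem deg_iff {J C : Module.End ℂ V} (hJ : J * J = -1) (h : J * C - C * J = (2 * Complex.I) • C) :
    (∀ v, C v ∈ Wp J) ∧ (∀ v ∈ Wp J, C v = 0) := by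
  have h1 : ∀ v, J (C v) - C (J v) = (2 * Complex.I) • C v := fun v => by
    have := LinearMap.congr_fun h v
    simpa only [LinearMap.sub_apply, Module.End.mul_apply, LinearMap.smul_apply] using this
  have h2 : ∀ v ∈ Wp J, C v = 0 := by
    intro v hv
    have e1 := h1 v
    rw [mem_Wp.mp hv, map_smul] at e1
    -- J (C v) = 3 i C v
    have e4 : J (C v) = (3 * Complex.I) • C v := by
      linear_combination (norm := module) e1
    have e5 := JJ hJ (C v)
    rw [e4, map_smul, e4, smul_smul] at e5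
    have e6 : (8 : ℂ) • C v = 0 := by
      have : (3 * Complex.I * (3 * Complex.I) : ℂ) = -9 := by
        linear_combination 9 * Complex.I_mul_I
      rw [this] at e5
      linear_combination (norm := module) -e5
    exact (smul_eq_zero.mp e6).resolve_left (by norm_num)
  refine ⟨?_, h2⟩
  intro v
  obtain ⟨a, ha, b, hb, rfl⟩ := dec hJ v
  rw [map_add, h2 a ha, zero_add, mem_Wp]
  have e1 := h1 b
  rw [mem_Wm.mp hb, map_neg, map_smul] at e1
  linear_combination (norm := module) e1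

theorem deg_of {J C : Module.End ℂ V} (hJ : J * J = -1) (h1 : ∀ v, C v ∈ Wp J)
    (h2 : ∀ v ∈ Wp J, C v = 0) : J * C - C * J = (2 * Complex.I) • C := by
  apply LinearMap.ext
  intro v
  obtain ⟨a, ha, b, hb, rfl⟩ := dec hJ v
  simp only [LinearMap.sub_apply, Module.End.mul_apply, LinearMap.smul_apply, map_add,
    h2 a ha, mem_Wp.mp ha, mem_Wm.mp hb, map_smul, map_neg, mem_Wp.mp (h1 b), map_zero]
  module

/-- the trace of `X₀ R` -/
theorem tr0 [FiniteDimensional ℂ V] {J X R : Module.End ℂ V} (hJ : J * J = -1)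
    (hX : ∀ v, J (X v) = X (J v)) (hR1 : ∀ v, R v ∈ Wm J) (hR2 : ∀ v ∈ Wm J, R v = 0) :
    LinearMap.trace ℂ V (X * R) = 0 := by
  have e1 : R * J = Complex.I • R := by
    apply LinearMap.ext
    intro v
    obtain ⟨a, ha, b, hb, rfl⟩ := dec hJ v
    simp only [Module.End.mul_apply, LinearMap.smul_apply, map_add, mem_Wp.mp ha, mem_Wm.mp hb,
      map_neg, map_smul, hR2 b hb]
    module
  have e2 : J * R = -(Complex.I • R) := by
    apply LinearMap.ext
    intro v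
    rw [Module.End.mul_apply, mem_Wm.mp (hR1 v)]
    rfl
  have e3 : J * X = X * J := by
    apply LinearMap.ext
    intro v
    exact hX v
  have e4 : LinearMap.trace ℂ V (X * R * J) = LinearMap.trace ℂ V (J * (X * R)) :=
    LinearMap.trace_mul_comm ℂ _ _
  rw [mul_assoc, e1, ← mul_assoc, e3, mul_assoc, e2, mul_smul_comm, map_smul, mul_neg,
    mul_smul_comm, map_neg, map_smul, smul_eq_mul] at e4
  have e5 : (2 * Complex.I) * LinearMap.trace ℂ V (X * R) = 0 := by linear_combination e4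
  exact (mul_eq_zero.mp e5).resolve_left two_I

end vN_aux

open vN_aux SEU.uP_aux

theorem tvN : S_vN := by
  intro V _ _ _ g ω J σ hV H Q hQ
  have hJ := H.JJ
  have hsJ := H.skw J H.mJ
  have hfr := fr_le hJ H.smp hsJ
  have hfrm : finrank ℂ (Wm J) = 3 := by
    have h1 := Submodule.finrank_add_eq_of_isCompl (isCompl hJ)
    rw [hV, hfr] at h1
    omega
  obtain ⟨hQ1, hQ2⟩ := deg_iff hJ hQ.deg
  obtain ⟨R, hR1, hR2, hQR, hRQ⟩ := inv hJ hfr Q hQ1 hQ2
    (fun v hv h => hQ.inj v (mem_Wm.mp hv) h)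
  -- the conjugate
  obtain ⟨Q', hQ'g, hQ'⟩ := H.sg Q hQ.mem
  have hsp : ∀ v ∈ Wp J, σ v ∈ Wm J := by
    intro v hv
    rw [mem_Wm, ← H.sJ, mem_Wp.mp hv, map_smulₛₗ, Complex.conj_I, neg_smul]
  have hsm : ∀ v ∈ Wm J, σ v ∈ Wp J := by
    intro v hv
    rw [mem_Wp, ← H.sJ, mem_Wm.mp hv, map_neg, map_smulₛₗ, Complex.conj_I, neg_smul, neg_neg]
  have hQ'v : ∀ v, Q' v = σ (Q (σ v)) := by
    intro v
    have := hQ' (σ v)
    rwa [H.ss] at this
  have hQ'1 : ∀ v, Q' v ∈ Wm J := by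
    intro v
    rw [hQ'v]
    exact hsp _ (hQ1 _)
  have hQ'2 : ∀ v ∈ Wm J, Q' v = 0 := by
    intro v hv
    rw [hQ'v, hQ2 _ (hsm v hv), map_zero]
  have hQ'3 : ∀ v ∈ Wp J, Q' v = 0 → v = 0 := by
    intro v hv h
    rw [hQ'v] at h
    have h1 : Q (σ v) = 0 := by
      have := congrArg σ h
      rwa [H.ss, map_zero] at this
    have h2 := hQ.inj (σ v) (mem_Wm.mp (hsp v hv)) h1
    have := congrArg σ h2
    rwa [H.ss, map_zero] at this
  obtain ⟨R', hR'1, hR'2, hQR', hRQ'⟩ := inv (JJn hJ)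
    (show finrank ℂ (Wp (-J)) = finrank ℂ (Wm (-J)) by
      have e1 : Wp (-J) = Wm J := Submodule.ext fun v => mem_Wpn
      have e2 : Wm (-J) = Wp J := Submodule.ext fun v => mem_Wmn
      rw [e1, e2, hfr]) Q' (fun v => mem_Wpn.mpr (hQ'1 v))
    (fun v hv => hQ'2 v (mem_Wpn.mp hv)) (fun v hv h => hQ'3 v (mem_Wmn.mp hv) h)
  rw [smul_neg, sub_neg_eq_add] at hQR'
  rw [smul_neg, ← sub_eq_add_neg] at hRQ'
  have hR'3 : ∀ v, R' v ∈ Wp J := fun v => mem_Wmn.mp (hR'1 v)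
  have hR'4 : ∀ v ∈ Wp J, R' v = 0 := fun v hv => hR'2 v (mem_Wmn.mpr hv)
  -- traces
  have t1 : LinearMap.trace ℂ V (1 : Module.End ℂ V) = 6 := by
    rw [LinearMap.trace_one, hV]; norm_num
  have tJ : LinearMap.trace ℂ V J = 0 := by
    have h := LinearMap.trace_mul_comm ℂ Q R
    rw [hQR, hRQ, map_smul, map_smul, map_sub, map_add, map_smul, smul_eq_mul, smul_eq_mul,
      smul_eq_mul] at h
    have h1 : Complex.I * LinearMap.trace ℂ V J = 0 := by linear_combination -h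
    exact (mul_eq_zero.mp h1).resolve_left Complex.I_ne_zero
  have tQR : LinearMap.trace ℂ V (Q * R) = 3 := by
    rw [hQR, map_smul, map_sub, map_smul, t1, tJ, smul_zero, smul_eq_mul]; norm_num
  have tQR' : LinearMap.trace ℂ V (Q' * R') = 3 := by
    rw [hQR', map_smul, map_add, map_smul, t1, tJ, smul_zero, smul_eq_mul]; norm_num
  have tQ'R : LinearMap.trace ℂ V (Q' * R) = 0 := by
    have : Q' * R = 0 := by
      apply LinearMap.ext
      intro v
      exact hQ'2 _ (hR1 v)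
    rw [this, map_zero]
  have tQR'' : LinearMap.trace ℂ V (Q * R') = 0 := by
    have : Q * R' = 0 := by
      apply LinearMap.ext
      intro v
      exact hQ2 _ (hR'3 v)
    rw [this, map_zero]
  -- functionals
  let a : Module.End ℂ V →ₗ[ℂ] ℂ := (1 / 3 : ℂ) • (LinearMap.trace ℂ V ∘ₗ LinearMap.mulRight ℂ R)
  let b : Module.End ℂ V →ₗ[ℂ] ℂ := (1 / 3 : ℂ) • (LinearMap.trace ℂ V ∘ₗ LinearMap.mulRight ℂ R')
  have ha : ∀ Z, a Z = (1 / 3 : ℂ) * LinearMap.trace ℂ V (Z * R) := fun Z => rfl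
  have hb : ∀ Z, b Z = (1 / 3 : ℂ) * LinearMap.trace ℂ V (Z * R') := fun Z => rfl
  -- ad J
  have key : ∀ Z ∈ g, J * Z - Z * J = (2 * Complex.I * a Z) • Q - (2 * Complex.I * b Z) • Q' := by
    intro Z hZ
    obtain ⟨X0, hX0, XP, hXP, XM, hXM, hsum, h0, hp1, hp2, hm1, hm2⟩ :=
      comp g J H.lie H.mJ hJ Z hZ
    obtain ⟨c, hc⟩ := hQ.one XP hXP (deg_of hJ hp1 hp2)
    obtain ⟨Y, hY, hYv⟩ := H.sg XM hXM
    have hYv' : ∀ v, Y v = σ (XM (σ v)) := by
      intro v
      have := hYv (σ v)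
      rwa [H.ss] at this
    obtain ⟨d, hd⟩ := hQ.one Y hY (deg_of hJ (fun v => by rw [hYv']; exact hsm _ (hm1 _))
      (fun v hv => by rw [hYv', hm2 _ (hsp v hv), map_zero]))
    have hXMd : XM = (starRingEnd ℂ d) • Q' := by
      apply LinearMap.ext
      intro v
      have h1 := hYv v
      have h2 := congrArg σ h1
      rw [H.ss] at h2
      rw [← h2, hd, LinearMap.smul_apply, map_smulₛₗ, LinearMap.smul_apply, hQ'v]
    have d1 := deg_of hJ hQ1 hQ2
    have d2 := deg_of (JJn hJ) (fun v => mem_Wpn.mpr (hQ'1 v)) (fun v hv => hQ'2 v (mem_Wpn.mp hv))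
    rw [neg_mul, mul_neg, sub_neg_eq_add] at d2
    have d0 : J * X0 = X0 * J := LinearMap.ext h0
    have haZ : a Z = c := by
      rw [ha, hsum, hc, hXMd, add_mul, add_mul, smul_mul_assoc, smul_mul_assoc, map_add, map_add,
        map_smul, map_smul, tr0 hJ h0 hR1 hR2, tQR, tQ'R, smul_eq_mul, smul_eq_mul]
      ring
    have tX0 : LinearMap.trace ℂ V (X0 * R') = 0 := by
      refine tr0 (JJn hJ) (fun v => ?_) hR'1 hR'2
      rw [LinearMap.neg_apply, LinearMap.neg_apply, map_neg, h0]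
    have hbZ : b Z = starRingEnd ℂ d := by
      rw [hb, hsum, hc, hXMd, add_mul, add_mul, smul_mul_assoc, smul_mul_assoc, map_add, map_add,
        map_smul, map_smul, tX0, tQR'', tQR', smul_eq_mul, smul_eq_mul]
      ring
    rw [haZ, hbZ, hsum, hc, hXMd]
    have e : J * (X0 + c • Q + (starRingEnd ℂ d) • Q') - (X0 + c • Q + (starRingEnd ℂ d) • Q') * J =
        (J * X0 - X0 * J) + c • (J * Q - Q * J) + (starRingEnd ℂ d) • (J * Q' - Q' * J) := by
      simp only [mul_add, add_mul, mul_smul_comm, smul_mul_assoc]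
      module
    rw [e, d0, d1]
    have d3 : J * Q' - Q' * J = -((2 * Complex.I) • Q') := by
      rw [← d2]; abel
    rw [d3]
    module
  refine ⟨H.mJ, ?_⟩
  intro Y
  let φ : g →ₗ[ℂ] ℂ := (2 * Complex.I) • (a ∘ₗ g.subtype ∘ₗ adg H.lie Y)
  let ψ : g →ₗ[ℂ] ℂ := -((2 * Complex.I) • (b ∘ₗ g.subtype ∘ₗ adg H.lie Y))
  have hφ : ∀ Z, φ Z = 2 * Complex.I * a (Y.1 * Z.1 - Z.1 * Y.1) := fun Z => rfl
  have hψ : ∀ Z, ψ Z = -(2 * Complex.I * b (Y.1 * Z.1 - Z.1 * Y.1)) := fun Z => rfl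
  have hop : adg H.lie ⟨J, H.mJ⟩ * adg H.lie Y =
      φ.smulRight (⟨Q, hQ.mem⟩ : g) + ψ.smulRight (⟨Q', hQ'g⟩ : g) := by
    apply LinearMap.ext
    intro Z
    apply Subtype.ext
    rw [Module.End.mul_apply, adg_coe, key _ (adg H.lie Y Z).2, adg_coe]
    show _ = φ Z • Q + ψ Z • Q'
    rw [hφ, hψ]
    module
  have haQ : a (Y.1 * Q - Q * Y.1) = -(Complex.I / 3) * Tr2 J Y.1 := by
    rw [ha, sub_mul, map_sub, mul_assoc Y.1, mul_assoc Q, LinearMap.trace_mul_comm ℂ Q (Y.1 * R),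
      mul_assoc, hQR, hRQ, Tr2, LinearMap.trace_mul_comm ℂ J Y.1]
    simp only [mul_smul_comm, mul_sub, mul_add, mul_one, map_smul, map_sub, map_add, smul_eq_mul]
    ring
  have hbQ : b (Y.1 * Q' - Q' * Y.1) = (Complex.I / 3) * Tr2 J Y.1 := by
    rw [hb, sub_mul, map_sub, mul_assoc Y.1, mul_assoc Q', LinearMap.trace_mul_comm ℂ Q' (Y.1 * R'),
      mul_assoc, hQR', hRQ', Tr2, LinearMap.trace_mul_comm ℂ J Y.1]
    simp only [mul_smul_comm, mul_sub, mul_add, mul_one, map_smul, map_sub, map_add, smul_eq_mul]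
    ring
  rw [Kil, hop, map_add, LinearMap.trace_smulRight, LinearMap.trace_smulRight, hφ, hψ]
  show 2 * Complex.I * a (Y.1 * Q - Q * Y.1) + -(2 * Complex.I * b (Y.1 * Q' - Q' * Y.1)) = _
  rw [haQ, hbQ]
  linear_combination (-(4 / 3 : ℂ) * Tr2 J Y.1) * Complex.I_mul_I

end SEV
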