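import Pool.Agent.Lib.SE.V.Spec
import Pool.Agent.Lib.SE.U.uP

/-!
# PROJECT SE-V, module vP: dimension 6, the dichotomy
-/

set_option autoImplicit false

open Module

noncomputable section

namespace SEV

open HC HC.E HC.SE SEB SES SEU

namespace vP_aux

open SEU.uP_aux

variable {V : Type} [AddCommGroup V] [Module ℂ V]

/-- degree one -/
theorem degP {J C : Module.End ℂ V} (hJ : J * J = -1) :
    J * C - C * J = (2 * Complex.I) • C ↔ (∀ v, C v ∈ Wp J) ∧ (∀ v ∈ Wp J, C v = 0) := by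
  constructor
  · intro h
    have h1 : ∀ v, J (C v) - C (J v) = (2 * Complex.I) • C v := fun v => LinearMap.congr_fun h v
    have h2 : ∀ v ∈ Wp J, C v = 0 := by
      intro v hv
      have h3 := h1 v
      rw [mem_Wp.mp hv, map_smul] at h3
      have h4 : J (C v) = (3 * Complex.I) • C v := by
        rw [sub_eq_iff_eq_add] at h3
        rw [h3]
        module
      have h5 := JJ hJ (C v)
      rw [h4, map_smul, h4, smul_smul] at h5
      have h7 : (3 * Complex.I * (3 * Complex.I) : ℂ) = -9 := by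
        linear_combination 9 * Complex.I_mul_I
      rw [h7] at h5
      have h6 : (8 : ℂ) • C v = 0 := by
        have h8 : (8 : ℂ) • C v = -((-9 : ℂ) • C v) - C v := by module
        rw [h8, h5]
        abel
      exact (smul_eq_zero.mp h6).resolve_left (by norm_num)
    refine ⟨?_, h2⟩
    intro v
    obtain ⟨a, ha, b, hb, rfl⟩ := dec hJ v
    rw [map_add, h2 a ha, zero_add, mem_Wp]
    have h3 := h1 b
    rw [mem_Wm.mp hb, map_neg, map_smul, sub_neg_eq_add] at h3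
    have h4 : J (C b) = (2 * Complex.I) • C b - Complex.I • C b := by
      rw [← h3]
      abel
    rw [h4]
    module
  · rintro ⟨h1, h2⟩
    apply LinearMap.ext
    intro v
    obtain ⟨a, ha, b, hb, rfl⟩ := dec hJ v
    have e1 := mem_Wp.mp (h1 b)
    rw [LinearMap.sub_apply, Module.End.mul_apply, Module.End.mul_apply, LinearMap.smul_apply]
    rw [map_add, map_add, map_add, map_add, h2 a ha, mem_Wp.mp ha, mem_Wm.mp hb, map_smul, h2 a ha,
      map_neg, map_smul, map_zero, e1]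
    module

/-- degree minus one -/
theorem degM {J C : Module.End ℂ V} (hJ : J * J = -1) :
    J * C - C * J = -((2 * Complex.I) • C) ↔ (∀ v, C v ∈ Wm J) ∧ (∀ v ∈ Wm J, C v = 0) := by
  constructor
  · intro h
    have h1 : ∀ v, J (C v) - C (J v) = -((2 * Complex.I) • C v) := fun v => LinearMap.congr_fun h v
    have h2 : ∀ v ∈ Wm J, C v = 0 := by
      intro v hv
      have h3 := h1 v
      rw [mem_Wm.mp hv, map_neg, map_smul] at h3
      have h4 : J (C v) = (-3 * Complex.I) • C v := by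
        rw [sub_eq_iff_eq_add] at h3
        rw [h3]
        module
      have h5 := JJ hJ (C v)
      rw [h4, map_smul, h4, smul_smul] at h5
      have h7 : (-3 * Complex.I * (-3 * Complex.I) : ℂ) = -9 := by
        linear_combination 9 * Complex.I_mul_I
      rw [h7] at h5
      have h6 : (8 : ℂ) • C v = 0 := by
        have h8 : (8 : ℂ) • C v = -((-9 : ℂ) • C v) - C v := by module
        rw [h8, h5]
        abel
      exact (smul_eq_zero.mp h6).resolve_left (by norm_num)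
    refine ⟨?_, h2⟩
    intro v
    obtain ⟨a, ha, b, hb, rfl⟩ := dec hJ v
    rw [map_add, h2 b hb, add_zero, mem_Wm]
    have h3 := h1 a
    rw [mem_Wp.mp ha, map_smul] at h3
    have h4 : J (C a) = -((2 * Complex.I) • C a) + Complex.I • C a := by
      rw [← h3]
      abel
    rw [h4]
    module
  · rintro ⟨h1, h2⟩
    apply LinearMap.ext
    intro v
    obtain ⟨a, ha, b, hb, rfl⟩ := dec hJ v
    have e1 := mem_Wm.mp (h1 a)
    rw [LinearMap.sub_apply, Module.End.mul_apply, Module.End.mul_apply, LinearMap.neg_apply,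
      LinearMap.smul_apply]
    rw [map_add, map_add, map_add, map_add, h2 b hb, mem_Wp.mp ha, mem_Wm.mp hb, map_neg, map_smul,
      map_smul, h2 b hb, map_zero, e1]
    module

variable {g : Submodule ℂ (Module.End ℂ V)} {ω : V →ₗ[ℂ] V →ₗ[ℂ] ℂ} {J : Module.End ℂ V}
  {σ : V →ₛₗ[starRingEnd ℂ] V}

theorem frm [FiniteDimensional ℂ V] (hV : finrank ℂ V = 6) (H : Cfg g ω J σ) :
    finrank ℂ (Wm J) = 3 := by
  have h1 := Submodule.finrank_add_eq_of_isCompl (isCompl H.JJ)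
  rw [hV, fr_le H.JJ H.smp (H.skw J H.mJ)] at h1
  omega

theorem frp [FiniteDimensional ℂ V] (hV : finrank ℂ V = 6) (H : Cfg g ω J σ) :
    finrank ℂ (Wp J) = 3 := by
  rw [fr_le H.JJ H.smp (H.skw J H.mJ), frm hV H]

/-- an element of rank one gives everything -/
theorem rankOne (hR : SEH.S_hR) [FiniteDimensional ℂ V] (H : Cfg g ω J σ)
    (φ : Module.Dual ℂ V) (x : V) (hφ : φ ≠ 0) (hx : x ≠ 0) (hJx : J x = Complex.I • x)
    (hm : φ.smulRight x ∈ g) :
    ∀ Y : Module.End ℂ V, SEH.Skw ω Y →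
      Y ∈ Submodule.span ℂ {Y | ∃ A ∈ g, ∃ B ∈ g, Y = A * B - B * A} := by
  obtain ⟨u, hu⟩ : ∃ u, φ u ≠ 0 := by
    by_contra hc
    push Not at hc
    exact hφ (LinearMap.ext hc)
  have hωx := H.pos x hx hJx
  have hφy : φ (σ x) ≠ 0 := by
    intro hz
    have h := H.skw _ hm (σ x) u
    rw [LinearMap.smulRight_apply, LinearMap.smulRight_apply, hz, zero_smul, map_zero,
      LinearMap.zero_apply, zero_add, map_smul, smul_eq_mul, om_swap H.smp] at h
    rcases mul_eq_zero.mp h with h | h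
    · exact hu h
    · exact hωx (neg_eq_zero.mp h)
  have hy0 : σ x ≠ 0 := by
    intro hz
    rw [hz, map_zero] at hφy
    exact hφy rfl
  obtain ⟨C', hC', hCC⟩ := H.sg _ hm
  have hC2 : ∀ v, C' v = (starRingEnd ℂ) (φ (σ v)) • σ x := by
    intro v
    have := hCC (σ v)
    rw [H.ss] at this
    rw [this, LinearMap.smulRight_apply, map_smulₛₗ]
  obtain ⟨ψ, hψ⟩ := rk1 H.smp C' hy0 (fun v => ⟨_, hC2 v⟩)
  have hψx : ψ x ≠ 0 := by
    intro hz
    have h3 := LinearMap.congr_fun hψ x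
    rw [LinearMap.smulRight_apply, hz, zero_smul, hC2 x, smul_eq_zero] at h3
    rcases h3 with h3 | h3
    · exact hφy ((map_eq_zero _).mp h3)
    · exact hy0 h3
  exact hR V g ω x (σ x) φ ψ H.smp H.skw H.lie hφy hψx hm (hψ ▸ hC') H.irr

/-- a nonzero element of degree one -/
theorem exQ [FiniteDimensional ℂ V] (hV : finrank ℂ V = 6) (H : Cfg g ω J σ) :
    ∃ Q ∈ g, (∀ v, Q v ∈ Wp J) ∧ (∀ v ∈ Wp J, Q v = 0) ∧ Q ≠ 0 := by
  have hfr := frm hV H
  by_contra hc
  push Not at hc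
  have hst : ∀ X ∈ g, ∀ u ∈ Wm J, X u ∈ Wm J := by
    intro X hX u hu
    obtain ⟨X0, hX0, XP, hXP, XM, hXM, hsum, h0, hp1, hp2, hm1, hm2⟩ :=
      comp g J H.lie H.mJ H.JJ X hX
    have hP0 := hc XP hXP hp1 hp2
    rw [hsum, hP0, LinearMap.add_apply, LinearMap.add_apply, hm2 u hu, LinearMap.zero_apply,
      add_zero, add_zero]
    rw [mem_Wm] at hu ⊢
    rw [h0, hu, map_neg, map_smul]
  rcases H.irr (Wm J) hst with h | h
  · rw [h, finrank_bot] at hfr
    omega
  · rw [h, finrank_top, hV] at hfr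
    omega

/-- two injective elements of degree one are proportional -/
theorem prop1 [FiniteDimensional ℂ V] {Q : Module.End ℂ V}
    (hfr : finrank ℂ (Wm J) = 3) (hfrp : finrank ℂ (Wp J) = 3) (hQg : Q ∈ g)
    (hQ1 : ∀ v, Q v ∈ Wp J) (hQ2 : ∀ v ∈ Wp J, Q v = 0) (hQ0 : Q ≠ 0)
    (hb : ∀ C ∈ g, (∀ v, C v ∈ Wp J) → (∀ v ∈ Wp J, C v = 0) → C ≠ 0 →
      ∀ w ∈ Wm J, w ≠ 0 → C w ≠ 0)
    (C : Module.End ℂ V) (hC : C ∈ g) (hC1 : ∀ v, C v ∈ Wp J) (hC2 : ∀ v ∈ Wp J, C v = 0) :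
    ∃ t : ℂ, C = t • Q := by
  let q : Wm J →ₗ[ℂ] Wp J := LinearMap.restrict Q (fun v _ => hQ1 v)
  let c : Wm J →ₗ[ℂ] Wp J := LinearMap.restrict C (fun v _ => hC1 v)
  have hq : Function.Injective q := by
    rw [injective_iff_map_eq_zero]
    intro x hx
    by_contra hx0
    exact hb Q hQg hQ1 hQ2 hQ0 x x.2 (fun h => hx0 (Subtype.ext h)) (congrArg Subtype.val hx)
  let e := LinearMap.linearEquivOfInjective q hq (by rw [hfr, hfrp])
  let T : Module.End ℂ (Wm J) := e.symm.toLinearMap ∘ₗ c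
  have : Nontrivial (Wm J) := Module.nontrivial_of_finrank_pos (R := ℂ) (by omega)
  obtain ⟨t, ht⟩ := Module.End.exists_eigenvalue T
  obtain ⟨v, hv⟩ := ht.exists_hasEigenvector
  have h1 : T v = t • v := hv.apply_eq_smul
  have h2 : c v = t • q v := by
    have h3 : e (T v) = c v := by
      show e (e.symm (c v)) = c v
      rw [e.apply_symm_apply]
    rw [← h3, h1, map_smul]
    rfl
  have h4 : C v = t • Q v := congrArg Subtype.val h2
  refine ⟨t, ?_⟩
  by_contra hne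
  refine hb (C - t • Q) (g.sub_mem hC (g.smul_mem _ hQg)) ?_ ?_ (sub_ne_zero.mpr hne) v v.2
    (fun h => hv.2 (Subtype.ext h)) ?_
  · intro u
    rw [LinearMap.sub_apply, LinearMap.smul_apply]
    exact (Wp J).sub_mem (hC1 u) ((Wp J).smul_mem _ (hQ1 u))
  · intro u hu
    rw [LinearMap.sub_apply, LinearMap.smul_apply, hC2 u hu, hQ2 u hu, smul_zero, sub_zero]
  · rw [LinearMap.sub_apply, LinearMap.smul_apply, h4, sub_self]

end vP_aux

open SEU.uP_aux vP_aux

theorem tvP : SEH.S_hR → S_vA → S_vP := by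
  intro hR hA V _ _ _ g ω J σ hV H
  obtain ⟨Q, hQg, hQ1, hQ2, hQ0⟩ := exQ hV H
  by_cases hb : ∃ C ∈ g, (∀ v, C v ∈ Wp J) ∧ (∀ v ∈ Wp J, C v = 0) ∧ C ≠ 0 ∧
      ∃ w ∈ Wm J, w ≠ 0 ∧ C w = 0
  · left
    obtain ⟨C, hC, hC1, hC2, hC0, w, hw, hw0, hCw⟩ := hb
    obtain ⟨φ, x, hφ, hx, hJx, -, hm⟩ := hA V g ω J σ hV H C hC ((degP H.JJ).mpr ⟨hC1, hC2⟩) hC0
      w hw0 (mem_Wm.mp hw) hCw
    exact rankOne hR H φ x hφ hx hJx hm
  · right
    push Not at hb
    have hone := prop1 (frm hV H) (frp hV H) hQg hQ1 hQ2 hQ0 hb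
    refine ⟨Q, hQg, (degP H.JJ).mpr ⟨hQ1, hQ2⟩, ?_, ?_⟩
    · intro w hw hQw
      by_contra hw0
      exact hb Q hQg hQ1 hQ2 hQ0 w (mem_Wm.mpr hw) hw0 hQw
    · intro C hC hd
      obtain ⟨hC1, hC2⟩ := (degP H.JJ).mp hd
      exact hone C hC hC1 hC2

end SEV
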