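import Pool.Agent.Lib.SE.V.Spec

/-!
# PROJECT SE-V: transfer to the Hodge Lie algebra
-/

set_option autoImplicit false

open Module

noncomputable section

namespace SEV

open HC HC.E HC.SE SEB SES SEU

open SEU.uT_aux SEH.hTr_aux in
theorem tvT : S_vT := by
  classical
  intro T E hE r e
  have hEa := hE.2.1
  have hEp := hE.2.2.2
  -- the form
  have hdet := mE_det e E hEp
  set F : Matrix (Fin r) (Fin r) ℝ := (mE e E)⁻¹ with hF
  have hF1 : F * mE e E = 1 := Matrix.nonsing_inv_mul _ hdet
  have hF2 : mE e E * F = 1 := Matrix.mul_nonsing_inv _ hdet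
  have hsk : ∀ Y : Module.End ℝ T.V, (∀ u v, E (Y u) v + E u (Y v) = 0) →
      SEH.Skw (om F) (hat e Y) := fun Y hY =>
    om_skw e F Y (inv_skw _ F _ hF1 hF2 (mE_skw e E Y hY))
  have hsmp : SEH.Smp (om F) := by
    apply om_smp _ F hF1 hF2
    ext k l
    exact hEa (e l) (e k)
  refine ⟨om F, ?_⟩
  intro h hh hirr
  have hgs : ∀ A ∈ gh e h, SEH.Skw (om F) A := by
    intro A hA
    rw [gh] at hA
    induction hA using Submodule.span_induction with
    | mem A hA =>
      obtain ⟨Y, hY, rfl⟩ := hA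
      exact hsk Y (hh.sk Y hY)
    | zero =>
      intro a b
      rw [LinearMap.zero_apply, LinearMap.zero_apply, map_zero, map_zero]
      simp
    | add A B _ _ h1 h2 =>
      intro a b
      have h3 := h1 a b
      have h4 := h2 a b
      rw [LinearMap.add_apply, LinearMap.add_apply, map_add, map_add, LinearMap.add_apply]
      linear_combination h3 + h4
    | smul c A _ h1 =>
      intro a b
      have h3 := h1 a b
      rw [LinearMap.smul_apply, LinearMap.smul_apply, map_smul, map_smul, LinearMap.smul_apply,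
        smul_eq_mul, smul_eq_mul]
      linear_combination c * h3
  -- commutators
  have hcm : Com h ⊆ h := by
    rintro _ ⟨A, hA, B, hB, rfl⟩
    exact hh.lie.br A hA B hB
  have hgcom : ∀ A ∈ gh e h, ∀ B ∈ gh e h, A * B - B * A ∈ gh e h := fun A hA B hB =>
    Submodule.span_mono (Set.image_mono hcm) (com_mem e h A B hA hB)
  -- conjugation
  have hgcj : ∀ A ∈ gh e h, ∃ A' ∈ gh e h, ∀ v, A' (cj r v) = cj r (A v) := by
    intro A hA
    rw [gh] at hA
    induction hA using Submodule.span_induction with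
    | mem A hA =>
      obtain ⟨Y, hY, rfl⟩ := hA
      exact ⟨hat e Y, Submodule.subset_span ⟨Y, hY, rfl⟩, fun v => hat_cj e Y v⟩
    | zero =>
      exact ⟨0, zero_mem _, fun v => by rw [LinearMap.zero_apply, LinearMap.zero_apply, map_zero]⟩
    | add A B _ _ h1 h2 =>
      obtain ⟨A', hA', h3⟩ := h1
      obtain ⟨B', hB', h4⟩ := h2
      refine ⟨A' + B', add_mem hA' hB', fun v => ?_⟩
      rw [LinearMap.add_apply, LinearMap.add_apply, h3, h4, map_add]
    | smul c A _ h1 =>
      obtain ⟨A', hA', h3⟩ := h1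
      refine ⟨(starRingEnd ℂ) c • A', Submodule.smul_mem _ _ hA', fun v => ?_⟩
      rw [LinearMap.smul_apply, LinearMap.smul_apply, h3, map_smulₛₗ]
  -- irreducibility
  have hgirr : ∀ U : Submodule ℂ (Fin r → ℂ), (∀ A ∈ gh e h, ∀ u ∈ U, A u ∈ U) →
      U = ⊥ ∨ U = ⊤ := by
    intro U hU
    rcases hirr (U.comap (Ph e)) (fun Y hY a ha => by
      rw [Submodule.mem_comap, Ph_pre]
      exact hU _ (Submodule.subset_span ⟨Y, hY, rfl⟩) _ ha) with h1 | h1
    · left
      rw [← Submodule.map_comap_eq_of_surjective (Ph_surj e) U, h1, Submodule.map_bot]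
    · right
      rw [← Submodule.map_comap_eq_of_surjective (Ph_surj e) U, h1, Submodule.map_top,
        LinearMap.range_eq_top.2 (Ph_surj e)]
  refine ⟨⟨hsmp, hgs, hgcom, hat_span e h _ hh.J, hat_J e, cj_cj, fun v => (hat_cj e _ v).symm,
    hgcj, fun x hx hJ => om_pos e E hE F hF2 x hx hJ, hgirr⟩, ?_⟩
  intro hspan X hX
  have h1 := hspan (hat e X) (hsk X hX)
  apply real_span e
  refine Submodule.span_le.2 ?_ h1
  rintro _ ⟨A, hA, B, hB, rfl⟩
  exact com_mem e h A B hA hB

end SEV
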