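import Pool.Agent.Lib.SE.V.Asm
import Pool.Agent.Lib.SE.V.vS
import Pool.Agent.Lib.SE.V.vM
import Pool.Agent.Lib.SE.V.vE
import Pool.Agent.Lib.SE.V.vF
import Pool.Agent.Lib.SE.V.vG
import Pool.Agent.Lib.SE.V.vC
import Pool.Agent.Lib.SE.V.vP
import Pool.Agent.Lib.SE.V.vA
import Pool.Agent.Lib.SE.V.vN
import Pool.Agent.Lib.SE.V.vB
import Pool.Agent.Lib.SE.V.vD
import Pool.Agent.Lib.SE.V.vH
import Pool.Agent.Lib.SE.V.vT
import Pool.Agent.Lib.SE.Hyp.hR

/-!
# PROJECT SE-V: products of abelian varieties of dimension at most three, the modules (helper64)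
-/

set_option autoImplicit false

noncomputable section

namespace SEV

theorem modsV : ModsV where
  vS := tvS
  vM := tvM
  vE := tvE
  vF := tvF
  vG := tvG
  vC := tvC
  vP := tvP SEH.thR tvA
  vN := tvN
  vB := tvB
  vD := tvD
  vH := tvH
  vT := tvT

end SEV
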