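import Pool.Agent.Lib.SE.U.Main

/-!
# PROJECT SE-V: abelian threefolds (helper64)

Every abelian variety `T` of dimension 3 is of CM type, or has real multiplication by a totally real
cubic field, or is isogenous to a product of an elliptic curve and an abelian surface, or its Hodge Lie
algebra is `sp(E)` for every Riemann form `E`, or an imaginary quadratic field acts on it, not by scalars.

Every module: file `SE/V/vXyz.lean`, `theorem tvXyz : S_vXyz`, namespace `SEV` (after it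
`open HC HC.E HC.SE SEB SES SEU`), import `Pool.Agent.Lib.SE.V.Spec` and the proved modules you want. If the
docstring says `From S_A` the theorem is `tXyz : S_A → S_Xyz`. Auxiliary lemmas in `namespace SEV.vXyz_aux`.

`T.V` is a complex vector space, `T.L` a lattice (`IsZLattice ℝ`); `RatEnd T X`: every element of `T.L` has a
multiple which `X` maps into `T.L`; `Cx X`: complex linear; `Sy E X`: symmetric for `E`; `IsSk E X`: skew; `Scal X`: a real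
scalar (SE/U/Spec.lean).
-/

set_option autoImplicit false

open Module

noncomputable section

namespace SEV

open HC HC.E HC.SE SEB SES SEU

/-! ## Endomorphisms -/

/-- A rational complex linear projection, not `0`, `1`. -/
def HasP (T : AV) : Prop :=
  ∃ P : Module.End ℝ T.V, RatEnd T P ∧ Cx P ∧ P * P = P ∧ P ≠ 0 ∧ P ≠ 1

/-- SPLITTING. PROOF. As SE/U/uS.lean (`uS_aux.ex_sub`, `uS_aux.span_lat` are general): `V₁ = range P`, `V₂ = ker P`,
`IsCompl`, both are complex subspaces, the lattices `T.L ∩ V_i` span them; `ψ = (P, 1 - P)`. -/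
def S_vS : Prop := ∀ T : AV, HasP T → ∃ T₁ T₂ : AV, 0 < finrank ℂ T₁.V ∧ 0 < finrank ℂ T₂.V ∧
  finrank ℂ T₁.V + finrank ℂ T₂.V = finrank ℂ T.V ∧ IsProd T T₁ T₂

/-- THE MINIMAL POLYNOMIAL IS RATIONAL. PROOF. `e` a real basis of `T.V` in `T.L`, `A` the matrix of `X`: it is
rational, `A = A₀.map`. `f` = the minimal polynomial of `A₀` over `ℚ`. `f(X) = 0`. Rational matrices which are
linearly independent over `ℚ` are linearly independent over `ℝ` (for example: linear independence of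
vectors in `ℚ^N` is the non-vanishing of a minor; or a `ℚ`-linear projection `ℝ → ℚ` ... ; or
`LinearIndependent` and base change), so `1, X, …, X^(deg f - 1)` are independent over `ℝ`, and
`minpoly ℝ X`, which divides `f`, has the same degree. -/
def S_vM : Prop := ∀ (T : AV) (X : Module.End ℝ T.V), RatEnd T X →
  ∃ f : Polynomial ℚ, f.Monic ∧ minpoly ℝ X = f.map (algebraMap ℚ ℝ)

/-- SYMMETRIC ELEMENTS ARE DIAGONALISABLE. PROOF. `⟨u, v⟩ = E (i u) v` is a real inner product on `T.V`, `X` is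
symmetric for it (it commutes with `i`) and complex linear; `H(u, v) = E (i u) v + i E u v` (or its
conjugate) is a hermitian inner product and `X` is a hermitian complex linear operator, so it is
diagonalisable over `ℂ` with at most `finrank ℂ T.V` real eigenvalues (see SE/U/uQ.lean for the real inner product and
the spectral theorem used there); `s` = the set of the eigenvalues. `∏ (X - λ) = 0` on `T.V`, and the minimal
polynomial is divisible by all `X - λ`. -/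
def S_vE : Prop :=
  ∀ (T : AV) (E : T.V →ₗ[ℝ] T.V →ₗ[ℝ] ℝ), IsRf T E → ∀ X : Module.End ℝ T.V, Cx X → Sy E X →
    ∃ s : Finset ℝ, s.card ≤ finrank ℂ T.V ∧
      minpoly ℝ X = ∏ a ∈ s, (Polynomial.X - Polynomial.C a)

/-- REDUCIBLE MINIMAL POLYNOMIAL. PROOF. `f` is squarefree (its real roots are distinct) and monic, `f ≠ 1` (otherwise
`1 = 0`, `X = 0` is a scalar). `f = g h` with `g`, `h` not units, coprime: `a g + b h = 1`, `P = (a g)(X)`.
`P (1 - P) = (a b f)(X) = 0`; `P = 0` would give `h ∣ f ∣ a g`, so `h ∣ 1`; `P = 1` similarly (`(b h)(X) = 0`, `g ∣ 1`).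
`P` is rational (a rational polynomial in `X`; `SES`/`SEB` have lemmas for sums and products of `RatEnd`) and
complex linear. -/
def S_vF : Prop :=
  ∀ (T : AV) (X : Module.End ℝ T.V), RatEnd T X → Cx X → ¬ Scal X → ∀ (s : Finset ℝ)
    (f : Polynomial ℚ), minpoly ℝ X = ∏ a ∈ s, (Polynomial.X - Polynomial.C a) →
    f.Monic → minpoly ℝ X = f.map (algebraMap ℚ ℝ) → ¬ Irreducible f → HasP T

/-- IRREDUCIBLE MINIMAL POLYNOMIAL. PROOF. `s.card` is not `0` (`1 ≠ 0` in `End`), not `1` (`X` would be a scalar). If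
`s = {a, b}`, `a ≠ b`: `T.V = V_a ⊕ V_b` (eigenspaces, complex subspaces, both `≠ 0`), complex dimensions `1` and
`2`, so the real trace of `X` is `2 (a + 2 b)` or `2 (2 a + b)`; it is rational (matrix in a real basis in `T.L`), `a + b` is
rational (coefficient of `f`), so `a`, `b` are rational and `f = (x - a)(x - b)` is not irreducible. If `s.card = 3`:
`f.natDegree = 3 = finrank ℂ T.V`, `F = AdjoinRoot f`, a number field of degree `3`; all its complex embeddings are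
real because all complex roots of `f` are in `s`; `ι` = evaluation at the complex linear map `X`. As SE/U/uR.lean. -/
def S_vG : Prop :=
  ∀ T : AV, finrank ℂ T.V = 3 → ∀ X : Module.End ℝ T.V, RatEnd T X → Cx X → ¬ Scal X →
    ∀ (s : Finset ℝ) (f : Polynomial ℚ), s.card ≤ 3 →
    minpoly ℝ X = ∏ a ∈ s, (Polynomial.X - Polynomial.C a) →
    f.Monic → minpoly ℝ X = f.map (algebraMap ℚ ℝ) → Irreducible f → IsRM T

/-- PICARD TYPE. PROOF. `d ≠ 0`. `c = d²`: `W = Z / d`, `W² = -1`, `m = 4`, `e = 0`. `c = 3 d²`: `W = (-1 + Z / d) / 2`, `W² = - W - 1`,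
`m = 3`, `e = -1`. `W` is rational and complex linear. `SEP.tLtz` (SE/P/Ltz.lean) for `W` and `e`: `G = T'`, `Z' = ψ⁻¹ W ψ`
preserves `G.L`; `Isg T G` (by `k • ψ⁻¹`). `cyc`: the cyclotomic polynomials `X² + X + 1` and `X² + 1`. `one`: `T.V` is the sum of
the two eigenspaces of the complex linear map `Z'` (roots of the polynomial), both are not `0` (otherwise `Z'` is
a complex scalar, `Z = ± i √c`, `mulI T = t • Z`), so the dimensions are `1`, `2` in some order. `EndQ`: `X` rational,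
complex linear, commuting with `Z'`; transport to `T` (`Y = ψ X ψ⁻¹`, it commutes with `Z`). `Y†` = the adjoint for `E` (SE/U/uA.lean:
`E (Y u) v = E u (Y† v)`; it exists, is rational and complex linear). `Y + Y†` is symmetric, so it is a scalar `a`; it is
rational. `D = Y - Y†` is skew and commutes with `Z` (`Z` is skew and commutes with `Y`, so with `Y†`); `D Z` is symmetric
(`(D Z)† = Z† D† = Z D = D Z`), so it is a scalar `b`, rational; `D = - (b / c) Z`. `Y = a / 2 - (b / (2 c)) Z`, a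
rational polynomial in `W`. (A rational endomorphism which is a real scalar: the scalar is rational, e.g. `tuL` or
`v ∈ T.L`, `v ≠ 0`, `N a v ∈ T.L`, coordinates.) -/
def S_vC : Prop :=
  ∀ (T : AV) (E : T.V →ₗ[ℝ] T.V →ₗ[ℝ] ℝ), IsRf T E → finrank ℂ T.V = 3 →
    ∀ (Z : Module.End ℝ T.V) (c d : ℚ), RatEnd T Z → Cx Z → IsSk E Z → 0 < c →
    Z * Z = -(c : ℝ) • 1 → (c = d ^ 2 ∨ c = 3 * d ^ 2) → (∀ t : ℝ, mulI T ≠ t • Z) →
    (∀ X : Module.End ℝ T.V, RatEnd T X → Cx X → Sy E X → Scal X) →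
    ∃ (G : AV) (m : ℕ) (Z' : Module.End ℂ G.V), SEQ.Isg T G ∧ IsPic G m Z' ∧
      3 ≤ finrank ℂ G.V ∧ EndQ G Z'

/-! ## The Killing form -/

section Lie

variable {V : Type} [AddCommGroup V] [Module ℂ V] [FiniteDimensional ℂ V]

/-- `g` is closed under brackets. -/
def Clo (g : Submodule ℂ (Module.End ℂ V)) : Prop := ∀ X ∈ g, ∀ Y ∈ g, X * Y - Y * X ∈ g

/-- `ad`. -/
def adg {g : Submodule ℂ (Module.End ℂ V)} (hl : Clo g) : g →ₗ[ℂ] Module.End ℂ g :=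
  LinearMap.mk₂ ℂ (fun X Y => ⟨X.1 * Y.1 - Y.1 * X.1, hl _ X.2 _ Y.2⟩)
    (fun X X' Y => Subtype.ext (by
      change (X.1 + X'.1) * Y.1 - Y.1 * (X.1 + X'.1) = X.1 * Y.1 - Y.1 * X.1 +
        (X'.1 * Y.1 - Y.1 * X'.1)
      rw [add_mul, mul_add]; abel))
    (fun c X Y => Subtype.ext (by
      change (c • X.1) * Y.1 - Y.1 * (c • X.1) = c • (X.1 * Y.1 - Y.1 * X.1)
      rw [smul_mul_assoc, mul_smul_comm, smul_sub]))
    (fun X Y Y' => Subtype.ext (by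
      change X.1 * (Y.1 + Y'.1) - (Y.1 + Y'.1) * X.1 = X.1 * Y.1 - Y.1 * X.1 +
        (X.1 * Y'.1 - Y'.1 * X.1)
      rw [add_mul, mul_add]; abel))
    (fun c X Y => Subtype.ext (by
      change X.1 * (c • Y.1) - (c • Y.1) * X.1 = c • (X.1 * Y.1 - Y.1 * X.1)
      rw [smul_mul_assoc, mul_smul_comm, smul_sub]))

omit [FiniteDimensional ℂ V] in
theorem adg_coe {g : Submodule ℂ (Module.End ℂ V)} (hl : Clo g) (X Y : g) :
    ((adg hl X Y : g) : Module.End ℂ V) = X.1 * Y.1 - Y.1 * X.1 := rfl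

/-- The Killing form `K(X, Y) = tr (ad X ad Y)`. -/
def Kil {g : Submodule ℂ (Module.End ℂ V)} (hl : Clo g) (X Y : g) : ℂ :=
  LinearMap.trace ℂ g (adg hl X * adg hl Y)

/-- The trace form. -/
def Tr2 (X Y : Module.End ℂ V) : ℂ := LinearMap.trace ℂ V (X * Y)

/-- The elements `X` of `g` with `K(X, ·) = (4/3) tr(X ·)`. -/
def Rad {g : Submodule ℂ (Module.End ℂ V)} (hl : Clo g) (X : Module.End ℂ V) : Prop :=
  ∃ hX : X ∈ g, ∀ Y : g, Kil hl ⟨X, hX⟩ Y = (4 / 3) * Tr2 X Y.1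

/-- The configuration. -/
structure Cfg (g : Submodule ℂ (Module.End ℂ V)) (ω : V →ₗ[ℂ] V →ₗ[ℂ] ℂ) (J : Module.End ℂ V)
    (σ : V →ₛₗ[starRingEnd ℂ] V) : Prop where
  smp : SEH.Smp ω
  skw : ∀ X ∈ g, SEH.Skw ω X
  lie : Clo g
  mJ : J ∈ g
  JJ : J * J = -1
  ss : ∀ v, σ (σ v) = v
  sJ : ∀ v, σ (J v) = J (σ v)
  sg : ∀ X ∈ g, ∃ X' ∈ g, ∀ v, X' (σ v) = σ (X v)
  pos : ∀ x, x ≠ 0 → J x = Complex.I • x → ω x (σ x) ≠ 0
  irr : ∀ U : Submodule ℂ V, (∀ X ∈ g, ∀ u ∈ U, X u ∈ U) → U = ⊥ ∨ U = ⊤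

/-- The exceptional case: the elements of degree `1` (`[J, C] = 2 i C`) are the multiples of `Q`, and `Q` is
injective on `W⁻ = {w | J w = - i w}`. -/
structure Bad (g : Submodule ℂ (Module.End ℂ V)) (J Q : Module.End ℂ V) : Prop where
  mem : Q ∈ g
  deg : J * Q - Q * J = (2 * Complex.I) • Q
  inj : ∀ w, J w = -(Complex.I • w) → Q w = 0 → w = 0
  one : ∀ C ∈ g, J * C - C * J = (2 * Complex.I) • C → ∃ c : ℂ, C = c • Q

end Lie

/-! ## Linear algebra in dimension 6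

Notation: `W^± = {v | J v = ± i v}`, `V = W⁺ ⊕ W⁻`, `σ` exchanges them, so both have dimension `3`; `ω(W⁺, W⁺) = 0 = ω(W⁻, W⁻)`
(`J` is skew), `ω` is a perfect pairing of `W⁺` and `W⁻`. `X ∈ g` has components `X₊, X₀, X₋` for the eigenvalues `2 i, 0, -2 i`
of `ad J`, which are in `g` (polynomials in `ad J`). `g₊`, `g₀`, `g₋`. `C ∈ g₊` maps `W⁻` to `W⁺` and `W⁺` to `0`; `C ↦ σ C σ` exchanges `g₊`
and `g₋`. SE/U/uP.lean has many lemmas (`uP_aux`, general dimension), import it. -/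

/-- A DEGENERATE ELEMENT GIVES AN ELEMENT OF RANK ONE. PROOF. Suppose there is no element of rank one in `g₊`. `e = C`. Its
rank on `W⁻` is `≤ 2`, `≠ 0`, `≠ 1`, so it is `2`: `R = e(W⁻)` of dimension `2`, `K = ker e ∩ W⁻` of dimension `1`,
`ω(R, K) = 0` (`ω(e w, k) = - ω(w, e k)`). `ē = σ e σ ∈ g₋`, `R̄ = σ R`, `R' = ker ē ∩ W⁺ = σ K`.
(1) `R ∩ R' = 0`: `u ∈ R`, `σ u ∈ K` gives `ω(u, σ u) = 0`, `u = 0` (`pos`). So `W⁺ = R ⊕ R'`, `W⁻ = R̄ ⊕ K`, and `x = e ē` maps `R`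
bijectively to `R`. `x e = e ē e ∈ g₊` (`[[e, ē], e] = 2 e ē e` as `e e = 0`). If `x` is not a scalar on `R`, let `a` be an
eigenvalue of `x` on `R`: `x e - a e ∈ g₊` has rank one. Contradiction. So `x = a` on `R`, `a ≠ 0`: `e ē e = a e`, and
`ē e ē = a ē` on `W⁺` (both sides are `0` on `R'`, and `ē e = a` on `R̄` since `e ē e = a e`, `e` injective on `R̄`).
(2) For `X ∈ g₊`: `[[e, ē], X] = e ē X + X ē e = a (P X + X P̄)`, `P` the projection of `W⁺` on `R` along `R'`, `P̄` the projection of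
`W⁻` on `R̄` along `K`. So the components `P X P̄`, `P X (1 - P̄) + (1 - P) X P̄`, `(1 - P) X (1 - P̄)` of `X` (eigenvalues
`2 a, a, 0`) are in `g₊`. The last one has rank `≤ 1`, so it is `0`. (3) If all `X ∈ g₊` are of the first kind (`P X P̄ = X`):
`U = R ⊕ R̄` is stable under `g₊`, `g₋`, and `X₀ ∈ g₀`: `X₀ e w = [X₀, e] w + e X₀ w ∈ R`, so `X₀ R ⊆ R`, and `X₀ R̄ ⊆ R̄` by `σ`.
`dim U = 4`: contradiction to `irr`. (4) So there is `X ∈ g₊`, `X ≠ 0`, of the second kind: `X K ⊆ R`, `X R̄ ⊆ R'`. `K = ℂ k`, `R' = ℂ f`, `ω(f, k) ≠ 0`,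
`B = X k`. `X r̄ = (ω(X r̄, k)/ω(f, k)) f`, `ω(X r̄, k) = - ω(r̄, B) = ω(B, r̄)`: `X ≠ 0` implies `B ≠ 0`, and `X` is determined by `B`.
`X ē X ∈ g₊` (polarise `[[C, C'], C] = 2 C C' C`; or directly `[[X, ē], X] = 2 X ē X`); `X ē X k = X (ē B) = (ω(B, ē B)/ω(f, k)) f`, `X ē X R̄ = X ē R' = 0`: of
rank `≤ 1`, so `ω(B, ē B) = 0`. The same for all `X` of the second kind. `s(u, v) = ω(u, ē v)` is symmetric on `R` and
nondegenerate (`R`, `R̄` are paired perfectly because `ω(R, K) = 0`), so the set of the `B`'s, a totally isotropic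
subspace of `R`, has dimension `1`: the second kind is `ℂ X`. The first kind is `ℂ e`: `A = P A P̄`, some `A - t e` is
not injective on `R̄` (`t` an eigenvalue of `(e|R̄)⁻¹ A`), of rank `≤ 1`, so `A = t e`. So `g₊ = ℂ e + ℂ X`.
(5) `X₀ B ∈ ℂ B` for `X₀ ∈ g₀`: `X₀ B = [X₀, X] k + X X₀ k ∈ (ℂ e k + ℂ X k) + X (R̄ + ℂ k) ⊆ ℂ B + ℂ f`; and with `b̄ = ē B / a ∈ R̄`,
`B = e b̄`, `X b̄ = 0` (`ω(B, b̄) = 0`): `X₀ B = [X₀, e] b̄ + e X₀ b̄ ∈ R`. So `X₀ B ∈ (ℂ B + ℂ f) ∩ R = ℂ B`.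
(6) `U = ℂ B + {Y B | Y ∈ g₋}` is stable: `g₊ B = 0`, `g₀ B ⊆ ℂ B`, `g₋ g₋ B = 0`, `g₀ Y B ⊆ [g₀, Y] B + Y g₀ B`, `g₊ Y B ⊆ [g₊, Y] B ⊆ g₀ B`.
Its dimension is between `1` and `4`: contradiction. -/
def S_vA : Prop :=
  ∀ (V : Type) [AddCommGroup V] [Module ℂ V] [FiniteDimensional ℂ V]
    (g : Submodule ℂ (Module.End ℂ V)) (ω : V →ₗ[ℂ] V →ₗ[ℂ] ℂ) (J : Module.End ℂ V)
    (σ : V →ₛₗ[starRingEnd ℂ] V), finrank ℂ V = 6 → Cfg g ω J σ →
    ∀ C ∈ g, J * C - C * J = (2 * Complex.I) • C → C ≠ 0 →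
    ∀ w, w ≠ 0 → J w = -(Complex.I • w) → C w = 0 →
    ∃ (φ : Module.Dual ℂ V) (x : V), φ ≠ 0 ∧ x ≠ 0 ∧ J x = Complex.I • x ∧
      (∀ v, J v = Complex.I • v → φ v = 0) ∧ φ.smulRight x ∈ g

/-- THE DICHOTOMY. From `SEH.S_hR`, `S_vA`. PROOF. (a) An element `φ.smulRight x ∈ g` as in `S_vA`: it is skew, so
`φ = c ω(x, ·)`, `c ≠ 0`; `σ C σ = ψ.smulRight y ∈ g`, `y = σ x`; `φ y = c ω(x, σ x) ≠ 0` (`pos`), similarly `ψ x ≠ 0`: `S_hR` gives the
first alternative. (Step (b) of SE/U/uP.lean.) (b) `g₊ = 0` is impossible: `g₋ = 0` (`σ`), so `W⁺` is stable, of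
dimension `3`. (c) Some `0 ≠ C ∈ g₊` is not injective on `W⁻`: `S_vA` and (a). (d) Otherwise all `0 ≠ C ∈ g₊` are
bijective from `W⁻` to `W⁺`; two of them, `C`, `Q`, are proportional: `Q⁻¹ C` has an eigenvalue `c` on `W⁻`, `C - c Q` is not
injective, so `C = c Q`. -/
def S_vP : Prop :=
  ∀ (V : Type) [AddCommGroup V] [Module ℂ V] [FiniteDimensional ℂ V]
    (g : Submodule ℂ (Module.End ℂ V)) (ω : V →ₗ[ℂ] V →ₗ[ℂ] ℂ) (J : Module.End ℂ V)
    (σ : V →ₛₗ[starRingEnd ℂ] V), finrank ℂ V = 6 → Cfg g ω J σ →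
    (∀ Y : Module.End ℂ V, SEH.Skw ω Y →
      Y ∈ Submodule.span ℂ {Y | ∃ A ∈ g, ∃ B ∈ g, Y = A * B - B * A}) ∨ ∃ Q, Bad g J Q

/-- `J` IN THE EXCEPTIONAL CASE. PROOF. `Q̄ = σ Q σ`, `g₋ = ℂ Q̄`. `K(X, J)`: `ad J` is `2 i`, `0`, `-2 i` on `g₊`, `g₀`, `g₋`, and `ad X` for
`X = X₊ + X₀ + X₋` has diagonal part `ad X₀`: `[X₀, Q] = χ Q`, `[X₀, Q̄] = χ' Q̄`, so `K(X, J) = 2 i (χ - χ')` (trace in a basis
adapted to `g = ℂ Q ⊕ g₀ ⊕ ℂ Q̄`). `X₀ Q - Q X₀ = χ Q`, `Q : W⁻ → W⁺` bijective, `dim W^± = 3`: `tr(X₀|W⁺) - tr(X₀|W⁻) = 3 χ`, and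
`tr(X₀|W⁻) = - tr(X₀|W⁺)` (`X₀` skew, `ω` pairs `W⁺` and `W⁻`); `τ = tr(X₀|W⁺)`: `2 τ = 3 χ`, similarly `-2 τ = 3 χ'`. So
`K(X, J) = (8 i / 3) τ`; `tr(X J) = tr(X₀ J) = i τ - i (- τ) = 2 i τ`. -/
def S_vN : Prop :=
  ∀ (V : Type) [AddCommGroup V] [Module ℂ V] [FiniteDimensional ℂ V]
    (g : Submodule ℂ (Module.End ℂ V)) (ω : V →ₗ[ℂ] V →ₗ[ℂ] ℂ) (J : Module.End ℂ V)
    (σ : V →ₛₗ[starRingEnd ℂ] V), finrank ℂ V = 6 → ∀ (H : Cfg g ω J σ) (Q : Module.End ℂ V),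
    Bad g J Q → Rad H.lie J

/-- AN ELEMENT OF THE OTHER FACTOR. PROOF. `Q̄ = σ Q σ`, `g₋ = ℂ Q̄`. `b` = the set of the `B ∈ g` which commute with `J`, `Q`, `Q̄`.
(1) `g₀ = ℂ J ⊕ b`: for `X₀ ∈ g₀`: `[X₀, Q] = χ Q`, `[X₀, Q̄] = χ' Q̄`, `χ' = - χ` (proof of `S_vN`), so
`X₀ - (χ / 2 i) J ∈ b`. (2) `[Q, Q̄] = α J`: it is in `g₀`, so `α J + β`, `β ∈ b`; `β` commutes with `b` (for `B ∈ b`:
`[B, [Q, Q̄]] = 0 = [B, J]`), `J`, `Q`, `Q̄`, so with `g`: by `irr` (an eigenspace) it is a scalar, and skew, so `0`.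
(3) `b ≠ 0`: otherwise `g = ℂ J + ℂ Q + ℂ Q̄` and `ℂ w + ℂ Q w` (`0 ≠ w ∈ W⁻`) is stable (`Q̄ Q w = - [Q, Q̄] w = - α J w`), of
dimension `≤ 2`. (4) `γ(u, v) = ω(Q⁻¹ u, v)` is a nondegenerate symmetric form on `W⁺`, `B ∈ b` is determined by `B|W⁺` (it
commutes with `Q`), which is skew for `γ`, and `tr(B B') = 2 tr(B B'|W⁺)`. In an orthonormal basis of `W⁺` for `γ` (3 × 3 skew
matrices, vectors `β ∈ ℂ³`) `tr(B B'|W⁺) = - 2 β·β'`. If `tr(B B) = 0` for all `B ∈ b`, then by polarisation `b` is a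
totally isotropic subspace of `ℂ³`, so `b = ℂ B`, and `ker B` is stable under `g` (`B` commutes with `J`, `Q`, `Q̄`, `B`) and not
`0` (`B|W⁺` is a skew `3 × 3` matrix, `det = 0`), so `B = 0` by `irr`: contradiction to (3). -/
def S_vB : Prop :=
  ∀ (V : Type) [AddCommGroup V] [Module ℂ V] [FiniteDimensional ℂ V]
    (g : Submodule ℂ (Module.End ℂ V)) (ω : V →ₗ[ℂ] V →ₗ[ℂ] ℂ) (J : Module.End ℂ V)
    (σ : V →ₛₗ[starRingEnd ℂ] V), finrank ℂ V = 6 → Cfg g ω J σ → ∀ Q : Module.End ℂ V,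
    Bad g J Q → ∃ B ∈ g, B * J = J * B ∧ B * Q = Q * B ∧
      (∀ C ∈ g, J * C - C * J = -((2 * Complex.I) • C) → B * C = C * B) ∧ Tr2 B B ≠ 0

/-- ITS KILLING FORM. PROOF. `c = tr(B B) / 4 ≠ 0`, `S = (ad B)²` on `g`. (1) `S² = c S`: `Y ∈ g` is
`Y₊ + Y₋ + (χ / 2 i) J + Y'`, `Y₊ ∈ ℂ Q`, `Y₋ ∈ g₋`, `Y' ∈ g` commuting with `J`, `Q`, `Q̄` ((1) in `S_vB`), and `ad B` kills all
but `Y'`. `B`, `Y'` are determined by their restrictions `b`, `y` to `W⁺` (they commute with `Q`), which are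
skew for the nondegenerate symmetric form `γ` of `S_vB`, so skew `3 × 3` matrices in an orthonormal basis:
`b³ = (tr(b²)/2) b`, `b [b, y] b = 0`, so `(ad b)³ y = b³ y - y b³ - 3 b [b, y] b = (tr(b²)/2) [b, y]`, and `tr(B B) = 2 tr(b²)`: so
`(ad B)³ Y' = c [B, Y']`. (2) `S / c` is idempotent, its trace is its rank `k`: `K(B, B) = tr S = c k`. -/
def S_vD : Prop :=
  ∀ (V : Type) [AddCommGroup V] [Module ℂ V] [FiniteDimensional ℂ V]
    (g : Submodule ℂ (Module.End ℂ V)) (ω : V →ₗ[ℂ] V →ₗ[ℂ] ℂ) (J : Module.End ℂ V)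
    (σ : V →ₛₗ[starRingEnd ℂ] V), finrank ℂ V = 6 → ∀ (H : Cfg g ω J σ) (Q : Module.End ℂ V),
    Bad g J Q → ∀ (B : Module.End ℂ V) (hB : B ∈ g), B * J = J * B → B * Q = Q * B →
    (∀ C ∈ g, J * C - C * J = -((2 * Complex.I) • C) → B * C = C * B) → Tr2 B B ≠ 0 →
    ∃ k : ℕ, Kil H.lie ⟨B, hB⟩ ⟨B, hB⟩ = (k / 4) * Tr2 B B

/-! ## The rational structure -/

open SEH.hTr_aux SEU.uT_aux

/-- The complex span of the `X̂`, `X ∈ h`. -/
def gh {T : AV} {r : ℕ} (e : Basis (Fin r) ℝ T.V) (h : Set (Module.End ℝ T.V)) :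
    Submodule ℂ (Module.End ℂ (Fin r → ℂ)) := Submodule.span ℂ (hat e '' h)

/-- THE RATIONAL RADICAL. PROOF. `h₁ = {X ∈ h | Rad hl (X̂)}`. `rat`, `sk`: as `h₁ ⊆ h`. `lie`: `h₁` is closed under sums and
rational multiples (`Kil`, `Tr2` bilinear; `hat` is real linear), and under brackets: `[X, Y]^ = Ŷ X̂ - X̂ Ŷ` is in `Rad`
because `K([A, B], C) = K(A, [B, C])` (`ad` is a homomorphism (Jacobi), trace cyclic) and `tr([A, B] C) = tr(A [B, C])`. `J`: choose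
`H_1, …, H_d ∈ h` such that the `Ĥ_i` are a basis of `gh e h` over `ℂ` (a spanning set contains a basis). The matrices of the
`H_i` are rational (`e k ∈ T.L`) and linearly independent over `ℂ`, so the coordinates of any `X̂`, `X ∈ h`,
are rational (unique solution of a linear system with rational coefficients); so the structure
constants, the numbers `K(Ĥ_i, Ĥ_j)` (trace in the basis `Ĥ_i`) and `tr(Ĥ_i Ĥ_j)` are rational. `mulI T = ∑ z_i H_i`, `z_i`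
real (`hh.J`, the coordinates of elements of `h` are rational). `M_(ij) = K(Ĥ_i, Ĥ_j) - (4/3) tr(Ĥ_i Ĥ_j)`, a rational matrix,
`∑_i z_i M_(ij) = 0` (hypothesis). Write `z_i = ∑_l β_l q_(li)`, `β_l` real numbers linearly independent over `ℚ` (a basis of the
`ℚ`-span of the `z_i`), `q_(li)` rational: `∑_i q_(li) M_(ij) = 0`, so `X_l = ∑_i q_(li) H_i ∈ h₁`, and `mulI T = ∑ β_l X_l`. -/
def S_vH : Prop :=
  ∀ (T : AV) (E : T.V →ₗ[ℝ] T.V →ₗ[ℝ] ℝ) (h : Set (Module.End ℝ T.V)), SES.HLieS E h →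
    ∀ (r : ℕ) (e : Basis (Fin r) ℝ T.V), (∀ k, e k ∈ T.L) → ∀ hl : Clo (gh e h),
    Rad hl (hat e (mulI T)) → SES.HLieS E {X | X ∈ h ∧ Rad hl (hat e X)}

/-- TRANSFER. PROOF. SE/U/uT.lean, with `r` in place of `4` (all its lemmas are general): `ω = om F`, `F` the inverse of the
matrix of `E`. -/
def S_vT : Prop :=
  ∀ (T : AV) (E : T.V →ₗ[ℝ] T.V →ₗ[ℝ] ℝ), IsRf T E → ∀ (r : ℕ) (e : Basis (Fin r) ℝ T.V),
    ∃ ω : (Fin r → ℂ) →ₗ[ℂ] (Fin r → ℂ) →ₗ[ℂ] ℂ, ∀ h : Set (Module.End ℝ T.V),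
    SES.HLieS E h →
    (∀ U : Submodule ℂ (Frm T), (∀ X ∈ h, ∀ u ∈ U, pre X u ∈ U) → U = ⊥ ∨ U = ⊤) →
    Cfg (gh e h) ω (hat e (mulI T)) (cj r) ∧
    ((∀ Y : Module.End ℂ (Fin r → ℂ), SEH.Skw ω Y →
      Y ∈ Submodule.span ℂ {Y | ∃ A ∈ gh e h, ∃ B ∈ gh e h, Y = A * B - B * A}) →
      ∀ X, IsSk E X → X ∈ Submodule.span ℝ (Com h))

end SEV
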